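import Pool.Agent.MP_96eeb0_lc.H32.Ord

/-! A definable Baire category theorem for NIP subfields of the reals. -/

namespace Pool.Agent.MP_96eeb0_lc.H32
open Set Filter

def Left (X : Set ℝ) (t : ℝ) : Prop := ∃ x ∈ X, x < t ∧ ∀ x' ∈ X, t < x' → t - x < x' - t

theorem split_lemma {X : ℕ → Set ℝ} (hX : Monotone X) {J : Set ℝ} (hJ : IsOpen J)
    (hne : J.Nonempty) (hd : J ⊆ closure (⋃ n, X n))
    (hn : ∀ n, Disjoint J (interior (closure (X n)))) :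
    ∃ m0, ∀ m ≥ m0, ∃ J1 J0 : Set ℝ, (IsOpen J1 ∧ J1.Nonempty ∧ J1 ⊆ J) ∧
      (IsOpen J0 ∧ J0.Nonempty ∧ J0 ⊆ J) ∧ (∀ t ∈ J1, Left (X m) t) ∧ ∀ t ∈ J0, ¬ Left (X m) t := by
  obtain ⟨c, d, hcd, hsub⟩ := hJ.exists_Ioo_subset hne
  have pick : ∀ u w, c ≤ u → u < w → w ≤ d → ∃ m, ∃ x ∈ X m, u < x ∧ x < w := by
    intro u w h1 h2 h3
    have h4 : (u + w) / 2 ∈ closure (⋃ n, X n) := hd (hsub ⟨by linarith, by linarith⟩)
    obtain ⟨x, hx1, hx2⟩ := mem_closure_iff.1 h4 (Ioo u w) isOpen_Ioo ⟨by linarith, by linarith⟩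
    obtain ⟨m, hm⟩ := mem_iUnion.1 hx2
    exact ⟨m, x, hm, hx1⟩
  obtain ⟨m1, x, hx, hx1, hx2⟩ := pick c ((c + d) / 2) le_rfl (by linarith) (by linarith)
  obtain ⟨m2, x', hx', hx1', hx2'⟩ := pick ((c + d) / 2) d (by linarith) (by linarith) le_rfl
  refine ⟨max m1 m2, fun m hm => ?_⟩
  replace hx := hX ((le_max_left _ _).trans hm) hx
  replace hx' := hX ((le_max_right _ _).trans hm) hx'
  obtain ⟨y, hy, hy'⟩ : ∃ y ∈ Ioo x x', y ∉ closure (X m) := by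
    by_contra hc
    push Not at hc
    have h1 : Ioo x x' ⊆ interior (closure (X m)) := interior_maximal hc isOpen_Ioo
    have h2 : (c + d) / 2 ∈ Ioo x x' := ⟨hx2, hx1'⟩
    exact Set.disjoint_left.1 (hn m) (hsub ⟨by linarith, by linarith⟩) (h1 h2)
  obtain ⟨ε, hε, hb⟩ : ∃ ε > 0, ∀ z ∈ X m, ε ≤ |y - z| := by
    rw [Metric.mem_closure_iff] at hy'
    push Not at hy'
    simpa [Real.dist_eq] using hy'
  set A := {z ∈ X m | z ≤ y}
  set B := {z ∈ X m | y ≤ z}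
  have hA : A.Nonempty := ⟨x, hx, hy.1.le⟩
  have hB : B.Nonempty := ⟨x', hx', hy.2.le⟩
  have hA' : BddAbove A := ⟨y, fun z hz => hz.2⟩
  have hB' : BddBelow B := ⟨y, fun z hz => hz.2⟩
  set a := sSup A
  set b := sInf B
  have ha : a ≤ y - ε := csSup_le hA fun z hz => by
    have := hb z hz.1
    rw [abs_of_nonneg (by linarith [hz.2])] at this
    linarith
  have hb' : y + ε ≤ b := le_csInf hB fun z hz => by
    have := hb z hz.1
    rw [abs_of_nonpos (by linarith [hz.2])] at this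
    linarith
  have hxa : x ≤ a := le_csSup hA' ⟨hx, hy.1.le⟩
  have hbx : b ≤ x' := csInf_le hB' ⟨hx', hy.2.le⟩
  have hgap : ∀ z ∈ X m, z ≤ a ∨ b ≤ z := fun z hz => (le_total z y).imp
    (fun h => le_csSup hA' ⟨hz, h⟩) (fun h => csInf_le hB' ⟨hz, h⟩)
  refine ⟨Ioo a (a + (b - a) / 3), Ioo (b - (b - a) / 3) b,
    ⟨isOpen_Ioo, nonempty_Ioo.2 (by linarith), fun t ht => hsub ⟨by linarith [ht.1], by
      linarith [ht.2]⟩⟩,
    ⟨isOpen_Ioo, nonempty_Ioo.2 (by linarith), fun t ht => hsub ⟨by linarith [ht.1], by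
      linarith [ht.2]⟩⟩, fun t ht => ?_, fun t ht => ?_⟩
  · obtain ⟨z, hz, hz'⟩ := exists_lt_of_lt_csSup hA (show a - (b - a) / 3 < a by linarith)
    have hza : z ≤ a := le_csSup hA' hz
    refine ⟨z, hz.1, by linarith [ht.1], fun w hw htw => ?_⟩
    rcases hgap w hw with h | h
    · linarith [ht.1]
    · linarith [ht.2]
  · rintro ⟨z, hz, hzt, h⟩
    obtain ⟨w, hw, hw'⟩ := exists_lt_of_csInf_lt hB (show b < b + (b - a) / 3 by linarith)
    have hbw : b ≤ w := csInf_le hB' hw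
    have := h w hw.1 (by linarith [ht.2])
    rcases hgap z hz with h | h
    · linarith [ht.1]
    · linarith [ht.2]

theorem tree_lemma {X : ℕ → Set ℝ} (hX : Monotone X) {I : Set ℝ} (hI : IsOpen I)
    (hne : I.Nonempty) (hd : I ⊆ closure (⋃ n, X n))
    (hn : ∀ n, Disjoint I (interior (closure (X n)))) (n : ℕ) :
    ∃ (s : Fin n → ℕ) (J : Set (Fin n) → Set ℝ), (∀ S, IsOpen (J S) ∧ (J S).Nonempty ∧ J S ⊆ I) ∧
      ∀ S i, ∀ t ∈ J S, Left (X (s i)) t ↔ i ∈ S := by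
  classical
  induction n with
  | zero => exact ⟨fun i => i.elim0, fun _ => I, fun _ => ⟨hI, hne, Subset.rfl⟩, fun _ i => i.elim0⟩
  | succ n ih =>
    obtain ⟨s, J, hJ, hs⟩ := ih
    choose m0 hm0 using fun S => split_lemma hX (hJ S).1 (hJ S).2.1 ((hJ S).2.2.trans hd)
      (fun k => (hn k).mono_left (hJ S).2.2)
    obtain ⟨m, hm⟩ := (Set.finite_range m0).bddAbove
    choose J1 J0 h1 h0 k1 k0 using fun S => hm0 S m (hm ⟨S, rfl⟩)
    refine ⟨Fin.cons m s, fun S => if 0 ∈ S then J1 {i | i.succ ∈ S} else J0 {i | i.succ ∈ S},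
      fun S => ?_, fun S i t ht => ?_⟩
    · by_cases h : 0 ∈ S
      · simp only [h, if_true]
        exact ⟨(h1 _).1, (h1 _).2.1, (h1 _).2.2.trans (hJ _).2.2⟩
      · simp only [h, if_false]
        exact ⟨(h0 _).1, (h0 _).2.1, (h0 _).2.2.trans (hJ _).2.2⟩
    · refine Fin.cases ?_ (fun i => ?_) i
      · by_cases h : 0 ∈ S
        · simp only [h, if_true] at ht
          simpa [h] using k1 _ t ht
        · simp only [h, if_false] at ht
          simpa [h] using k0 _ t ht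
      · have : t ∈ J {i | i.succ ∈ S} := by
          by_cases h : 0 ∈ S
          · simp only [h, if_true] at ht
            exact (h1 _).2.2 ht
          · simp only [h, if_false] at ht
            exact (h0 _).2.2 ht
        simpa using hs _ i t this

variable {K : Subfield ℝ}

def pr (A : (ℕ → K) → Prop) : Set ℝ := {x | ∃ v, A v ∧ (v 0 : ℝ) = x}

theorem bad_nwd (hK : NIP K) {e : ℕ → K} (he : OrdDf e) {A : (ℕ → K) → Prop} (hA : Df e A)
    (j : ℕ) : IsNowhereDense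
      (closure (pr A) \ ⋃ n : ℕ, interior (closure (pr fun v => A v ∧ v j ^ 2 ≤ n))) := by
  set X : ℕ → Set ℝ := fun n => pr fun v => A v ∧ v j ^ 2 ≤ n with hXdef
  rw [(isClosed_closure.sdiff (isOpen_iUnion fun _ => isOpen_interior)).isNowhereDense_iff]
  by_contra hc
  have hX : Monotone X := by
    rintro m n hmn _ ⟨v, hv, rfl⟩
    exact ⟨v, ⟨hv.1, hv.2.trans (by exact_mod_cast hmn)⟩, rfl⟩
  have hU : pr A ⊆ ⋃ n, X n := by
    rintro _ ⟨v, hv, rfl⟩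
    obtain ⟨n, hn⟩ := exists_nat_ge ((v j : ℝ) ^ 2)
    exact mem_iUnion.2 ⟨n, v, ⟨hv, by exact_mod_cast hn⟩, rfl⟩
  have htree := tree_lemma hX isOpen_interior (nonempty_iff_ne_empty.2 hc)
    (fun t ht => closure_mono hU (interior_subset ht).1)
    (fun n => Set.disjoint_left.2 fun t ht ht' => (interior_subset ht).2 (mem_iUnion.2 ⟨n, ht'⟩))
  let B : K → K → Prop := fun x s => ∃ v, A v ∧ v j ^ 2 ≤ s ∧ v 0 = x
  have hB : Df e (fun u => B (u 0) (u 1)) := by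
    obtain ⟨N0, hN0⟩ := hA.supp
    obtain ⟨N, h1, h2⟩ : ∃ N, N0 ≤ N ∧ j < N := ⟨max N0 (j + 1), le_max_left _ _, by omega⟩
    have h3 : 0 < N := by omega
    refine ((hA.and ((he.le ((Pl.var j).pow 2) (Pl.var (N + 1))).and
      (Df.eq (Pl.var 0) (Pl.var N)))).exN N).congr fun u => ?_
    constructor
    · rintro ⟨v, k1, k2, k3⟩
      refine ⟨v, (hN0 _ _ fun k hk => ?_).1 k1, ?_, ?_⟩
      · simp [app, hk.trans_le h1]
      · simpa [app, h2] using k2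
      · simpa [app, h3] using k3
    · rintro ⟨a, k1, k2, k3⟩
      exact ⟨app N a u, k1, by simpa [app] using k2, by simpa [app] using k3⟩
  have hC : Df e (fun u => ∃ x, B x (u 0) ∧ x < u 1 ∧
      ∀ x', B x' (u 0) → u 1 < x' → u 1 - x < x' - u 1) :=
    (hB.and ((he.lt (Pl.var 0) (Pl.var 2)).and (((hB.ren fun k => 2 * k).imp
      ((he.lt (Pl.var 3) (Pl.var 0)).imp (he.lt ((Pl.var 3).sub (Pl.var 1))
        ((Pl.var 0).sub (Pl.var 3))))).all))).ex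
  obtain ⟨n, hn⟩ := hC.nip hK (fun k => decide (k = 0))
  obtain ⟨s, J, hJ, hs⟩ := htree n
  have ht : ∀ S, ∃ t : ℚ, (t : ℝ) ∈ J S := fun S =>
    Rat.denseRange_cast.exists_mem_open (hJ S).1 (hJ S).2.1
  choose t ht using ht
  refine hn ⟨fun i _ => (s i : K), fun S _ => (t S : K), fun i S => ?_⟩
  rw [← hs S i _ (ht S)]
  change (∃ x, B x (s i : K) ∧ x < (t S : K) ∧
      ∀ x', B x' (s i : K) → (t S : K) < x' → (t S : K) - x < x' - (t S : K)) ↔ _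
  constructor
  · rintro ⟨x, ⟨v, k1, k2, rfl⟩, k3, k4⟩
    refine ⟨v 0, ⟨v, ⟨k1, k2⟩, rfl⟩, by exact_mod_cast k3, ?_⟩
    rintro _ ⟨w, ⟨l1, l2⟩, rfl⟩ l3
    exact_mod_cast k4 (w 0) ⟨w, l1, l2, rfl⟩ (by exact_mod_cast l3)
  · rintro ⟨_, ⟨v, ⟨k1, k2⟩, rfl⟩, k3, k4⟩
    refine ⟨v 0, ⟨v, k1, k2, rfl⟩, by exact_mod_cast k3, ?_⟩
    rintro _ ⟨w, l1, l2, rfl⟩ l3
    exact_mod_cast k4 (w 0) ⟨w, ⟨l1, l2⟩, rfl⟩ (by exact_mod_cast l3)

theorem bound_lemma (hK : NIP K) {e : ℕ → K} (he : OrdDf e) :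
    ∃ M : Set ℝ, IsMeagre M ∧ ∀ r ∉ M, ∀ A, Df e A → ∀ j, r ∈ closure (pr A) →
      ∃ n : ℕ, r ∈ closure (pr fun v => A v ∧ v j ^ 2 ≤ n) := by
  refine ⟨⋃ A ∈ {A | Df e A}, ⋃ j : ℕ,
    (closure (pr A) \ ⋃ n : ℕ, interior (closure (pr fun v => A v ∧ v j ^ 2 ≤ n))),
    isMeagre_biUnion (countable_df e) fun A hA => isMeagre_iUnion fun j =>
      (bad_nwd hK he hA j).isMeagre, fun r hr A hA j h => ?_⟩
  by_contra hc
  push Not at hc
  refine hr (mem_iUnion₂.2 ⟨A, hA, mem_iUnion.2 ⟨j, h, fun h' => ?_⟩⟩)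
  obtain ⟨n, hn⟩ := mem_iUnion.1 h'
  exact hc n (interior_subset hn)

end Pool.Agent.MP_96eeb0_lc.H32
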