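import Pool.Agent.MP_96eeb0_lc.H32.Henkin

/-! From a Luzin set: non-meagre models. -/

namespace Pool.Agent.MP_96eeb0_lc.H32
open Set Filter Topology MvPolynomial

theorem satR_supp (φ : Fm) : ∃ N : ℕ, ∀ (S : Set ℝ) (v w : ℕ → ℝ),
    (∀ k < N, v k = w k) → (SatR S φ v ↔ SatR S φ w) := by
  induction φ with
  | eq p =>
    obtain ⟨N, h⟩ := sat_supp (.eq p)
    exact ⟨N, fun S v w hv => h v w hv⟩
  | not φ ih =>
    obtain ⟨N, h⟩ := ih
    exact ⟨N, fun S v w hv => not_congr (h S v w hv)⟩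
  | and φ ψ ih1 ih2 =>
    obtain ⟨N, h⟩ := ih1
    obtain ⟨M, h'⟩ := ih2
    exact ⟨max N M, fun S v w hv => and_congr (h S v w fun k hk => hv k (lt_max_of_lt_left hk))
      (h' S v w fun k hk => hv k (lt_max_of_lt_right hk))⟩
  | ex φ ih =>
    obtain ⟨N, h⟩ := ih
    refine ⟨N, fun S v w hv => exists_congr fun a => and_congr_right fun _ =>
      h S _ _ fun k hk => ?_⟩
    cases k with
    | zero => rfl
    | succ k => exact hv k (by omega)

def El (K L : Subfield ℝ) : Prop :=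
  K ≤ L ∧ ∀ φ v, (∀ k, v k ∈ K) → (SatR K φ v ↔ SatR L φ v)

theorem El.refl (K : Subfield ℝ) : El K K := ⟨le_rfl, fun _ _ _ => Iff.rfl⟩

theorem El.trans {K L M : Subfield ℝ} (h : El K L) (h' : El L M) : El K M :=
  ⟨h.1.trans h'.1, fun φ v hv => (h.2 φ v hv).trans (h'.2 φ v fun k => h.1 (hv k))⟩

section chain
variable {c : Set (Subfield ℝ)} (hne : c.Nonempty) (hc : ∀ K ∈ c, ∀ L ∈ c, El K L ∨ El L K)
include hne hc

theorem mem_sup {x : ℝ} : x ∈ sSup c ↔ ∃ K ∈ c, x ∈ K :=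
  Subfield.mem_sSup_of_directedOn hne fun K hK L hL => (hc K hK L hL).elim
    (fun h => ⟨L, hL, h.1, le_rfl⟩) (fun h => ⟨K, hK, le_rfl, h.1⟩)

theorem el_sup {K : Subfield ℝ} (hK : K ∈ c) : El K (sSup c) := by
  refine ⟨le_sSup hK, fun φ => ?_⟩
  induction φ generalizing K with
  | eq p => exact fun _ _ => Iff.rfl
  | not φ ih => exact fun v hv => not_congr (ih hK v hv)
  | and φ ψ ih1 ih2 => exact fun v hv => and_congr (ih1 hK v hv) (ih2 hK v hv)
  | ex φ ih =>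
    intro v hv
    have hcons : ∀ (L : Subfield ℝ) a, a ∈ L → K ≤ L → ∀ k, cons a v k ∈ L := fun L a ha h k => by
      cases k with
      | zero => exact ha
      | succ k => exact h (hv k)
    constructor
    · rintro ⟨a, ha, h⟩
      exact ⟨a, le_sSup hK ha, (ih hK _ (hcons K a ha le_rfl)).1 h⟩
    · rintro ⟨a, ha, h⟩
      obtain ⟨L, hL, haL⟩ := (mem_sup hne hc).1 ha
      rcases hc K hK L hL with h1 | h1
      · exact (h1.2 (.ex φ) v hv).2 ⟨a, haL, (ih hL _ (hcons L a haL h1.1)).2 h⟩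
      · exact ⟨a, h1.1 haL, (ih hK _ (hcons K a (h1.1 haL) le_rfl)).2 h⟩

theorem fin_sup {s : Set ℝ} (hs : s.Finite) (h : ∀ x ∈ s, x ∈ sSup c) :
    ∃ K ∈ c, ∀ x ∈ s, x ∈ K := by
  induction s, hs using Set.Finite.induction_on with
  | empty => exact hne.imp fun K hK => ⟨hK, by simp⟩
  | @insert a s _ _ ih =>
    obtain ⟨K, hK, h1⟩ := ih fun x hx => h x (mem_insert_of_mem _ hx)
    obtain ⟨L, hL, haL⟩ := (mem_sup hne hc).1 (h a (mem_insert _ _))
    rcases hc K hK L hL with h2 | h2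
    · exact ⟨L, hL, forall_mem_insert.2 ⟨haL, fun x hx => h2.1 (h1 x hx)⟩⟩
    · exact ⟨K, hK, forall_mem_insert.2 ⟨h2.1 haL, h1⟩⟩

theorem pat_sup {φ : Fm} {X : ℕ → Bool} {n : ℕ} (h : PatR (sSup c : Subfield ℝ) φ X n) :
    ∃ K ∈ c, PatR K φ X n := by
  obtain ⟨a, b, ha, hb, h⟩ := h
  obtain ⟨N, hN⟩ := satR_supp φ
  obtain ⟨K, hK, h1⟩ := fin_sup hne hc
    ((finite_range fun p : Fin n × Fin N => a p.1 p.2).union
      (finite_range fun p : Set (Fin n) × Fin N => b p.1 p.2)) (by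
      rintro _ (⟨p, rfl⟩ | ⟨p, rfl⟩)
      · exact ha _ _
      · exact hb _ _)
  have k1 : ∀ i k, (if k < N then a i k else 0) ∈ K := fun i k => by
    split_ifs with hk
    · exact h1 _ (Or.inl ⟨(i, ⟨k, hk⟩), rfl⟩)
    · exact K.zero_mem
  have k2 : ∀ T k, (if k < N then b T k else 0) ∈ K := fun T k => by
    split_ifs with hk
    · exact h1 _ (Or.inr ⟨(T, ⟨k, hk⟩), rfl⟩)
    · exact K.zero_mem
  refine ⟨K, hK, _, _, k1, k2, fun i T => ?_⟩
  rw [← h i T, (el_sup hne hc hK).2 φ _ (fun k => by cases X k; exacts [k2 T k, k1 i k])]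
  exact hN _ _ _ fun k hk => by simp [hk]

end chain

def Good (K0 : Subfield ℝ) (d : ℕ) (co : ℕ → ℝ) (K : Subfield ℝ) : Prop :=
  (∀ i, co i ∈ K) ∧ (¬ ∃ x ∈ K, ∑ i ∈ Finset.range d, co i * x ^ i = 0) ∧
    ∀ φ X n, PatR K φ X n → PatR K0 φ X n

theorem root_iff (S : Set ℝ) (d : ℕ) (co : ℕ → ℝ) :
    SatR S (.ex (.eq (∑ i ∈ Finset.range d, X (i + 1) * X 0 ^ i))) co ↔
      ∃ x ∈ S, ∑ i ∈ Finset.range d, co i * x ^ i = 0 := by
  simp [SatR]

variable {K0 : Subfield ℝ} {d : ℕ} {co : ℕ → ℝ}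

theorem Good.nip (h0 : NIP K0) {K : Subfield ℝ} (h : Good K0 d co K) : NIP K :=
  (nip_iff K).2 fun φ X => ((nip_iff K0).1 h0 φ X).imp fun n hn h' => hn (h.2.2 φ X n h')

theorem good_start (h0 : NIP K0) (h : Good K0 d co K0) :
    ∃ K : Subfield ℝ, (K : Set ℝ).Countable ∧ Good K0 d co K := by
  obtain ⟨M, hM, hE⟩ := extension h0 (fun i => ⟨co i, h.1 i⟩)
  obtain ⟨r, hr⟩ := (dense_of_mem_residual hM).nonempty
  obtain ⟨K, h1, -, h2, h3, h4⟩ := hE r hr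
  refine ⟨K, h1, h2, fun h' => h.2.1 ?_, h4⟩
  exact (root_iff _ _ _).1 ((h3 _ id).2 ((root_iff _ _ _).2 h'))

theorem good_step (h0 : NIP K0) {K : Subfield ℝ} (hc : (K : Set ℝ).Countable)
    (h : Good K0 d co K) : ∃ M : Set ℝ, IsMeagre M ∧ ∀ r ∉ M, ∃ L : Subfield ℝ,
      (L : Set ℝ).Countable ∧ Good K0 d co L ∧ El K L ∧ r ∈ L := by
  have : Countable K := hc.to_subtype
  obtain ⟨e, he⟩ := exists_surjective_nat K
  obtain ⟨M, hM, hE⟩ := extension (h.nip h0) e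
  refine ⟨M, hM, fun r hr => ?_⟩
  obtain ⟨L, h1, h5, h2, h3, h4⟩ := hE r hr
  have hel : El K L := by
    refine ⟨fun x hx => ?_, fun φ v hv => ?_⟩
    · obtain ⟨i, hi⟩ := he ⟨x, hx⟩
      simpa [hi] using h2 i
    · choose τ hτ using fun k => he ⟨v k, hv k⟩
      simpa [hτ] using h3 φ τ
  refine ⟨L, h1, ⟨fun i => hel.1 (h.1 i), fun h' => h.2.1 ?_,
    fun φ X n h' => h.2.2 φ X n (h4 φ X n h')⟩, hel, h5⟩
  exact (root_iff _ _ _).1 ((hel.2 _ co h.1).2 ((root_iff _ _ _).2 h'))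

theorem meagre_countable {s : Set ℝ} (hs : s.Countable) : IsMeagre s := by
  rw [← biUnion_of_singleton s]
  exact isMeagre_biUnion hs fun x _ =>
    (isClosed_singleton.isNowhereDense_iff.2 (interior_singleton x)).isMeagre

theorem exists_nonmeagre (h0 : NIP K0) (h : Good K0 d co K0) {Y : Set ℝ} (hY : ¬ Y.Countable)
    (hY' : ∀ M, IsMeagre M → (Y ∩ M).Countable) :
    ∃ K : Subfield ℝ, ¬ IsMeagre (K : Set ℝ) ∧ Good K0 d co K := by
  by_contra hc
  push Not at hc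
  have hcnt : ∀ K : Subfield ℝ, Good K0 d co K → (Y ∩ K).Countable := fun K hK =>
    hY' _ (by_contra fun h' => hc K h' hK)
  let P := {K : Subfield ℝ // (K : Set ℝ).Countable ∧ Good K0 d co K}
  have : Nonempty P := nonempty_subtype.2 (good_start h0 h)
  let r : P → P → Prop := fun K L => K = L ∨ (El K.1 L.1 ∧ ∃ y ∈ Y, y ∈ L.1 ∧ y ∉ K.1)
  have hr : ∀ K L, r K L → El K.1 L.1 := fun K L h => h.elim (fun h => h ▸ El.refl _) And.left
  obtain ⟨m, hm⟩ := exists_maximal_of_nonempty_chains_bounded (r := r) (fun c hch hne => by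
    by_cases hmax : ∃ K ∈ c, ∀ L ∈ c, r L K
    · obtain ⟨K, -, hK⟩ := hmax
      exact ⟨K, hK⟩
    push Not at hmax
    have hne' : (Subtype.val '' c).Nonempty := hne.image _
    have hc' : ∀ K ∈ Subtype.val '' c, ∀ L ∈ Subtype.val '' c, El K L ∨ El L K := by
      rintro _ ⟨K, hK, rfl⟩ _ ⟨L, hL, rfl⟩
      by_cases hKL : K = L
      · exact Or.inl (hKL ▸ El.refl _)
      · exact (hch hK hL hKL).imp (hr _ _) (hr _ _)
    have hnew : ∀ K ∈ c, ∃ y ∈ Y, y ∈ sSup (Subtype.val '' c) ∧ y ∉ K.1 := fun K hK => by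
      obtain ⟨L, hL, hLK⟩ := hmax K hK
      have hne : K ≠ L := fun h => hLK (Or.inl h.symm)
      obtain ⟨-, y, hy, h1, h2⟩ := ((hch hK hL hne).resolve_right hLK).resolve_left hne
      exact ⟨y, hy, (el_sup hne' hc' (mem_image_of_mem _ hL)).1 h1, h2⟩
    have hG : Good K0 d co (sSup (Subtype.val '' c)) := by
      obtain ⟨K, hK⟩ := hne
      refine ⟨fun i => (el_sup hne' hc' (mem_image_of_mem _ hK)).1 (K.2.2.1 i), ?_, fun φ X n h' => ?_⟩
      · rintro ⟨x, hx, h'⟩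
        obtain ⟨_, ⟨L, -, rfl⟩, hxL⟩ := (mem_sup hne' hc').1 hx
        exact L.2.2.2.1 ⟨x, hxL, h'⟩
      · obtain ⟨_, ⟨L, -, rfl⟩, hL⟩ := pat_sup hne' hc' h'
        exact L.2.2.2.2 φ X n hL
    have hsel : ∀ y ∈ Y ∩ (sSup (Subtype.val '' c) : Subfield ℝ), ∃ L ∈ c, y ∈ L.1 :=
      fun y hy => by
        obtain ⟨_, ⟨L, hL, rfl⟩, hyL⟩ := (mem_sup hne' hc').1 hy.2
        exact ⟨L, hL, hyL⟩
    choose! f hf1 hf2 using hsel
    have hC : ((sSup (Subtype.val '' c) : Subfield ℝ) : Set ℝ).Countable := by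
      refine ((hcnt _ hG).biUnion fun y _ => (f y).2.1).mono fun x hx => ?_
      obtain ⟨_, ⟨K, hK, rfl⟩, hxK⟩ := (mem_sup hne' hc').1 hx
      obtain ⟨y, hy, h1, h2⟩ := hnew K hK
      refine mem_biUnion (show y ∈ Y ∩ _ from ⟨hy, h1⟩) ?_
      rcases hc' _ (mem_image_of_mem _ hK) _ (mem_image_of_mem _ (hf1 y ⟨hy, h1⟩)) with h3 | h3
      · exact h3.1 hxK
      · exact absurd (h3.1 (hf2 y ⟨hy, h1⟩)) h2
    exact ⟨⟨_, hC, hG⟩, fun K hK => Or.inr ⟨el_sup hne' hc' (mem_image_of_mem _ hK), hnew K hK⟩⟩)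
    (by
      rintro K L M (rfl | h1) h2
      · exact h2
      rcases h2 with rfl | h2
      · exact Or.inr h1
      · obtain ⟨y, hy, h3, h4⟩ := h1.2
        exact Or.inr ⟨h1.1.trans h2.1, y, hy, h2.1.1 h3, h4⟩)
  obtain ⟨M, hM, hE⟩ := good_step h0 m.2.1 m.2.2
  obtain ⟨y, hy, hy'⟩ : ∃ y ∈ Y, y ∉ M ∪ m.1 := by
    by_contra h'
    push Not at h'
    exact hY ((hY' _ (hM.union (meagre_countable m.2.1))).mono fun y hy =>
      mem_inter hy (h' y hy))
  obtain ⟨L, h1, h2, h3, h4⟩ := hE y fun h' => hy' (Or.inl h')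
  have h5 : y ∉ m.1 := fun h' => hy' (Or.inr h')
  exact h5 ((hr _ _ (hm ⟨L, h1, h2⟩ (Or.inr ⟨h3, y, hy, h4, h5⟩))).1 h4)

/-- the continuum hypothesis gives a Luzin set -/
theorem luzin_of_ch (h : Cardinal.continuum.{0} = Cardinal.aleph 1) :
    ∃ Y : Set ℝ, ¬ Y.Countable ∧ ∀ M, IsMeagre M → (Y ∩ M).Countable := by
  let α := {B : Set ℝ // MeasurableSet B ∧ IsMeagre B}
  let ι := (Cardinal.aleph.{0} 1).ord.ToType
  have h1 : Cardinal.mk α ≤ Cardinal.mk ι := by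
    rw [Cardinal.mk_ord_toType, ← h]
    refine le_trans (Cardinal.mk_le_mk_of_subset (t := {B : Set ℝ | MeasurableSet B})
      fun B hB => hB.1) ?_
    rw [BorelSpace.measurable_eq (α := ℝ), Real.borel_eq_generateFrom_Ioo_rat]
    refine MeasurableSpace.cardinal_measurableSet_le_continuum
      (le_trans (Cardinal.le_aleph0_iff_set_countable.2 ?_) Cardinal.aleph0_le_continuum)
    exact countable_iUnion fun a => countable_iUnion fun b => countable_iUnion fun _ =>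
      countable_singleton _
  obtain ⟨f⟩ := (Cardinal.le_def _ _).1 h1
  have : Nonempty α := ⟨⟨∅, MeasurableSet.empty, IsMeagre.empty⟩⟩
  have hg := Function.invFun_surjective f.injective
  set g := Function.invFun f
  have hI : ∀ i : ι, (Iio i).Countable := fun i =>
    (Cardinal.countable_iff_lt_aleph_one _).2 (Cardinal.mk_Iio_ord_toType i)
  have hy : ∀ i : ι, ∃ y, y ∉ ⋃ j ∈ insert i (Iio i), (g j).1 := fun i =>
    (dense_of_mem_residual (isMeagre_biUnion ((hI i).insert i) fun j _ => (g j).2.2)).nonempty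
  choose y hy using hy
  have hB : ∀ M, IsMeagre M → ∃ j, M ⊆ (g j).1 := fun M hM => by
    obtain ⟨t, h1, h2, h3⟩ := mem_residual.1 hM
    obtain ⟨j, hj⟩ := hg ⟨tᶜ, h2.measurableSet.compl, by
      simpa [IsMeagre] using residual_of_dense_Gδ h2 h3⟩
    exact ⟨j, by rw [hj]; exact subset_compl_comm.1 h1⟩
  refine ⟨range y, fun hc => ?_, fun M hM => ?_⟩
  · obtain ⟨j, hj⟩ := hB _ (meagre_countable hc)
    exact hy j (mem_biUnion (mem_insert _ _) (hj ⟨j, rfl⟩))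
  · obtain ⟨j, hj⟩ := hB M hM
    refine ((hI j).image y).mono ?_
    rintro _ ⟨⟨i, rfl⟩, hi⟩
    refine ⟨i, ?_, rfl⟩
    by_contra hij
    exact hy i (mem_biUnion (show j ∈ insert i (Iio i) from (not_lt.1 hij).eq_or_lt) (hj hi))

end Pool.Agent.MP_96eeb0_lc.H32
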