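import Pool.Agent.MP_96eeb0_lc.H32.Defs

/-! The class of sets of assignments definable with parameters from a sequence `e`. -/

namespace Pool.Agent.MP_96eeb0_lc.H32
open MvPolynomial

@[simp] theorem cons_zero {α : Type} (a : α) (v : ℕ → α) : cons a v 0 = a := rfl
@[simp] theorem cons_succ {α : Type} (a : α) (v : ℕ → α) (n : ℕ) : cons a v (n + 1) = v n := rfl

theorem cons_comp {α β : Type} (f : α → β) (a : α) (v : ℕ → α) :
    (fun k => f (cons a v k)) = cons (f a) (fun k => f (v k)) := by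
  funext k; cases k <;> rfl

/-- substitution of polynomials for the free variables -/
noncomputable def Fm.subst : Fm → (ℕ → MvPolynomial ℕ ℤ) → Fm
  | .eq p, θ => .eq (aeval θ p)
  | .not φ, θ => .not (φ.subst θ)
  | .and φ ψ, θ => .and (φ.subst θ) (ψ.subst θ)
  | .ex φ, θ => .ex (φ.subst (cons (X 0) (fun k => rename Nat.succ (θ k))))

variable {F : Type} [Field F]

theorem sat_subst (φ : Fm) : ∀ (θ : ℕ → MvPolynomial ℕ ℤ) (v : ℕ → F),
    Sat (φ.subst θ) v ↔ Sat φ (fun k => aeval v (θ k)) := by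
  induction φ with
  | eq p =>
    intro θ v
    simp only [Fm.subst, Sat]
    rw [← AlgHom.comp_apply, comp_aeval]
  | not φ ih => intro θ v; simp only [Fm.subst, Sat, ih]
  | and φ ψ ih1 ih2 => intro θ v; simp only [Fm.subst, Sat, ih1, ih2]
  | ex φ ih =>
    intro θ v
    simp only [Fm.subst, Sat, ih]
    refine exists_congr fun a => ?_
    have : (fun k => aeval (cons a v) (cons (X 0) (fun k => rename Nat.succ (θ k)) k))
        = cons a (fun k => aeval v (θ k)) := by
      funext k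
      cases k with
      | zero => simp
      | succ k =>
        simp only [cons_succ, aeval_rename]
        rfl
    rw [this]

theorem sat_supp (φ : Fm) : ∃ N : ℕ, ∀ {F : Type} [Field F] (v w : ℕ → F),
    (∀ k < N, v k = w k) → (Sat φ v ↔ Sat φ w) := by
  induction φ with
  | eq p =>
    refine ⟨p.vars.sup id + 1, fun v w h => ?_⟩
    simp only [Sat]
    have : aeval v p = aeval w p := by
      simp only [aeval_def]
      refine eval₂_congr _ _ _ (fun {i} {c} hi hc => ?_)
      refine h i (Nat.lt_succ_of_le ?_)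
      exact Finset.le_sup (f := id) ((mem_vars_iff_mem_support i).2 ⟨c, mem_support_iff.2 hc, hi⟩)
    rw [this]
  | not φ ih =>
    obtain ⟨N, h⟩ := ih
    exact ⟨N, fun v w hv => not_congr (h v w hv)⟩
  | and φ ψ ih1 ih2 =>
    obtain ⟨N, h⟩ := ih1
    obtain ⟨M, h'⟩ := ih2
    exact ⟨max N M, fun v w hv => and_congr (h v w fun k hk => hv k (lt_max_of_lt_left hk))
      (h' v w fun k hk => hv k (lt_max_of_lt_right hk))⟩
  | ex φ ih =>
    obtain ⟨N, h⟩ := ih
    refine ⟨N, fun v w hv => exists_congr fun a => h _ _ fun k hk => ?_⟩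
    cases k with
    | zero => rfl
    | succ k => exact hv k (by omega)

instance : Countable Fm := by
  have : Countable (MvPolynomial ℕ ℤ) :=
    (AddMonoidAlgebra.coeff_injective (R := ℤ) (M := ℕ →₀ ℕ)).countable
  have : Encodable (MvPolynomial ℕ ℤ) := Encodable.ofCountable _
  let enc : Fm → ℕ := fun φ => Fm.rec (fun p => Nat.pair 0 (Encodable.encode p))
    (fun _ a => Nat.pair 1 a) (fun _ _ a b => Nat.pair 2 (Nat.pair a b)) (fun _ a => Nat.pair 3 a) φ
  refine ⟨enc, fun φ => ?_⟩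
  induction φ with
  | eq p => intro ψ h; cases ψ <;> simp_all [enc]
  | not φ ih =>
    intro ψ h
    cases ψ <;> simp [enc] at h
    rw [ih h]
  | and φ φ' ih ih' =>
    intro ψ h
    cases ψ <;> simp [enc] at h
    rw [ih h.1, ih' h.2]
  | ex φ ih =>
    intro ψ h
    cases ψ <;> simp [enc] at h
    rw [ih h]

/-- interleave parameters (odd places) and variables (even places) -/
def mix {α : Type} (e v : ℕ → α) : ℕ → α := fun k => if k % 2 = 0 then v (k / 2) else e (k / 2)

@[simp] theorem mix_even {α : Type} (e v : ℕ → α) (k : ℕ) : mix e v (2 * k) = v k := by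
  simp [mix]

@[simp] theorem mix_odd {α : Type} (e v : ℕ → α) (k : ℕ) : mix e v (2 * k + 1) = e k := by
  have h1 : (2 * k + 1) % 2 = 1 := by omega
  have h2 : (2 * k + 1) / 2 = k := by omega
  simp [mix, h1, h2]

/-- definable with parameters from `e` -/
def Df (e : ℕ → F) (A : (ℕ → F) → Prop) : Prop := ∃ φ : Fm, ∀ v, A v ↔ Sat φ (mix e v)

variable {e : ℕ → F} {A B : (ℕ → F) → Prop}

theorem Df.congr (h : Df e A) (hB : ∀ v, B v ↔ A v) : Df e B := by
  obtain ⟨φ, hφ⟩ := h
  exact ⟨φ, fun v => (hB v).trans (hφ v)⟩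

theorem Df.not (h : Df e A) : Df e (fun v => ¬ A v) := by
  obtain ⟨φ, hφ⟩ := h
  exact ⟨.not φ, fun v => not_congr (hφ v)⟩

theorem Df.and (h : Df e A) (h' : Df e B) : Df e (fun v => A v ∧ B v) := by
  obtain ⟨φ, hφ⟩ := h
  obtain ⟨ψ, hψ⟩ := h'
  exact ⟨.and φ ψ, fun v => and_congr (hφ v) (hψ v)⟩

theorem Df.imp (h : Df e A) (h' : Df e B) : Df e (fun v => A v → B v) :=
  (h.and h'.not).not.congr fun v => by tauto

theorem Df.or (h : Df e A) (h' : Df e B) : Df e (fun v => A v ∨ B v) :=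
  (h.not.and h'.not).not.congr fun v => by tauto

/-- a function of the assignment given by a polynomial in variables and parameters -/
def Pl (e : ℕ → F) (f : (ℕ → F) → F) : Prop := ∃ p : MvPolynomial ℕ ℤ, ∀ v, f v = aeval (mix e v) p

theorem Pl.var (k : ℕ) : Pl e (fun v => v k) := ⟨X (2 * k), fun v => by simp⟩
theorem Pl.par (k : ℕ) : Pl e (fun _ => e k) := ⟨X (2 * k + 1), fun v => by simp⟩
theorem Pl.int (n : ℤ) : Pl e (fun _ => (n : F)) := ⟨C n, fun v => by simp⟩
theorem Pl.nat (n : ℕ) : Pl e (fun _ => (n : F)) := ⟨C n, fun v => by simp⟩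
theorem Pl.zero : Pl e (fun _ => (0 : F)) := ⟨0, fun v => by simp⟩
theorem Pl.one : Pl e (fun _ => (1 : F)) := ⟨1, fun v => by simp⟩

variable {f g : (ℕ → F) → F}

theorem Pl.add (h : Pl e f) (h' : Pl e g) : Pl e (fun v => f v + g v) := by
  obtain ⟨p, hp⟩ := h
  obtain ⟨q, hq⟩ := h'
  exact ⟨p + q, fun v => by simp [hp, hq]⟩

theorem Pl.sub (h : Pl e f) (h' : Pl e g) : Pl e (fun v => f v - g v) := by
  obtain ⟨p, hp⟩ := h
  obtain ⟨q, hq⟩ := h'
  exact ⟨p - q, fun v => by simp [hp, hq]⟩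

theorem Pl.mul (h : Pl e f) (h' : Pl e g) : Pl e (fun v => f v * g v) := by
  obtain ⟨p, hp⟩ := h
  obtain ⟨q, hq⟩ := h'
  exact ⟨p * q, fun v => by simp [hp, hq]⟩

theorem Pl.pow (h : Pl e f) (n : ℕ) : Pl e (fun v => f v ^ n) := by
  obtain ⟨p, hp⟩ := h
  exact ⟨p ^ n, fun v => by simp [hp]⟩

theorem Pl.sum {ι : Type} (s : Finset ι) {f : ι → (ℕ → F) → F} (h : ∀ i, Pl e (f i)) :
    Pl e (fun v => ∑ i ∈ s, f i v) := by
  choose p hp using h
  exact ⟨∑ i ∈ s, p i, fun v => by simp [hp]⟩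

theorem Pl.poly (p : MvPolynomial ℕ ℤ) {f : ℕ → (ℕ → F) → F} (h : ∀ i, Pl e (f i)) :
    Pl e (fun v => aeval (fun i => f i v) p) := by
  choose q hq using h
  refine ⟨aeval q p, fun v => ?_⟩
  rw [← AlgHom.comp_apply, comp_aeval]
  simp only [hq]

theorem Df.eq0 (h : Pl e f) : Df e (fun v => f v = 0) := by
  obtain ⟨p, hp⟩ := h
  exact ⟨.eq p, fun v => by simp [Sat, hp]⟩

theorem Df.eq (h : Pl e f) (h' : Pl e g) : Df e (fun v => f v = g v) :=
  (Df.eq0 (h.sub h')).congr fun _ => sub_eq_zero.symm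

theorem Df.triv : Df e (fun _ => True) := (Df.eq0 Pl.zero).congr fun v => by simp

theorem Df.sat (φ : Fm) {f : ℕ → (ℕ → F) → F} (h : ∀ i, Pl e (f i)) :
    Df e (fun v => Sat φ (fun i => f i v)) := by
  choose q hq using h
  refine ⟨φ.subst q, fun v => ?_⟩
  rw [sat_subst]
  simp only [hq]

theorem Df.comp (hA : Df e A) {f : ℕ → (ℕ → F) → F} (h : ∀ i, Pl e (f i)) :
    Df e (fun v => A (fun i => f i v)) := by
  obtain ⟨φ, hφ⟩ := hA
  refine (Df.sat φ (f := fun k v => mix e (fun i => f i v) k) fun k => ?_).congr fun v => hφ _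
  by_cases hk : k % 2 = 0
  · simpa [mix, hk] using h (k / 2)
  · simpa [mix, hk] using Pl.par (e := e) (k / 2)

theorem Df.ren (hA : Df e A) (σ : ℕ → ℕ) : Df e (fun v => A (fun i => v (σ i))) :=
  hA.comp fun i => Pl.var (σ i)

theorem Df.ex (hA : Df e A) : Df e (fun v => ∃ a, A (cons a v)) := by
  obtain ⟨φ, hφ⟩ := hA
  let σ : ℕ → ℕ := fun k => if k % 2 = 0 then (if k = 0 then 0 else k - 1) else k + 1
  refine ⟨.ex (φ.subst fun k => X (σ k)), fun v => ?_⟩
  simp only [Sat, sat_subst, aeval_X]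
  refine exists_congr fun a => ?_
  rw [hφ]
  have : mix e (cons a v) = fun k => cons a (mix e v) (σ k) := by
    funext k
    obtain ⟨m, rfl | rfl⟩ := Nat.even_or_odd' k
    · cases m with
      | zero => simp [σ, mix]
      | succ m =>
        have h1 : σ (2 * (m + 1)) = 2 * m + 1 := by
          simp only [σ]
          rw [if_pos (by omega), if_neg (by omega)]
          omega
        rw [h1, mix_even, cons_succ, cons_succ, mix_even]
    · have h1 : σ (2 * m + 1) = 2 * m + 1 + 1 := by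
        simp only [σ]
        rw [if_neg (by omega)]
      rw [h1, mix_odd, cons_succ, mix_odd]
  rw [this]

theorem Df.all (hA : Df e A) : Df e (fun v => ∀ a, A (cons a v)) :=
  hA.not.ex.not.congr fun v => by simp

/-- put `d` new values in front -/
def app {α : Type} (d : ℕ) (a v : ℕ → α) : ℕ → α := fun k => if k < d then a k else v (k - d)

theorem Df.exN (d : ℕ) : ∀ {A : (ℕ → F) → Prop}, Df e A → Df e (fun v => ∃ a, A (app d a v)) := by
  induction d with
  | zero =>
    intro A hA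
    refine hA.congr fun v => ?_
    have : ∀ a, app 0 a v = v := fun a => by funext k; simp [app]
    simp [this]
  | succ d ih =>
    intro A hA
    refine (ih hA.ex).congr fun v => ?_
    have key : ∀ (x : F) (a : ℕ → F), cons x (app d a v) = app (d + 1) (cons x a) v := by
      intro x a
      funext k
      cases k with
      | zero => simp [app]
      | succ k => simp [app]
    constructor
    · rintro ⟨a, ha⟩
      refine ⟨fun k => a (k + 1), a 0, ?_⟩
      rw [key]
      have : cons (a 0) (fun k => a (k + 1)) = a := by funext k; cases k <;> rfl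
      rwa [this]
    · rintro ⟨a, x, ha⟩
      exact ⟨cons x a, key x a ▸ ha⟩

theorem Df.supp (hA : Df e A) : ∃ N : ℕ, ∀ v w, (∀ k < N, v k = w k) → (A v ↔ A w) := by
  obtain ⟨φ, hφ⟩ := hA
  obtain ⟨N, hN⟩ := sat_supp φ
  refine ⟨N, fun v w h => ?_⟩
  rw [hφ, hφ]
  refine hN _ _ fun k hk => ?_
  unfold mix
  split_ifs
  · exact h _ (by omega)
  · rfl

theorem countable_df (e : ℕ → F) : Set.Countable {A | Df e A} := by
  refine (Set.countable_range (fun φ : Fm => fun v => Sat φ (mix e v))).mono ?_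
  rintro A ⟨φ, hφ⟩
  exact ⟨φ, by funext v; exact propext (hφ v).symm⟩

/-- the independence pattern of size `n` -/
def Pat {α : Type} (A : (ℕ → α) → Prop) (X : ℕ → Bool) (n : ℕ) : Prop :=
  ∃ (a : Fin n → ℕ → α) (b : Set (Fin n) → ℕ → α),
    ∀ i S, A (fun k => bif X k then a i k else b S k) ↔ i ∈ S

theorem Df.nip (hF : NIP F) (hA : Df e A) (X : ℕ → Bool) : ∃ n, ¬ Pat A X n := by
  obtain ⟨φ, hφ⟩ := hA
  by_contra hc
  push Not at hc
  refine hF φ (fun k => if k % 2 = 0 then X (k / 2) else true) fun n => ?_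
  obtain ⟨a, b, h⟩ := hc n
  refine ⟨fun i => mix e (a i), fun S => mix e (b S), fun i S => ?_⟩
  rw [← h i S, hφ]
  have : (fun k => bif (if k % 2 = 0 then X (k / 2) else true) then mix e (a i) k
      else mix e (b S) k) = mix e (fun k => bif X k then a i k else b S k) := by
    funext k
    by_cases hk : k % 2 = 0
    · simp [mix, hk]
    · simp [mix, hk]
  rw [this]

theorem Df.definable (hA : Df e A) : Definable {x : F | A (fun _ => x)} := by
  obtain ⟨φ, hφ⟩ := hA
  refine ⟨φ.subst fun k => if k % 2 = 0 then X 0 else X (k / 2 + 1), e, ?_⟩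
  ext x
  simp only [Set.mem_ofPred_eq, sat_subst, hφ]
  have : mix e (fun _ => x) = fun k => aeval (cons x e)
      (if k % 2 = 0 then (X 0 : MvPolynomial ℕ ℤ) else X (k / 2 + 1)) := by
    funext k
    by_cases hk : k % 2 = 0
    · simp [mix, hk]
    · simp [mix, hk]
  rw [this]

end Pool.Agent.MP_96eeb0_lc.H32
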