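import Mathlib

/-! First-order formulas in the language of rings, NIP fields, definable sets. -/

namespace Pool.Agent.MP_96eeb0_lc.H32

/-- Formulas of the language of rings, variables `x_0, x_1, ...`.
`eq p` is `p = 0`; `ex φ` binds the variable `x_0` of `φ` (the others are shifted down). -/
inductive Fm : Type
  | eq : MvPolynomial ℕ ℤ → Fm
  | not : Fm → Fm
  | and : Fm → Fm → Fm
  | ex : Fm → Fm

/-- The assignment `(a, v 0, v 1, ...)`. -/
def cons {α : Type} (a : α) (v : ℕ → α) : ℕ → α
  | 0 => a
  | n + 1 => v n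

/-- Truth of a formula in the field `F` under an assignment of the variables. -/
def Sat {F : Type} [Field F] : Fm → (ℕ → F) → Prop
  | .eq p, v => MvPolynomial.aeval v p = 0
  | .not φ, v => ¬ Sat φ v
  | .and φ ψ, v => Sat φ v ∧ Sat ψ v
  | .ex φ, v => ∃ a : F, Sat φ (cons a v)

/-- `φ(x; y)` has the independence property in `F`; `x` are the variables `k` with `X k = true`,
`y` the other ones. -/
def IP (F : Type) [Field F] (φ : Fm) (X : ℕ → Bool) : Prop :=
  ∀ n : ℕ, ∃ (a : Fin n → ℕ → F) (b : Set (Fin n) → ℕ → F),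
    ∀ i S, Sat φ (fun k => bif X k then a i k else b S k) ↔ i ∈ S

/-- No formula has the independence property in `F`. -/
def NIP (F : Type) [Field F] : Prop := ∀ φ X, ¬ IP F φ X

/-- `D ⊆ F` is definable with parameters. -/
def Definable {F : Type} [Field F] (D : Set F) : Prop :=
  ∃ (φ : Fm) (b : ℕ → F), D = {x | Sat φ (cons x b)}

/-- `D ⊆ K` is Borel for the order topology of the subfield `K` of the reals. -/
def BorelIn (K : Subfield ℝ) (D : Set K) : Prop :=
  @MeasurableSet K (@borel K (Preorder.topology K)) D

end Pool.Agent.MP_96eeb0_lc.H32
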