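import Pool.Agent.MP_96eeb0_lc.H32.Cl

/-! Finite extensions of NIP fields are NIP. -/

namespace Pool.Agent.MP_96eeb0_lc.H32
open MvPolynomial

theorem Df.forall_fin {F : Type} [Field F] {e : ℕ → F} {ι : Type} (s : Finset ι)
    {A : ι → (ℕ → F) → Prop} (h : ∀ i, Df e (A i)) : Df e (fun v => ∀ i ∈ s, A i v) := by
  classical
  induction s using Finset.induction_on with
  | empty => exact Df.triv.congr fun v => by simp
  | insert a s _ ih => exact ((h a).and ih).congr fun v => by simp

theorem nip_ext {K L : Type} [Field K] [Field L] [Algebra K L] [FiniteDimensional K L]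
    (hK : NIP K) : NIP L := by
  set d := Module.finrank K L
  let b := Module.finBasis K L
  let C : (Fin d × Fin d × Fin d) ⊕ Fin d → K :=
    Sum.elim (fun t => b.repr (b t.1 * b t.2.1) t.2.2) (fun k => b.repr 1 k)
  let e : ℕ → K := fun n => ((Encodable.decode n).map C).getD 0
  have he : ∀ t, Pl e (fun _ => C t) := fun t => by
    have := Pl.par (e := e) (Encodable.encode t)
    simp only [e, Encodable.encodek, Option.map_some, Option.getD_some] at this
    exact this
  let T : (ℕ → K) → ℕ → L := fun w i => ∑ k : Fin d, w (Nat.pair i k) • b k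
  have hP : ∀ (p : MvPolynomial ℕ ℤ) k, Pl e (fun w => b.repr (aeval (T w) p) k) := fun p => by
    induction p using MvPolynomial.induction_on with
    | C a =>
      intro k
      have : ∀ w, b.repr (aeval (T w) (MvPolynomial.C a : MvPolynomial ℕ ℤ)) k
          = (a : K) * C (.inr k) := fun w => by
        have h1 : aeval (T w) (MvPolynomial.C a : MvPolynomial ℕ ℤ) = (a : K) • (1 : L) := by
          simp [Algebra.smul_def]
        rw [h1]
        simp [C]
      simp only [this]
      exact (Pl.int a).mul (he _)
    | add p q hp hq => intro k; simpa using (hp k).add (hq k)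
    | mul_X p i hp =>
      intro k
      have : ∀ w, b.repr (aeval (T w) (p * X i)) k = ∑ s : Fin d, ∑ t : Fin d,
          b.repr (aeval (T w) p) s * w (Nat.pair i t) * C (.inl (s, t, k)) := fun w => by
        rw [map_mul, aeval_X]
        conv_lhs => rw [← b.sum_repr (aeval (T w) p)]
        simp only [T, C, Finset.sum_mul_sum, smul_mul_smul_comm, map_sum, map_smul,
          Finsupp.finsetSum_apply, Finsupp.smul_apply, smul_eq_mul, Sum.elim_inl]
        rfl
      simp only [this]
      exact Pl.sum _ fun s => Pl.sum _ fun t => ((hp s).mul (Pl.var _)).mul (he _)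
  have hD : ∀ φ : Fm, Df e (fun w => Sat φ (T w)) := fun φ => by
    induction φ with
    | eq p =>
      refine (Df.forall_fin Finset.univ fun k => Df.eq0 (hP p k)).congr fun w => ?_
      simp only [Sat, Finset.mem_univ, true_imp_iff]
      exact ⟨fun h k => by simp [h], fun h => b.ext_elem fun k => by simpa using h k⟩
    | not φ ih => exact ih.not
    | and φ ψ ih1 ih2 => exact ih1.and ih2
    | ex φ ih =>
      let σ : ℕ → ℕ := fun n => if n.unpair.1 = 0 then n.unpair.2
        else Nat.pair (n.unpair.1 - 1) n.unpair.2 + d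
      refine ((ih.ren σ).exN d).congr fun w => ?_
      have key : ∀ u, T (fun n => app d u w (σ n)) = cons (∑ k : Fin d, u k • b k) (T w) := by
        intro u
        funext i
        cases i with
        | zero => simp [T, σ, app]
        | succ i => simp [T, σ, app]
      simp only [key, Sat]
      refine ⟨fun ⟨a, ha⟩ => ⟨fun k => if h : k < d then b.repr a ⟨k, h⟩ else 0, ?_⟩,
        fun ⟨u, hu⟩ => ⟨_, hu⟩⟩
      simpa using ha
  intro φ X hI
  obtain ⟨n, hn⟩ := (hD φ).nip hK (fun m => X m.unpair.1)
  obtain ⟨x, y, h⟩ := hI n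
  let R : (ℕ → L) → ℕ → K := fun v m =>
    if h : m.unpair.2 < d then b.repr (v m.unpair.1) ⟨_, h⟩ else 0
  refine hn ⟨fun i => R (x i), fun S => R (y S), fun i S => ?_⟩
  rw [← h i S]
  refine iff_of_eq (congrArg _ (funext fun j => ?_))
  cases hj : X j <;> simp [T, R, hj]

end Pool.Agent.MP_96eeb0_lc.H32
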