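import Mathlib

/-! A subfield of the reals that is not relatively algebraically closed has a finite extension
with a positive non-`p`-th power or a non-`p`-th power on the unit circle. -/

namespace Pool.Agent.MP_96eeb0_lc.H32
open Finset

theorem eigen {K A : Type} [Field K] [Field A] [Algebra K A] [CharZero A]
    [Algebra.IsAlgebraic K A] (hz : ∀ p, 0 < p → ∃ η : A, IsPrimitiveRoot η p)
    {h : A ≃ₐ[K] A} (h1 : h ≠ 1) :
    ∃ (p m : ℕ) (β ω : A), p.Prime ∧ β ≠ 0 ∧ ω ≠ 1 ∧ ω ^ p = 1 ∧ (h ^ m) β = ω * β ∧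
      ∀ ζ : A, ζ ^ p = 1 → (h ^ m) ζ = ζ := by
  obtain ⟨θ, hθ⟩ : ∃ θ, h θ ≠ θ := by
    by_contra hc
    push Not at hc
    exact h1 (AlgEquiv.ext hc)
  have hint := (Algebra.IsAlgebraic.isAlgebraic (R := K) θ).isIntegral
  obtain ⟨a, b, hab, he⟩ := (Polynomial.rootSet_finite (minpoly K θ) A).exists_lt_map_eq_of_forall_mem
    (f := fun n : ℕ => (h ^ n) θ) (fun n => by
      rw [Polynomial.mem_rootSet_of_ne (minpoly.ne_zero hint), Polynomial.aeval_algHom_apply,
        minpoly.aeval, map_zero])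
  have hper : ∀ k, (h ^ k) θ = θ ↔ MulAction.period h θ ∣ k := fun k =>
    MulAction.pow_smul_eq_iff_period_dvd (m := h) (a := θ)
  set n := MulAction.period h θ
  have hn0 : n ≠ 0 := fun h0 => by
    have : (h ^ (b - a)) θ = θ := by
      apply (h ^ a).injective
      rw [← AlgEquiv.mul_apply, ← pow_add, add_tsub_cancel_of_le hab.le]
      exact he.symm
    rw [hper, h0, zero_dvd_iff] at this
    omega
  have hn1 : n ≠ 1 := fun h0 => hθ (by simpa using (hper 1).2 (h0 ▸ dvd_rfl))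
  obtain ⟨p, hp, m, hm⟩ := Nat.exists_prime_and_dvd hn1
  have hm0 : 0 < m := Nat.pos_of_ne_zero fun h0 => hn0 (by simp [hm, h0])
  set τ := h ^ (m * (p - 1)) with hτ
  have hτp : (τ ^ p) θ = θ := by
    rw [hτ, ← pow_mul, hper, hm]
    exact ⟨p - 1, by ring⟩
  have hτθ : τ θ ≠ θ := by
    rw [hτ, Ne, hper, hm, mul_comm p m, Nat.mul_dvd_mul_iff_left hm0]
    have := hp.two_le
    exact fun hd => absurd (Nat.le_of_dvd (by omega) hd) (by omega)
  have hfix : ∀ ζ : A, ζ ^ p = 1 → τ ζ = ζ := by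
    intro ζ hζ
    by_cases h1 : ζ = 1
    · simp [h1]
    have : NeZero p := ⟨hp.ne_zero⟩
    have : Fact p.Prime := ⟨hp⟩
    have hprim : IsPrimitiveRoot ζ p := by
      have := orderOf_eq_prime hζ h1
      exact this ▸ IsPrimitiveRoot.orderOf ζ
    obtain ⟨a, -, ha⟩ := hprim.eq_pow_of_pow_eq_one (ξ := (h ^ m) ζ) (by rw [← map_pow, hζ, map_one])
    have hk : ∀ k, ((h ^ m) ^ k) ζ = ζ ^ a ^ k := fun k => by
      induction k with
      | zero => simp
      | succ k ih => rw [pow_succ', AlgEquiv.mul_apply, ih, map_pow, ← ha, ← pow_mul, pow_succ']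
    have hnd : ¬ p ∣ a := fun hd => h1 ((h ^ m).injective (by
      rw [← ha, map_one]; exact (hprim.pow_eq_one_iff_dvd a).2 hd))
    have hmod : a ^ (p - 1) ≡ 1 [MOD p] := by
      rw [← Nat.totient_prime hp]
      exact Nat.ModEq.pow_totient ((hp.coprime_iff_not_dvd.2 hnd).symm)
    rw [hτ, pow_mul, hk, pow_eq_pow_of_modEq hmod hζ, pow_one]
  obtain ⟨η, hη⟩ := hz p hp.pos
  let β : ℕ → A := fun j => ∑ k ∈ range p, (η ^ j) ^ k * (τ ^ k) θ
  have hβ : ∀ j, η ^ j * τ (β j) = β j := fun j => by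
    have e1 : (η ^ j) ^ p = 1 := by rw [← pow_mul, mul_comm, pow_mul, hη.pow_eq_one, one_pow]
    have e2 : η ^ j * τ (β j) = ∑ k ∈ range p, (η ^ j) ^ (k + 1) * (τ ^ (k + 1)) θ := by
      simp only [β, map_sum, mul_sum, map_mul, map_pow, hfix η hη.pow_eq_one]
      refine sum_congr rfl fun k _ => ?_
      rw [pow_succ' τ, AlgEquiv.mul_apply]
      ring
    have e3 := sum_range_succ (fun k => (η ^ j) ^ k * (τ ^ k) θ) p
    rw [sum_range_succ', e1, hτp] at e3
    rw [e2]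
    simpa [β] using e3
  have hsum : ∑ j ∈ range p, β j = p * θ := by
    simp only [β]
    rw [sum_comm, sum_eq_single 0]
    · simp
    · intro k hk hk0
      rw [← sum_mul]
      have h2 : IsPrimitiveRoot (η ^ k) p := hη.pow_of_coprime k
        ((Nat.coprime_of_lt_prime hk0 (mem_range.1 hk) hp).symm)
      have h3 := h2.geom_sum_eq_zero hp.one_lt
      simp only [← pow_mul] at h3 ⊢
      simp only [mul_comm _ k, h3, zero_mul]
    · intro h0
      exact absurd (mem_range.2 hp.pos) h0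
  obtain ⟨j, hj, hj0, hj1⟩ : ∃ j ∈ range p, j ≠ 0 ∧ β j ≠ 0 := by
    by_contra hc
    push Not at hc
    rw [sum_eq_single 0 hc (fun h0 => absurd (mem_range.2 hp.pos) h0)] at hsum
    have h2 := hβ 0
    rw [hsum, pow_zero, one_mul, map_mul, map_natCast] at h2
    exact hτθ (mul_left_cancel₀ (Nat.cast_ne_zero.2 hp.ne_zero) h2)
  have hη0 : η ^ j ≠ 0 := pow_ne_zero _ (hη.ne_zero hp.ne_zero)
  refine ⟨p, m * (p - 1), β j, (η ^ j)⁻¹, hp, hj1, fun h0 => ?_, ?_, ?_, hfix⟩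
  · exact hη.pow_ne_one_of_pos_of_lt hj0 (mem_range.1 hj) (inv_eq_one.1 h0)
  · rw [inv_pow, ← pow_mul, mul_comm, pow_mul, hη.pow_eq_one, one_pow, inv_one]
  · rw [eq_inv_mul_iff_mul_eq₀ hη0]
    exact hβ j

/-- the alternative produced by the Galois argument -/
def Alt (L : Set ℝ) (p : ℕ) : Prop :=
  (∃ a ∈ L, 0 < a ∧ ∀ y ∈ L, y ^ p ≠ a) ∨
    (Odd p ∧ ∃ z : ℂ, z.re ∈ L ∧ z.im ∈ L ∧ ‖z‖ = 1 ∧ ∀ w : ℂ, w.re ∈ L → w.im ∈ L → w ^ p ≠ z)

theorem galois_lemma (K : Subfield ℝ) {α : ℝ} (hα : α ∉ K) (halg : IsAlgebraic K α) :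
    ∃ L : IntermediateField K ℝ, FiniteDimensional K L ∧ ∃ p : ℕ, 0 < p ∧ Alt L p := by
  let A := algebraicClosure K ℂ
  let ι : ℝ →ₐ[K] ℂ := Complex.ofRealAm.restrictScalars K
  let c : A ≃ₐ[K] A := (Complex.conjAe.restrictScalars K).algebraicClosure
  have hc : ∀ x : A, (c x : ℂ) = (starRingEnd ℂ) x := fun x => rfl
  have hroot : ∀ (z : ℂ) (n : ℕ), 0 < n → z ^ n = 1 → z ∈ A := fun z n hn hz =>
    mem_algebraicClosure_iff.2 (IsAlgebraic.of_pow hn (hz ▸ isAlgebraic_one))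
  let i : A := ⟨Complex.I, hroot _ 4 (by norm_num) Complex.I_pow_four⟩
  let a : A := ⟨α, mem_algebraicClosure_iff.2 (halg.algHom ι)⟩
  have hci : c i = -i := Subtype.ext (by simp [hc, i])
  have hca : c a = a := Subtype.ext (by simp [hc, a])
  have hcc : c * c = 1 := AlgEquiv.ext fun x => Subtype.ext (by simp [hc])
  have hii : i ^ 2 = -1 := Subtype.ext (by simp [i])
  have hgi : ∀ g : A ≃ₐ[K] A, g i = i ∨ g i = -i := fun g =>
    sq_eq_sq_iff_eq_or_eq_neg.1 (by rw [← map_pow, hii, map_neg, map_one])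
  have hi0 : i ≠ 0 := fun h => by simp [h] at hii
  have : IsGalois K A := IsAlgClosure.isGalois K A
  obtain ⟨g, hg⟩ : ∃ g : A ≃ₐ[K] A, g a ≠ a := by
    by_contra h
    push Not at h
    obtain ⟨k, hk⟩ := (InfiniteGalois.mem_range_algebraMap_iff_fixed a).2 h
    have h1 : ((k : ℝ) : ℂ) = α := congrArg Subtype.val hk
    exact hα (Complex.ofReal_injective h1 ▸ k.2)
  obtain ⟨h, h1, hhi, hsc⟩ : ∃ h : A ≃ₐ[K] A, h ≠ 1 ∧ h i = i ∧
      (SemiconjBy c h h ∨ SemiconjBy c h h⁻¹) := by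
    by_cases hall : ∀ g : A ≃ₐ[K] A, c * g = g * c
    · rcases hgi g with h | h
      · exact ⟨g, fun h' => hg (by simp [h']), h, Or.inl (hall g)⟩
      · refine ⟨g * c, fun h' => hg ?_, by simp [hci, h], Or.inl (hall _)⟩
        simpa [hca] using congrArg (fun f : A ≃ₐ[K] A => f a) h'
    · push Not at hall
      obtain ⟨g, hg⟩ := hall
      have hci' : c⁻¹ = c := inv_eq_of_mul_eq_one_right hcc
      refine ⟨g * c * g⁻¹ * c, fun h' => hg ?_, ?_, Or.inr ?_⟩
      · have : g * c * g⁻¹ = c := (eq_inv_of_mul_eq_one_left h').trans hci'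
        exact (mul_inv_eq_iff_eq_mul.1 this).symm
      · have k1 : g (g⁻¹ i) = i := by simp
        simp only [AlgEquiv.mul_apply]
        rcases hgi g⁻¹ with h | h
        · rw [h] at k1
          simp only [hci, h, k1, map_neg, neg_neg]
        · rw [h, map_neg, neg_eq_iff_eq_neg] at k1
          simp only [hci, h, k1, map_neg, neg_neg]
      · simp only [SemiconjBy, mul_inv_rev, hci', inv_inv, mul_assoc]
  obtain ⟨p, m, β, ω, hp, hβ, hω, hωp, hτβ, hfix⟩ := eigen (fun p hp =>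
    ⟨⟨_, hroot _ p hp (Complex.isPrimitiveRoot_exp p hp.ne').pow_eq_one⟩,
      (Complex.isPrimitiveRoot_exp p hp.ne').of_map_of_injective (f := A.val)
        Subtype.val_injective⟩) h1
  set τ := h ^ m
  have hτi : τ i = i := by simpa [τ] using Function.iterate_fixed hhi m
  have hsc' : c * τ = τ * c ∨ c * τ = τ⁻¹ * c :=
    hsc.imp (fun h => h.pow_right m) (fun h => by simpa using (h.pow_right m).eq)
  have hω0 : ω ≠ 0 := fun h => by simp [h, hp.ne_zero] at hωp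
  have hcω : c ω = ω⁻¹ := Subtype.ext (by
    have h2 : (ω : ℂ) ^ p = 1 := by exact_mod_cast congrArg Subtype.val hωp
    rw [hc]
    exact (Complex.inv_eq_conj (Complex.norm_eq_one_of_pow_eq_one h2 hp.ne_zero)).symm)
  have hcβ : c β ≠ 0 := by simpa using hβ
  have hτcβ : (c * τ = τ * c ∧ τ (c β) = ω⁻¹ * c β) ∨ τ (c β) = ω * c β := by
    rcases hsc' with h | h
    · refine Or.inl ⟨h, ?_⟩
      rw [← AlgEquiv.mul_apply, ← h, AlgEquiv.mul_apply, hτβ, map_mul, hcω]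
    · right
      have h2 : c (τ β) = τ⁻¹ (c β) := congrArg (fun f : A ≃ₐ[K] A => f β) h
      have h3 := congrArg τ h2
      rw [hτβ, map_mul, hcω, map_mul, map_inv₀, hfix ω hωp] at h3
      rw [← inv_mul_eq_iff_eq_mul₀ hω0, h3]
      simp
  let Fx : IntermediateField K ℝ :=
    ((IntermediateField.fixedField (Subgroup.zpowers τ)).map A.val).comap ι
  have hFx : ∀ x : ℝ, x ∈ Fx ↔ ∃ y : A, τ y = y ∧ (y : ℂ) = x := fun x => by
    refine exists_congr fun y => and_congr_left fun _ => ?_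
    refine ⟨fun h => h ⟨τ, Subgroup.mem_zpowers τ⟩, fun h g => ?_⟩
    exact (Subgroup.zpowers_le.2 (show τ ∈ MulAction.stabilizer _ y from h)) g.2
  have hint : ∀ x ∈ Fx, IsIntegral K x := fun x hx => by
    obtain ⟨y, -, hy⟩ := (hFx x).1 hx
    refine (isIntegral_algHom_iff ι Complex.ofReal_injective).1 ?_
    exact (show (y : ℂ) = ι x from hy) ▸ mem_algebraicClosure_iff'.1 y.2
  -- real eigenvectors
  have hreal : ∀ (ρ ω' : A), ρ ≠ 0 → c ρ = ρ → ω' ≠ 1 → ω' ^ p = 1 → τ ρ = ω' * ρ →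
      ∃ L : IntermediateField K ℝ, FiniteDimensional K L ∧ ∃ p : ℕ, 0 < p ∧ Alt L p := by
    intro ρ ω' h0 h2 h3 h4 h5
    obtain ⟨r, hr, σ, hσ, hτσ⟩ : ∃ r : ℝ, 0 < r ∧ ∃ σ : A, (σ : ℂ) = r ∧ τ σ = ω' * σ := by
      have h6 : ((ρ : ℂ).re : ℂ) = ρ := Complex.conj_eq_iff_re.1 (congrArg Subtype.val h2)
      have h7 : (ρ : ℂ).re ≠ 0 := fun h => h0 (Subtype.ext (by rw [← h6, h]; simp))
      rcases lt_or_gt_of_ne h7 with h | h
      · exact ⟨-(ρ : ℂ).re, by linarith, -ρ, by simp [h6], by simp [h5]⟩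
      · exact ⟨_, h, ρ, h6.symm, h5⟩
    have hmem : r ^ p ∈ Fx := (hFx _).2 ⟨σ ^ p, by rw [map_pow, hτσ, mul_pow, h4, one_mul], by
      simp [hσ]⟩
    refine ⟨IntermediateField.adjoin K {r ^ p}, IntermediateField.adjoin.finiteDimensional
      (hint _ hmem), p, hp.pos, Or.inl ⟨r ^ p, IntermediateField.mem_adjoin_simple_self _ _,
        by positivity, fun y hy hyp => ?_⟩⟩
    obtain ⟨y', hy1, hy2⟩ := (hFx y).1 (IntermediateField.adjoin_simple_le_iff.2 hmem hy)
    have h8 : |y| = r := (pow_left_inj₀ (abs_nonneg y) hr.le hp.ne_zero).1 (by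
      rw [← abs_pow, hyp, abs_of_pos (by positivity)])
    have hσ0 : σ ≠ 0 := fun h => hr.ne' (by simpa [h] using hσ.symm)
    have h9 : τ σ = σ := by
      rcases abs_eq hr.le |>.1 h8 with h | h
      · have : σ = y' := Subtype.ext (by rw [hσ, hy2, h])
        rw [this, hy1]
      · have : σ = -y' := Subtype.ext (by simp [hσ, hy2, h])
        rw [this, map_neg, hy1]
    exact h3 (mul_right_cancel₀ hσ0 (by rw [← hτσ, h9, one_mul]))
  have hccβ : c (c β) = β := congrArg (fun f : A ≃ₐ[K] A => f β) hcc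
  rcases hp.eq_two_or_odd' with rfl | hodd
  · have hω1 : ω = -1 := (sq_eq_one_iff.1 hωp).resolve_left hω
    have h2 : τ (c β) = -c β := by
      rcases hτcβ with h | h
      · simpa [hω1] using h.2
      · simpa [hω1] using h
    by_cases h3 : β + c β = 0
    · refine hreal (i * (β - c β)) ω (mul_ne_zero hi0 fun h => hβ ?_) ?_ hω hωp ?_
      · linear_combination (h + h3) / 2
      · rw [map_mul, map_sub, hci, hccβ]; ring
      · rw [map_mul, map_sub, hτi, h2, hτβ, hω1]; ring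
    · refine hreal (β + c β) ω h3 ?_ hω hωp ?_
      · rw [map_add, hccβ]; ring
      · rw [map_add, h2, hτβ, hω1]; ring
  have hω2 : ω ^ 2 ≠ 1 := fun h => hω (by
    obtain ⟨k, rfl⟩ := hodd
    rwa [pow_succ, pow_mul, h, one_pow, one_mul] at hωp)
  have hω2p : (ω ^ 2) ^ p = 1 := by rw [← pow_mul, mul_comm, pow_mul, hωp, one_pow]
  rcases hτcβ with ⟨hcom, h2⟩ | h2
  swap
  · refine hreal (β * c β) (ω ^ 2) (mul_ne_zero hβ hcβ) ?_ hω2 hω2p ?_
    · rw [map_mul, hccβ]; ring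
    · rw [map_mul, h2, hτβ]; ring
  set u : A := β / c β with hu
  have hu0 : u ≠ 0 := div_ne_zero hβ hcβ
  have hτu : τ u = ω ^ 2 * u := by
    rw [hu, map_div₀, h2, hτβ]
    field_simp
  have hz : τ (u ^ p) = u ^ p := by rw [map_pow, hτu, mul_pow, hω2p, one_mul]
  have hcz : τ (c (u ^ p)) = c (u ^ p) := by
    rw [← AlgEquiv.mul_apply, ← hcom, AlgEquiv.mul_apply, hz]
  set z : A := u ^ p with hzdef
  have hre : (z : ℂ).re ∈ Fx := (hFx _).2 ⟨(z + c z) / 2, by
    rw [map_div₀, map_add, hz, hcz, map_ofNat], by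
    rw [Complex.re_eq_add_conj, ← hc]; rfl⟩
  have him : (z : ℂ).im ∈ Fx := (hFx _).2 ⟨(z - c z) / (2 * i), by
    rw [map_div₀, map_sub, hz, hcz, map_mul, map_ofNat, hτi], by
    rw [Complex.im_eq_sub_conj, ← hc]; rfl⟩
  have hle : IntermediateField.adjoin K {(z : ℂ).re, (z : ℂ).im} ≤ Fx :=
    IntermediateField.adjoin_le_iff.2 (Set.insert_subset hre (Set.singleton_subset_iff.2 him))
  refine ⟨IntermediateField.adjoin K {(z : ℂ).re, (z : ℂ).im},
    IntermediateField.finiteDimensional_adjoin_pair (hint _ hre) (hint _ him), p, hp.pos,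
    Or.inr ⟨hodd, z, IntermediateField.subset_adjoin _ _ (by simp),
      IntermediateField.subset_adjoin _ _ (by simp), ?_, fun w h3 h4 h5 => ?_⟩⟩
  · have h3 : (z : ℂ) = ((β : ℂ) / (starRingEnd ℂ) β) ^ p := by rw [← hc]; simp [hzdef, hu]
    have h4 : ‖(β : ℂ)‖ ≠ 0 := by simpa using hβ
    rw [h3, norm_pow, norm_div, Complex.norm_conj, div_self h4, one_pow]
  · obtain ⟨x, hx1, hx2⟩ := (hFx _).1 (hle h3)
    obtain ⟨y, hy1, hy2⟩ := (hFx _).1 (hle h4)
    have h6 : ((x + y * i : A) : ℂ) = w := by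
      rw [← Complex.re_add_im w, ← hx2, ← hy2]; rfl
    have h7 : (x + y * i) ^ p = u ^ p := Subtype.ext (by rw [← hzdef, ← h5, ← h6]; simp)
    have h8 := hfix ((x + y * i) / u) (by rw [div_pow, h7, div_self (pow_ne_zero _ hu0)])
    have h9 : x + y * i ≠ 0 := fun h => pow_ne_zero p hu0 (by rw [← h7, h, zero_pow hp.ne_zero])
    rw [map_div₀, map_add, map_mul, hx1, hy1, hτi, hτu, div_eq_div_iff (by simp [hω0, hu0]) hu0,
      mul_right_inj' h9] at h8
    exact hω2 (mul_right_cancel₀ hu0 (by rw [← h8, one_mul]))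

end Pool.Agent.MP_96eeb0_lc.H32
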