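import Pool.Agent.MP_96eeb0_lc.H32.Baire

/-! Archimedean elementary extensions through a generic real. -/

namespace Pool.Agent.MP_96eeb0_lc.H32
open Set Filter Topology MvPolynomial

/-- truth with real assignments and quantifiers ranging over `S` -/
def SatR (S : Set ℝ) : Fm → (ℕ → ℝ) → Prop
  | .eq p, v => aeval v p = 0
  | .not φ, v => ¬ SatR S φ v
  | .and φ ψ, v => SatR S φ v ∧ SatR S ψ v
  | .ex φ, v => ∃ a ∈ S, SatR S φ (cons a v)

theorem coe_aeval (K : Subfield ℝ) (v : ℕ → K) (p : MvPolynomial ℕ ℤ) :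
    ((aeval v p : K) : ℝ) = aeval (fun k => (v k : ℝ)) p := by
  induction p using MvPolynomial.induction_on with
  | C a => simp
  | add p q hp hq => simp [hp, hq]
  | mul_X p i hp => simp [hp]

theorem sat_iff (K : Subfield ℝ) (φ : Fm) : ∀ v : ℕ → K,
    Sat φ v ↔ SatR K φ (fun k => v k) := by
  induction φ with
  | eq p => intro v; simp only [Sat, SatR, ← coe_aeval]; exact_mod_cast Iff.rfl
  | not φ ih => intro v; simp only [Sat, SatR, ih]
  | and φ ψ ih1 ih2 => intro v; simp only [Sat, SatR, ih1, ih2]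
  | ex φ ih =>
    intro v
    simp only [Sat, SatR, ih, cons_comp (fun x : K => (x : ℝ))]
    exact ⟨fun ⟨a, h⟩ => ⟨a, a.2, h⟩, fun ⟨a, ha, h⟩ => ⟨⟨a, ha⟩, h⟩⟩

def PatR (S : Set ℝ) (φ : Fm) (X : ℕ → Bool) (n : ℕ) : Prop :=
  ∃ (a : Fin n → ℕ → ℝ) (b : Set (Fin n) → ℕ → ℝ), (∀ i k, a i k ∈ S) ∧ (∀ T k, b T k ∈ S) ∧
    ∀ i T, SatR S φ (fun k => bif X k then a i k else b T k) ↔ i ∈ T

theorem pat_iff (K : Subfield ℝ) (φ : Fm) (X : ℕ → Bool) (n : ℕ) :
    Pat (Sat (F := K) φ) X n ↔ PatR K φ X n := by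
  constructor
  · rintro ⟨a, b, h⟩
    refine ⟨fun i k => a i k, fun T k => b T k, fun i k => (a i k).2, fun T k => (b T k).2,
      fun i T => ?_⟩
    rw [← h i T, sat_iff]
    refine iff_of_eq (congrArg _ (funext fun k => ?_))
    cases X k <;> rfl
  · rintro ⟨a, b, ha, hb, h⟩
    refine ⟨fun i k => ⟨a i k, ha i k⟩, fun T k => ⟨b T k, hb T k⟩, fun i T => ?_⟩
    rw [← h i T, sat_iff]
    refine iff_of_eq (congrArg _ (funext fun k => ?_))
    cases X k <;> rfl

theorem nip_iff (K : Subfield ℝ) : NIP K ↔ ∀ φ X, ∃ n, ¬ PatR K φ X n := by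
  simp only [NIP, IP, not_forall, ← pat_iff, Pat]

variable {K : Subfield ℝ}

theorem henkin_step {e : ℕ → K} {A B : (ℕ → K) → Prop} (hA : Df e A) (hB : Df e B) :
    ∃ j, pr A ⊆ pr fun v => A v ∧ ((∃ a, B (cons a v)) → B (cons (v j) v)) := by
  classical
  obtain ⟨N, hN⟩ := hA.supp
  obtain ⟨M, hM⟩ := hB.supp
  refine ⟨max N M + 1, ?_⟩
  rintro _ ⟨v, hv, rfl⟩
  obtain ⟨a, ha⟩ : ∃ a, (∃ a, B (cons a v)) → B (cons a v) := by
    by_cases h : ∃ a, B (cons a v)
    · exact h.imp fun a ha _ => ha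
    · exact ⟨0, fun h' => absurd h' h⟩
  have h1 : ∀ k, k < max N M + 1 → Function.update v (max N M + 1) a k = v k := fun k hk =>
    Function.update_of_ne hk.ne _ _
  have h2 : ∀ x, B (cons x (Function.update v (max N M + 1) a)) ↔ B (cons x v) := fun x =>
    hM _ _ fun k hk => by
      cases k with
      | zero => rfl
      | succ k => exact h1 k (by omega)
  refine ⟨Function.update v (max N M + 1) a, ⟨(hN _ _ fun k hk => h1 k (by omega)).2 hv, ?_⟩,
    by rw [h1 0 (by omega)]⟩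
  simp only [h2, Function.update_self]
  exact ha

theorem generic_seq {e : ℕ → K} (he : OrdDf e) {r : ℝ}
    (hr : ∀ A, Df e A → ∀ j, r ∈ closure (pr A) →
      ∃ n : ℕ, r ∈ closure (pr fun v => A v ∧ v j ^ 2 ≤ n)) :
    ∃ v : ℕ → ℕ → K, Tendsto (fun n => (v n 0 : ℝ)) atTop (𝓝 r) ∧
      (∀ j, ∃ C : ℕ, ∀ᶠ n in atTop, v n j ^ 2 ≤ C) ∧
      ∀ B, Df e B → ∃ j, ∀ᶠ n in atTop, (∃ a, B (cons a (v n))) → B (cons (v n j) (v n)) := by
  let G := {A : (ℕ → K) → Prop // Df e A ∧ r ∈ closure (pr A)}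
  have : Countable {B // Df e B} := (countable_df e).to_subtype
  let Done : {B // Df e B} ⊕ ℕ → ((ℕ → K) → Prop) → Prop := Sum.elim
    (fun B A => ∃ j, ∀ v, A v → (∃ a, B.1 (cons a v)) → B.1 (cons (v j) v))
    (fun j A => ∃ C : ℕ, ∀ v, A v → v j ^ 2 ≤ C)
  have step : ∀ (A : G) t, ∃ A' : G, (∀ v, A'.1 v → A.1 v) ∧ Done t A'.1 := by
    rintro ⟨A, hA, hrA⟩ (⟨B, hB⟩ | j)
    · obtain ⟨j, hj⟩ := henkin_step hA hB
      refine ⟨⟨_, hA.and (hB.ex.imp ((hB.ren (cons j id)).congr fun v => ?_)),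
        closure_mono hj hrA⟩, fun v hv => hv.1, j, fun v hv => hv.2⟩
      rw [cons_comp v]
      rfl
    · obtain ⟨n, hn⟩ := hr A hA j hrA
      exact ⟨⟨_, hA.and (he.le ((Pl.var j).pow 2) (Pl.nat n)), hn⟩, fun v hv => hv.1, n,
        fun v hv => hv.2⟩
  choose f hf1 hf2 using step
  obtain ⟨τ, hτ⟩ := exists_surjective_nat ({B // Df e B} ⊕ ℕ)
  have h0 : r ∈ closure (pr fun _ : ℕ → K => True) :=
    closure_mono (by
      rintro _ ⟨q, rfl⟩
      exact ⟨fun _ => (q : K), trivial, by simp⟩) (Rat.denseRange_cast (𝕜 := ℝ) r)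
  let A : ℕ → G := fun n => Nat.rec ⟨_, Df.triv, h0⟩ (fun n A => f A (τ n)) n
  have hA : ∀ m n, m ≤ n → ∀ v, (A n).1 v → (A m).1 v := by
    intro m n hmn
    induction hmn with
    | refl => exact fun _ h => h
    | step _ ih => exact fun v h => ih v (hf1 _ _ v h)
  have hv : ∀ n : ℕ, ∃ v, (A n).1 v ∧ dist (v 0 : ℝ) r < 1 / ((n : ℝ) + 1) := fun n => by
    obtain ⟨_, ⟨v, h1, rfl⟩, h2⟩ := Metric.mem_closure_iff.1 (A n).2.2 (1 / ((n : ℝ) + 1))
      (by positivity)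
    exact ⟨v, h1, by rwa [dist_comm]⟩
  choose v hv1 hv2 using hv
  have hD : ∀ t, ∃ m, Done t (A m).1 := fun t => by
    obtain ⟨m, rfl⟩ := hτ t
    exact ⟨m + 1, hf2 _ _⟩
  refine ⟨v, tendsto_iff_dist_tendsto_zero.2 (squeeze_zero (fun _ => dist_nonneg)
    (fun n => (hv2 n).le) tendsto_one_div_add_atTop_nhds_zero_nat), fun j => ?_, fun B hB => ?_⟩
  · obtain ⟨m, C, h⟩ := hD (.inr j)
    exact ⟨C, (eventually_ge_atTop m).mono fun n hn => h _ (hA m n hn _ (hv1 n))⟩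
  · obtain ⟨m, j, h⟩ := hD (.inl ⟨B, hB⟩)
    exact ⟨j, (eventually_ge_atTop m).mono fun n hn => h _ (hA m n hn _ (hv1 n))⟩

theorem limit_field {e : ℕ → K} (v : ℕ → ℕ → K) (U : Ultrafilter ℕ) (c : ℕ → ℝ)
    (hc : ∀ j, Tendsto (fun n => (v n j : ℝ)) U (𝓝 (c j)))
    (hH : ∀ B, Df e B → ∃ j, ∀ᶠ n in (U : Filter ℕ),
      (∃ a, B (cons a (v n))) → B (cons (v n j) (v n))) :
    ∃ K' : Subfield ℝ, (K' : Set ℝ) = range c ∧ ∀ (φ : Fm) (σ : ℕ → ℕ),
      SatR K' φ (fun k => c (σ k)) ↔ ∀ᶠ n in (U : Filter ℕ), Sat φ (fun k => v n (σ k)) := by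
  have hp : ∀ p : MvPolynomial ℕ ℤ,
      Tendsto (fun n => ((aeval (v n) p : K) : ℝ)) U (𝓝 (aeval c p)) := fun p => by
    induction p using MvPolynomial.induction_on with
    | C a => simp
    | add p q hp hq => simpa using hp.add hq
    | mul_X p i hp => simpa using hp.mul (hc i)
  have hP : ∀ p : MvPolynomial ℕ ℤ, Pl e (fun w => aeval (fun k => w (k + 1)) p) := fun p =>
    Pl.poly p fun k => Pl.var (k + 1)
  have hval : ∀ p : MvPolynomial ℕ ℤ, aeval c p ∈ range c := fun p => by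
    obtain ⟨j, hj⟩ := hH _ (Df.eq (Pl.var 0) (hP p))
    refine ⟨j, tendsto_nhds_unique (hc j) ((hp p).congr' (hj.mono fun n hn => ?_))⟩
    exact congrArg _ (hn ⟨aeval (v n) p, rfl⟩).symm
  have hinv : ∀ p : MvPolynomial ℕ ℤ, (∀ᶠ n in (U : Filter ℕ), aeval (v n) p ≠ 0) →
      ∃ j, c j * aeval c p = 1 := fun p h => by
    obtain ⟨j, hj⟩ := hH _ (Df.eq ((Pl.var 0).mul (hP p)) Pl.one)
    refine ⟨j, tendsto_nhds_unique ((hc j).mul (hp p))
      (tendsto_const_nhds.congr' ((hj.and h).mono fun n hn => ?_))⟩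
    have := hn.1 ⟨(aeval (v n) p)⁻¹, inv_mul_cancel₀ hn.2⟩
    have h2 : v n j * aeval (v n) p = 1 := this
    change (1 : ℝ) = (v n j : ℝ) * ((aeval (v n) p : K) : ℝ)
    exact_mod_cast h2.symm
  have hz : ∀ p : MvPolynomial ℕ ℤ,
      aeval c p = 0 ↔ ∀ᶠ n in (U : Filter ℕ), aeval (v n) p = 0 := fun p => by
    refine ⟨fun h => ?_, fun h => tendsto_nhds_unique (hp p)
      (tendsto_const_nhds.congr' (h.mono fun n hn => by simp [hn]))⟩
    by_contra h'
    obtain ⟨j, hj⟩ := hinv p (Ultrafilter.eventually_not.2 h')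
    simp [h] at hj
  let K' : Subfield ℝ :=
    { carrier := range c
      mul_mem' := by
        rintro _ _ ⟨i, rfl⟩ ⟨j, rfl⟩
        have := hval (X i * X j)
        rwa [_root_.map_mul, aeval_X, aeval_X] at this
      one_mem' := by simpa using hval 1
      add_mem' := by
        rintro _ _ ⟨i, rfl⟩ ⟨j, rfl⟩
        have := hval (X i + X j)
        rwa [_root_.map_add, aeval_X, aeval_X] at this
      zero_mem' := by simpa using hval 0
      neg_mem' := by
        rintro _ ⟨i, rfl⟩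
        simpa using hval (-X i)
      inv_mem' := by
        rintro _ ⟨i, rfl⟩
        by_cases h : c i = 0
        · exact ⟨i, by simp [h]⟩
        · obtain ⟨j, hj⟩ := hinv (X i) (Ultrafilter.eventually_not.2 fun h' =>
            h (by simpa using (hz (X i)).2 h'))
          exact ⟨j, eq_inv_of_mul_eq_one_left (by simpa using hj)⟩ }
  refine ⟨K', rfl, fun φ => ?_⟩
  induction φ with
  | eq p =>
    intro σ
    have := hz (rename σ p)
    simp only [aeval_rename] at this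
    exact this
  | not φ ih => intro σ; simp only [SatR, Sat, ih, Ultrafilter.eventually_not]
  | and φ ψ ih1 ih2 => intro σ; simp only [SatR, Sat, ih1, ih2, eventually_and]
  | ex φ ih =>
    intro σ
    simp only [SatR, Sat]
    constructor
    · rintro ⟨_, ⟨j, rfl⟩, h⟩
      rw [← cons_comp c, ih] at h
      exact h.mono fun n hn => ⟨v n j, by rwa [cons_comp (v n)] at hn⟩
    · intro h
      obtain ⟨j, hj⟩ := hH _ (Df.sat φ (f := fun k w => w (cons 0 (fun k => σ k + 1) k))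
        fun k => Pl.var _)
      refine ⟨c j, ⟨j, rfl⟩, ?_⟩
      rw [← cons_comp c, ih]
      refine (hj.and h).mono fun n hn => ?_
      have key : ∀ a : K, (fun k => cons a (v n) (cons 0 (fun k => σ k + 1) k))
          = cons a (fun k => v n (σ k)) := fun a => by
        funext k; cases k <;> rfl
      have h1 := hn.1
      simp only [key] at h1
      rw [cons_comp (v n)]
      exact h1 hn.2

theorem extension (hK : NIP K) (e : ℕ → K) :
    ∃ M : Set ℝ, IsMeagre M ∧ ∀ r ∉ M, ∃ K' : Subfield ℝ, (K' : Set ℝ).Countable ∧ r ∈ K' ∧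
      (∀ i, (e i : ℝ) ∈ K') ∧
      (∀ (φ : Fm) (τ : ℕ → ℕ), SatR K φ (fun k => e (τ k)) ↔ SatR K' φ (fun k => e (τ k))) ∧
      ∀ φ X n, PatR K' φ X n → PatR K φ X n := by
  obtain ⟨a0, ha0⟩ := ordDf_of K hK
  have he : OrdDf (cons a0 e) := ha0 _ rfl
  obtain ⟨M, hM, hb⟩ := bound_lemma hK he
  refine ⟨M, hM, fun r hr => ?_⟩
  obtain ⟨v, hv0, hvb, hvH⟩ := generic_seq he (hb r hr)
  let U := hyperfilter ℕ
  have hU : (U : Filter ℕ) ≤ atTop := Nat.hyperfilter_le_atTop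
  have hc : ∀ j, ∃ c, Tendsto (fun n => (v n j : ℝ)) U (𝓝 c) := fun j => by
    obtain ⟨C, hC⟩ := hvb j
    obtain ⟨c, -, hc⟩ := (isCompact_Icc (a := -((C : ℝ) + 1)) (b := C + 1)).ultrafilter_le_nhds
      (U.map fun n => (v n j : ℝ)) (le_principal_iff.2 (by
        refine mem_map.2 (mem_of_superset (hU hC) fun n hn => ?_)
        have h1 : (v n j : ℝ) ^ 2 ≤ C := by exact_mod_cast (show v n j ^ 2 ≤ C from hn)
        constructor <;> nlinarith [sq_nonneg ((v n j : ℝ) - 1), sq_nonneg ((v n j : ℝ) + 1)]))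
    exact ⟨c, hc⟩
  choose c hc using hc
  have hH := fun B hB => (hvH B hB).imp fun j hj => hj.filter_mono hU
  obtain ⟨K', hK', hT⟩ := limit_field v U c hc hH
  have hpar : ∀ i, ∃ j, c j = e i ∧ ∀ᶠ n in (U : Filter ℕ), v n j = e i := fun i => by
    obtain ⟨j, hj⟩ := hH _ (Df.eq (Pl.var 0) (Pl.par (i + 1)))
    have h1 : ∀ᶠ n in (U : Filter ℕ), v n j = e i := hj.mono fun n hn => hn ⟨_, rfl⟩
    exact ⟨j, tendsto_nhds_unique (hc j) (tendsto_const_nhds.congr' (h1.mono fun n hn => by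
      simp [hn])), h1⟩
  choose s hs1 hs2 using hpar
  have hmem : ∀ x, x ∈ K' ↔ x ∈ range c := fun x => by rw [← hK']; rfl
  refine ⟨K', hK' ▸ countable_range c, (hmem _).2 ⟨0, tendsto_nhds_unique (hc 0) (hv0.mono_left hU)⟩,
    fun i => (hmem _).2 ⟨s i, hs1 i⟩, fun φ τ => ?_, fun φ X n => ?_⟩
  · obtain ⟨N, hN⟩ := sat_supp φ
    have h1 : ∀ᶠ n in (U : Filter ℕ), ∀ k ∈ Finset.range N, v n (s (τ k)) = e (τ k) :=
      (eventually_all_finset _).2 fun k _ => hs2 _
    rw [← sat_iff K φ (fun k => e (τ k))]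
    simp only [← hs1]
    rw [hT φ (fun k => s (τ k))]
    refine ⟨fun h => h1.mono fun n hn => (hN _ _ fun k hk => hn k (Finset.mem_range.2 hk)).2 h,
      fun h => ?_⟩
    obtain ⟨n, hn1, hn2⟩ := (h.and h1).exists
    exact (hN _ _ fun k hk => hn2 k (Finset.mem_range.2 hk)).1 hn1
  · rintro ⟨a, b, ha, hb, h⟩
    choose α hα using fun i k => (hmem _).1 (ha i k)
    choose β hβ using fun T k => (hmem _).1 (hb T k)
    have h1 : ∀ᶠ m in (U : Filter ℕ), ∀ i T,
        (Sat φ (fun k => v m (bif X k then α i k else β T k)) ↔ i ∈ T) := by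
      refine eventually_all.2 fun i => eventually_all.2 fun T => ?_
      have h2 := hT φ (fun k => bif X k then α i k else β T k)
      have h3 : (fun k => c (bif X k then α i k else β T k))
          = fun k => bif X k then a i k else b T k := by
        funext k; cases X k <;> simp [hα, hβ]
      rw [h3, h] at h2
      by_cases hi : i ∈ T
      · exact (h2.1 hi).mono fun m hm => by simp [hi, hm]
      · exact (Ultrafilter.eventually_not.2 fun h' => hi (h2.2 h')).mono fun m hm => by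
          simp [hi, hm]
    obtain ⟨m, hm⟩ := h1.exists
    refine (pat_iff K φ X n).1 ⟨fun i k => v m (α i k), fun T k => v m (β T k), fun i T => ?_⟩
    rw [← hm i T]
    refine iff_of_eq (congrArg _ (funext fun k => ?_))
    cases X k <;> rfl

end Pool.Agent.MP_96eeb0_lc.H32
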