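import Pool.Agent.MP_96eeb0_lc.H32.Pet

/-! Assembly. -/

namespace Pool.Agent.MP_96eeb0_lc.H32
open Set Polynomial MeasureTheory

theorem odd_root (n : ℕ) : ∀ f : ℝ[X], f.natDegree = n → Odd n → ∃ x, f.IsRoot x := by
  induction n using Nat.strong_induction_on with
  | h n ih =>
    intro f hf hn
    have h0 : 0 < f.natDegree := hf ▸ hn.pos
    obtain ⟨g, hg, h, rfl⟩ := exists_irreducible_of_natDegree_pos h0
    have h1 : g * h ≠ 0 := ne_zero_of_natDegree_gt h0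
    rw [natDegree_mul (left_ne_zero_of_mul h1) (right_ne_zero_of_mul h1)] at hf
    have h2 := hg.natDegree_le_two
    have h3 := hg.natDegree_pos
    by_cases h4 : g.natDegree = 1
    · obtain ⟨x, hx⟩ := exists_root_of_degree_eq_one
        ((degree_eq_iff_natDegree_eq_of_pos one_pos).2 h4)
      exact ⟨x, root_mul.2 (Or.inl hx)⟩
    · obtain ⟨k, hk⟩ := hn
      obtain ⟨x, hx⟩ := ih h.natDegree (by omega) h rfl ⟨k - 1, by omega⟩
      exact ⟨x, root_mul.2 (Or.inr hx)⟩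

theorem exists_alg {K : Subfield ℝ} (h : ¬ IsRealClosed K) :
    ∃ α : ℝ, α ∉ K ∧ IsAlgebraic K α := by
  by_contra hc
  push Not at hc
  have hc' : ∀ α : ℝ, IsAlgebraic K α → α ∈ K := fun α h => by_contra fun h' => hc α h' h
  refine h (IsRealClosed.of_linearOrderedField (fun {x} hx => ?_) (fun {f} hf => ?_))
  · have h1 : √(x : ℝ) ^ 2 = x := Real.sq_sqrt hx
    have h2 := hc' √(x : ℝ) (IsAlgebraic.of_pow two_pos (h1.symm ▸ isAlgebraic_algebraMap x))
    exact ⟨⟨_, h2⟩, Subtype.ext (by simpa [sq] using h1.symm)⟩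
  · obtain ⟨x, hx⟩ := odd_root _ (f.map (algebraMap K ℝ)) (natDegree_map _) hf
    have h1 : aeval x f = 0 := by rwa [aeval_def, ← eval_map]
    have h2 := hc' x ⟨f, ne_zero_of_natDegree_gt hf.pos, h1⟩
    refine ⟨⟨x, h2⟩, (algebraMap K ℝ).injective ?_⟩
    rw [map_zero, ← h1]
    exact (aeval_algebraMap_apply_eq_algebraMap_eval (⟨x, h2⟩ : K) f).symm

theorem large_case {K : Subfield ℝ} (hK : ¬ IsMeagre (K : Set ℝ) ∨ volume (K : Set ℝ) ≠ 0)
    {α : ℝ} (hα : α ∉ K) (halg : IsAlgebraic K α) :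
    ∃ L : IntermediateField K ℝ, FiniteDimensional K L ∧ (NIP K → NIP L.toSubfield) ∧
      ∃ D : Set L.toSubfield, Definable D ∧ ¬ BorelIn L.toSubfield D := by
  obtain ⟨L, hL, p, hp, h⟩ := galois_lemma K hα halg
  have hKL : (K : Set ℝ) ⊆ L.toSubfield := fun x hx => L.algebraMap_mem ⟨x, hx⟩
  refine ⟨L, hL, fun h => nip_ext (L := L) h, ?_⟩
  rcases hK with hK | hK
  · exact non_borel idl_meagre (fun h' => hK (h'.mono hKL)) hp h
  · exact non_borel idl_null (fun h' => hK (measure_mono_null hKL h')) hp h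

theorem luzin_case {Y : Set ℝ} (hY : ¬ Y.Countable) (hY' : ∀ M, IsMeagre M → (Y ∩ M).Countable)
    {K : Subfield ℝ} (hK : NIP K) (h : ¬ IsRealClosed K) :
    ∃ L : Subfield ℝ, NIP L ∧ ∃ D : Set L, Definable D ∧ ¬ BorelIn L D := by
  obtain ⟨α, hα, halg⟩ := exists_alg h
  set f := minpoly K α
  have hf := halg.isIntegral
  have hev : ∀ x : ℝ, aeval x f = ∑ i ∈ Finset.range (f.natDegree + 1), (f.coeff i : ℝ) * x ^ i :=
    fun x => by rw [aeval_eq_sum_range]; rfl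
  have hG : Good K (f.natDegree + 1) (fun i => f.coeff i) K := by
    refine ⟨fun i => (f.coeff i).2, ?_, fun _ _ _ h => h⟩
    rintro ⟨x, hx, h0⟩
    rw [← hev] at h0
    have h1 : f.IsRoot ⟨x, hx⟩ := (algebraMap K ℝ).injective (by
      rw [map_zero, ← h0]
      exact (aeval_algebraMap_apply_eq_algebraMap_eval (⟨x, hx⟩ : K) f).symm)
    obtain ⟨y, hy⟩ := minpoly.degree_eq_one_iff.1
      (degree_eq_one_of_irreducible_of_root (minpoly.irreducible hf) h1)
    exact hα (hy ▸ y.2)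
  obtain ⟨K', h1, h2⟩ := exists_nonmeagre hK hG hY hY'
  have h3 : ∑ i ∈ Finset.range (f.natDegree + 1), (f.coeff i : ℝ) * α ^ i = 0 :=
    hev α ▸ minpoly.aeval K α
  have h4 : IsAlgebraic K' α := by
    let c : ℕ → K' := fun i => ⟨f.coeff i, h2.1 i⟩
    refine ⟨∑ i ∈ Finset.range (f.natDegree + 1), monomial i (c i), fun h0 => ?_, ?_⟩
    · have h5 := congrArg (coeff · f.natDegree) h0
      simp only [finsetSum_coeff, coeff_monomial, Finset.sum_ite_eq', Finset.mem_range,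
        Nat.lt_succ_self, if_true, coeff_zero] at h5
      have h6 : (f.coeff f.natDegree : ℝ) = 0 := congrArg Subtype.val h5
      rw [(minpoly.monic hf).coeff_natDegree] at h6
      exact one_ne_zero h6
    · rw [← h3, map_sum]
      exact Finset.sum_congr rfl fun i _ => by rw [aeval_monomial]; rfl
  obtain ⟨L, -, h5, h6⟩ := large_case (Or.inl h1) (fun h' => h2.2.1 ⟨α, h', h3⟩) h4
  exact ⟨_, h5 (h2.nip hK), h6⟩

theorem order_fin (K : Subfield ℝ) (hK : NIP K) : ∃ (a : K) (n : ℕ), ∀ w : K,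
    0 ≤ w ↔ ∃ f g : Fin n → K, w = ∑ i, f i ^ 2 + a * ∑ i, g i ^ 2 := by
  obtain ⟨a, n, h⟩ := order_def K hK
  refine ⟨a, n, fun w => (h w).trans ⟨?_, ?_⟩⟩
  · rintro ⟨s, t, ⟨f, rfl⟩, ⟨g, rfl⟩, rfl⟩
    exact ⟨fun i => f i, fun i => g i, by simp only [Finset.sum_range]⟩
  · rintro ⟨f, g, rfl⟩
    have key : ∀ f : Fin n → K, SS n (∑ i, f i ^ 2) := fun f =>
      ⟨fun i => if h : i < n then f ⟨i, h⟩ else 0, by simp [Finset.sum_range]⟩
    exact ⟨_, _, key f, key g, rfl⟩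

end Pool.Agent.MP_96eeb0_lc.H32
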