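import Pool.Agent.MP_96eeb0_lc.H32.Cl

/-! Octonion norm groups and the basic consequence of NIP. -/

namespace Pool.Agent.MP_96eeb0_lc.H32

variable {F : Type} [Field F]

def N8 (u : F) (a : ℕ → F) : F :=
  a 0 ^ 2 + a 1 ^ 2 + a 2 ^ 2 + a 3 ^ 2 + u * (a 4 ^ 2 + a 5 ^ 2 + a 6 ^ 2 + a 7 ^ 2)

def G8 (u w : F) : Prop := ∃ a, w = N8 u a

theorem G8.mul {u w w' : F} (h : G8 u w) (h' : G8 u w') : G8 u (w * w') := by
  obtain ⟨a, rfl⟩ := h
  obtain ⟨b, rfl⟩ := h'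
  refine ⟨fun k => [(0 + a 0 * b 0 - a 1 * b 1 - a 2 * b 2 - a 3 * b 3) - u * (0 + b 4 * a 4 + b 5 * a 5 + b 6 * a 6 + b 7 * a 7),
      (0 + a 0 * b 1 + a 1 * b 0 + a 2 * b 3 - a 3 * b 2) - u * (0 + b 4 * a 5 - b 5 * a 4 - b 6 * a 7 + b 7 * a 6),
      (0 + a 0 * b 2 - a 1 * b 3 + a 2 * b 0 + a 3 * b 1) - u * (0 + b 4 * a 6 + b 5 * a 7 - b 6 * a 4 - b 7 * a 5),
      (0 + a 0 * b 3 + a 1 * b 2 - a 2 * b 1 + a 3 * b 0) - u * (0 + b 4 * a 7 - b 5 * a 6 + b 6 * a 5 - b 7 * a 4),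
      (0 + b 4 * a 0 - b 5 * a 1 - b 6 * a 2 - b 7 * a 3) + (0 + a 4 * b 0 + a 5 * b 1 + a 6 * b 2 + a 7 * b 3),
      (0 + b 4 * a 1 + b 5 * a 0 + b 6 * a 3 - b 7 * a 2) + (0 - a 4 * b 1 + a 5 * b 0 - a 6 * b 3 + a 7 * b 2),
      (0 + b 4 * a 2 - b 5 * a 3 + b 6 * a 0 + b 7 * a 1) + (0 - a 4 * b 2 + a 5 * b 3 + a 6 * b 0 - a 7 * b 1),
      (0 + b 4 * a 3 + b 5 * a 2 - b 6 * a 1 + b 7 * a 0) + (0 - a 4 * b 3 - a 5 * b 2 + a 6 * b 1 + a 7 * b 0)].getD k 0, ?_⟩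
  simp only [N8, List.getD_cons_zero, List.getD_cons_succ]
  ring

theorem G8.sq (u x : F) : G8 u (x ^ 2) :=
  ⟨fun k => [x].getD k 0, by simp [N8]⟩

theorem G8.add_rat [CharZero F] (u : F) {r : ℚ} (hr : 0 ≤ r) : G8 u (u + r) := by
  obtain ⟨a, b, c, d, h⟩ := Nat.sum_four_squares (r.num.toNat * r.den)
  have hd : (r.den : F) ≠ 0 := by exact_mod_cast r.den_nz
  refine ⟨fun k => [(a : F) / r.den, (b : F) / r.den, (c : F) / r.den, (d : F) / r.den, 1].getD k 0,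
    ?_⟩
  have h1 : ((a : F) ^ 2 + b ^ 2 + c ^ 2 + d ^ 2) = (r.num : F) * r.den := by
    have h2 : ((r.num.toNat : ℤ) : F) = (r.num : F) := by
      rw [Int.toNat_of_nonneg (Rat.num_nonneg.2 hr)]
    have h3 := congrArg (Nat.cast : ℕ → F) h
    push_cast at h3 h2
    rw [h3, h2]
  have h4 : (r : F) = (r.num : F) / r.den := Rat.cast_def r
  simp only [N8, List.getD_cons_zero, List.getD_cons_succ, List.getD_nil]
  rw [h4]
  field_simp
  linear_combination -h1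

def Th (u v w : F) : Prop := ∃ a b, w = N8 u a * N8 v b

theorem Th.mul {u v w w' : F} (h : Th u v w) (h' : Th u v w') : Th u v (w * w') := by
  obtain ⟨a, b, rfl⟩ := h
  obtain ⟨c, d, rfl⟩ := h'
  obtain ⟨x, hx⟩ := G8.mul (u := u) ⟨a, rfl⟩ ⟨c, rfl⟩
  obtain ⟨y, hy⟩ := G8.mul (u := v) ⟨b, rfl⟩ ⟨d, rfl⟩
  exact ⟨x, y, by rw [← hx, ← hy]; ring⟩

theorem Th.left {u w : F} (v : F) (h : G8 u w) : Th u v w := by
  obtain ⟨a, rfl⟩ := h
  obtain ⟨b, hb⟩ := G8.sq v 1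
  exact ⟨a, b, by rw [← hb]; ring⟩

theorem Th.right {v w : F} (u : F) (h : G8 v w) : Th u v w := by
  obtain ⟨a, rfl⟩ := h
  obtain ⟨b, hb⟩ := G8.sq u 1
  exact ⟨b, a, by rw [← hb]; ring⟩

theorem Pl.n8 {e : ℕ → F} (i j : ℕ) : Pl e (fun v => N8 (v i) (fun k => v (j + k))) := by
  unfold N8
  have h := fun k => (Pl.var (e := e) (j + k)).pow 2
  exact (((h 0).add (h 1)).add (h 2) |>.add (h 3)).add
    ((Pl.var i).mul (((h 4).add (h 5)).add (h 6) |>.add (h 7)))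

theorem df_th (e : ℕ → F) : Df e (fun v => Th (v 0) (v 1) (v 2)) := by
  have h := (Df.eq (e := e) (Pl.var 18) ((Pl.n8 16 0).mul (Pl.n8 17 8))).exN 16
  refine h.congr fun v => ?_
  constructor
  · rintro ⟨a, b, hab⟩
    exact ⟨app 8 a b, by simpa [app, N8] using hab⟩
  · rintro ⟨a, ha⟩
    exact ⟨a, fun k => a (8 + k), by simpa [app, N8] using ha⟩

/-- the property that NIP gives -/
def QQ (F : Type) [Field F] (n : ℕ) : Prop :=
  ∀ (x : F) (p q : Fin n → ℚ), (∀ i, p i < q i) → (∀ i j, i < j → q i < p j) →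
    ∃ i, Th (x - p i) (q i - x) (-((x - p i) * (q i - x)))

theorem qq_of_nip [CharZero F] (hF : NIP F) : ∃ n, QQ F n := by
  classical
  obtain ⟨n, hn⟩ := (df_th (fun _ => (0 : F))).nip hF (fun k => decide (k < 2))
  refine ⟨n, fun x p q hpq hqp => ?_⟩
  by_contra hc
  push Not at hc
  apply hn
  set c : Fin n → F := fun i => -((x - p i) * (q i - x)) with hcdef
  have hc0 : ∀ i, c i ≠ 0 := fun i h0 => hc i (by
    have := Th.left (q i - x) (G8.sq (x - (p i : F)) 0)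
    change Th _ _ (c i)
    rw [h0]
    simpa using this)
  have hij : ∀ i j, j ≠ i → Th (x - p i) (q i - x) (c j) := by
    intro i j hji
    rcases lt_or_gt_of_ne hji with h | h
    · have h1 := hqp j i h
      have h2 := hpq j
      have := (G8.add_rat (x - (p i : F)) (r := p i - p j) (by linarith)).mul
        (G8.add_rat (x - (p i : F)) (r := p i - q j) (by linarith))
      have e1 : c j = (x - p i + ((p i - p j : ℚ) : F)) * (x - p i + ((p i - q j : ℚ) : F)) := by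
        simp only [hcdef]; push_cast; ring
      rw [e1]
      exact Th.left _ this
    · have h1 := hqp i j h
      have h2 := hpq j
      have := (G8.add_rat ((q i : F) - x) (r := p j - q i) (by linarith)).mul
        (G8.add_rat ((q i : F) - x) (r := q j - q i) (by linarith))
      have e1 : c j = (q i - x + ((p j - q i : ℚ) : F)) * (q i - x + ((q j - q i : ℚ) : F)) := by
        simp only [hcdef]; push_cast; ring
      rw [e1]
      exact Th.right _ this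
  have hprod : ∀ i (s : Finset (Fin n)), i ∉ s → Th (x - p i) (q i - x) (∏ j ∈ s, c j) := by
    intro i s hi
    refine Finset.prod_induction _ (Th (x - p i) (q i - x)) (fun _ _ => Th.mul) ?_
      (fun j hj => hij i j (fun h => hi (h ▸ hj)))
    simpa using Th.left (q i - x) (G8.sq (x - (p i : F)) 1)
  refine ⟨fun i => cons (x - p i) (fun _ => q i - x),
    fun S _ => ∏ j ∈ Finset.univ.filter (fun j => j ∉ S), c j, fun i S => ?_⟩
  change Th (x - p i) (q i - x) (∏ j ∈ Finset.univ.filter (fun j => j ∉ S), c j) ↔ _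
  refine ⟨fun h => ?_, fun h => hprod i _ (by simpa using h)⟩
  by_contra hi
  have hi' : i ∈ Finset.univ.filter (fun j => j ∉ S) := by simpa using hi
  rw [← Finset.mul_prod_erase _ _ hi'] at h
  set β := ∏ j ∈ (Finset.univ.filter (fun j => j ∉ S)).erase i, c j
  have hβ : β ≠ 0 := Finset.prod_ne_zero_iff.2 fun j _ => hc0 j
  have h1 : Th (x - p i) (q i - x) β := hprod i _ (Finset.notMem_erase i _)
  have h2 := (h.mul h1).mul
    (Th.left (q i - x) (G8.sq (x - (p i : F)) β⁻¹))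
  apply hc i
  change Th _ _ (c i)
  have e1 : c i = c i * β * β * β⁻¹ ^ 2 := by field_simp
  rw [e1]
  exact h2

end Pool.Agent.MP_96eeb0_lc.H32
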