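import Pool.Agent.MP_96eeb0_lc.H32.Pre

/-! The order of an NIP subfield of the reals is existentially definable. -/

namespace Pool.Agent.MP_96eeb0_lc.H32
open Filter

def SS {F : Type} [Field F] (L : ℕ) (w : F) : Prop :=
  ∃ f : ℕ → F, w = ∑ i ∈ Finset.range L, f i ^ 2

def TL {F : Type} [Field F] (L : ℕ) (a w : F) : Prop := ∃ s t, SS L s ∧ SS L t ∧ w = s + a * t

section
variable {F : Type} [Field F]

theorem SS.cons {L : ℕ} {w : F} (h : SS L w) (x : F) : SS (L + 1) (x * x + w) := by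
  obtain ⟨f, rfl⟩ := h
  exact ⟨H32.cons x f, by rw [Finset.sum_range_succ']; simp [add_comm, sq]⟩

theorem SS.mono {L M : ℕ} {w : F} (h : SS L w) (hLM : L ≤ M) : SS M w := by
  induction hLM with
  | refl => exact h
  | step _ ih => simpa using ih.cons 0

theorem SS.scale {L : ℕ} {w : F} (h : SS L w) (z : F) : SS L (w * z ^ 2) := by
  obtain ⟨f, rfl⟩ := h
  exact ⟨fun i => f i * z, by simp [Finset.sum_mul, mul_pow]⟩

theorem TL.scale {L : ℕ} {a w : F} (h : TL L a w) (z : F) : TL L a (w * z ^ 2) := by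
  obtain ⟨s, t, hs, ht, rfl⟩ := h
  exact ⟨_, _, hs.scale z, ht.scale z, by ring⟩

theorem ss_germ (U : Ultrafilter ℕ) {s : Germ (U : Filter ℕ) F} (h : IsSumSq s) :
    ∃ (L : ℕ) (g : ℕ → F), s = (g : Germ (U : Filter ℕ) F) ∧ ∀ n, SS L (g n) := by
  induction h with
  | zero => exact ⟨0, 0, rfl, fun n => ⟨0, by simp⟩⟩
  | sq_add a _ ih =>
    obtain ⟨L, g, rfl, hg⟩ := ih
    induction a using Germ.inductionOn with
    | h f => exact ⟨L + 1, f * f + g, rfl, fun n => (hg n).cons (f n)⟩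

theorem qq_germ [CharZero F] (U : Ultrafilter ℕ) [CharZero (Germ (U : Filter ℕ) F)] {n : ℕ}
    (h : QQ F n) : QQ (Germ (U : Filter ℕ) F) n := by
  intro x p q hpq hqp
  induction x using Germ.inductionOn with
  | h f =>
    choose i a b hab using fun m => h (f m) p q hpq hqp
    obtain ⟨j, hj⟩ := (Ultrafilter.eventually_exists_iff (f := U) (P := fun j m => i m = j)).1
      (Eventually.of_forall fun m => ⟨i m, rfl⟩)
    let Φ := Germ.coeRingHom (R := F) (U : Filter ℕ)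
    have hr : ∀ r : ℚ, (r : Germ (U : Filter ℕ) F) = Φ (fun _ => (r : F)) := fun r =>
      (map_ratCast (Φ.comp (Pi.constRingHom ℕ F)) r).symm
    refine ⟨j, fun k => Φ (fun m => a m k), fun k => Φ (fun m => b m k), ?_⟩
    change -((Φ f - p j) * (q j - Φ f)) = N8 (Φ f - p j) _ * N8 (q j - Φ f) _
    simp only [hr, N8, ← map_sub, ← map_mul, ← map_neg, ← map_pow, ← map_add]
    refine Germ.coe_eq.2 (hj.mono fun m hm => ?_)
    have := hab m
    rw [hm] at this
    simpa [N8] using this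

end

theorem norm_sq {w : ℝ} (hw : 0 < w) : ∃ z : ℚ, z ≠ 0 ∧ 1 ≤ 2 * (w * z ^ 2) ∧ w * z ^ 2 ≤ 2 := by
  have h1 : √(1 / (2 * w)) < √(2 / w) :=
    Real.sqrt_lt_sqrt (by positivity) (by rw [div_lt_div_iff₀ (by positivity) hw]; linarith)
  obtain ⟨z, hz1, hz2⟩ := exists_rat_btwn h1
  have h0 : (0 : ℝ) < z := lt_of_le_of_lt (Real.sqrt_nonneg _) hz1
  have h2 := (Real.sqrt_lt' h0).1 hz1
  have h3 := (Real.lt_sqrt h0.le).1 hz2
  rw [div_lt_iff₀ (by positivity)] at h2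
  rw [lt_div_iff₀ hw] at h3
  exact ⟨z, by exact_mod_cast h0.ne', by linarith, by linarith⟩

theorem order_def (K : Subfield ℝ) (hK : NIP K) :
    ∃ (a : K) (L : ℕ), ∀ w : K, 0 ≤ w ↔ TL L a w := by
  obtain ⟨n, hn⟩ := qq_of_nip hK
  suffices h : ∃ (a : K) (L : ℕ), 0 < a ∧ ∀ w : K, 1 ≤ 2 * w → w ≤ 2 → TL L a w by
    obtain ⟨a, L, ha, h⟩ := h
    refine ⟨a, L, fun w => ⟨fun hw => ?_, ?_⟩⟩
    · rcases hw.eq_or_lt with rfl | hw
      · exact ⟨0, 0, ⟨0, by simp⟩, ⟨0, by simp⟩, by simp⟩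
      · obtain ⟨z, hz, h1, h2⟩ := norm_sq (w := w) hw
        have h3 := (h (w * (z : K) ^ 2) (by exact_mod_cast h1) (by exact_mod_cast h2)).scale
          (z : K)⁻¹
        have hz' : (z : K) ≠ 0 := by exact_mod_cast hz
        have e1 : w * (z : K) ^ 2 * (z : K)⁻¹ ^ 2 = w := by field_simp
        rwa [e1] at h3
    · rintro ⟨s, t, ⟨f, rfl⟩, ⟨g, rfl⟩, rfl⟩
      positivity
  by_contra hc
  push Not at hc
  let U := hyperfilter ℕ
  have hP : Tot {x : Germ (U : Filter ℕ) K | 0 ≤ x} :=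
    ⟨⟨fun {x y} hx hy => show 0 ≤ x + y from add_nonneg hx hy, 
      fun {x y} hx hy => show 0 ≤ x * y from mul_nonneg hx hy, fun x => sq_nonneg x,
      by simp⟩, fun x => by simpa using le_total 0 x⟩
  refine not_lim (qq_germ U hn) hP fun a ha ha0 => ?_
  induction a using Germ.inductionOn with
  | h f =>
    have hf : ∀ᶠ m in (U : Filter ℕ), 0 < f m := Germ.coe_pos.1 (lt_of_le_of_ne ha ha0.symm)
    have hw : ∀ m, ∃ w : K, 1 ≤ 2 * w ∧ w ≤ 2 ∧ (0 < f m → ¬ TL m (f m) w) := fun m => by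
      by_cases hm : 0 < f m
      · obtain ⟨w, h1, h2, h3⟩ := hc (f m) m hm
        exact ⟨w, h1, h2, fun _ => h3⟩
      · exact ⟨1, by norm_num, by norm_num, fun h => absurd h hm⟩
    choose w hw1 hw2 hw3 using hw
    have hS : Pre {x : Germ (U : Filter ℕ) K | IsSumSq x} :=
      ⟨fun hx hy => hx.add hy, fun hx hy => hx.mul hy, fun x => sq x ▸ IsSumSq.mul_self x,
        fun h => absurd (IsSumSq.nonneg h) (by simp)⟩
    have hT := hS.adj (a := (f : Germ (U : Filter ℕ) K)) (fun h =>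
      ha0 (le_antisymm (neg_nonneg.1 (IsSumSq.nonneg h)) ha))
    have hT2 := hT.adj (a := -(w : Germ (U : Filter ℕ) K)) (by
      rintro ⟨s, hs, t, ht, he⟩
      obtain ⟨L, g, rfl, hg⟩ := ss_germ U hs
      obtain ⟨M, h, rfl, hh⟩ := ss_germ U ht
      rw [neg_neg] at he
      have h1 : w =ᶠ[U] g + f * h := Germ.coe_eq.1 he
      have h2 : ∀ᶠ m in (U : Filter ℕ), max L M ≤ m :=
        Nat.hyperfilter_le_atTop (eventually_ge_atTop _)
      obtain ⟨m, hm1, hm2, hm3⟩ := (h1.and (h2.and hf)).exists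
      exact hw3 m hm3 ⟨_, _, (hg m).mono ((le_max_left _ _).trans hm2),
        (hh m).mono ((le_max_right _ _).trans hm2), hm1⟩)
    obtain ⟨Q, hQ, hQt⟩ := hT2.exists_tot
    refine ⟨Q, hQt, hQ ⟨_, ⟨0, hS.zero, 1, hS.one, rfl⟩, 0, hT.zero, by simp⟩, w, ?_, ?_,
      hQ ⟨0, hT.zero, 1, hT.one, by simp⟩⟩
    · have : ((0 : ℕ → K) : Germ (U : Filter ℕ) K) ≤ ((w + w - 1 : ℕ → K) : Germ _ K) :=
        Germ.coe_le.2 (Eventually.of_forall fun m => by
          have := hw1 m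
          simp only [Pi.zero_apply, Pi.sub_apply, Pi.add_apply, Pi.one_apply]
          linarith)
      rw [Set.mem_ofPred_eq]
      rw [two_mul]
      exact this
    · have : ((0 : ℕ → K) : Germ (U : Filter ℕ) K) ≤ ((1 + 1 - w : ℕ → K) : Germ _ K) :=
        Germ.coe_le.2 (Eventually.of_forall fun m => by
          have := hw2 m
          simp only [Pi.zero_apply, Pi.sub_apply, Pi.add_apply, Pi.one_apply]
          linarith)
      rw [Set.mem_ofPred_eq]
      rw [← one_add_one_eq_two]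
      exact this

/-- the order is definable from the parameter `e 0` -/
def OrdDf {K : Subfield ℝ} (e : ℕ → K) : Prop := Df e (fun v => 0 ≤ v 0)

theorem ordDf_of (K : Subfield ℝ) (hK : NIP K) :
    ∃ a : K, ∀ e : ℕ → K, e 0 = a → OrdDf e := by
  obtain ⟨a, L, h⟩ := order_def K hK
  refine ⟨a, fun e he => ?_⟩
  have h1 := ((Df.eq (e := e) (Pl.var (L + L)) ((Pl.sum (Finset.range L)
    (fun i => (Pl.var (L + i)).pow 2)).add ((Pl.par 0).mul (Pl.sum (Finset.range L)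
    (fun i => (Pl.var i).pow 2))))).exN L).exN L
  refine h1.congr fun v => ?_
  rw [h]
  have k1 : ∀ f g : ℕ → K, ∑ i ∈ Finset.range L, app L g (app L f v) (L + i) ^ 2
      = ∑ i ∈ Finset.range L, f i ^ 2 := fun f g =>
    Finset.sum_congr rfl fun i hi => by simp [app, Finset.mem_range.1 hi]
  have k2 : ∀ f g : ℕ → K, ∑ i ∈ Finset.range L, app L g (app L f v) i ^ 2
      = ∑ i ∈ Finset.range L, g i ^ 2 := fun f g =>
    Finset.sum_congr rfl fun i hi => by simp [app, Finset.mem_range.1 hi]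
  have k3 : ∀ f g : ℕ → K, app L g (app L f v) (L + L) = v 0 := fun f g => by simp [app]
  simp only [k1, k2, k3, he]
  constructor
  · rintro ⟨s, t, ⟨f, rfl⟩, ⟨g, rfl⟩, h⟩
    exact ⟨f, g, h⟩
  · rintro ⟨f, g, h⟩
    exact ⟨_, _, ⟨f, rfl⟩, ⟨g, rfl⟩, h⟩

theorem OrdDf.le {K : Subfield ℝ} {e : ℕ → K} (h : OrdDf e) {f g : (ℕ → K) → K} (hf : Pl e f)
    (hg : Pl e g) : Df e (fun v => f v ≤ g v) :=
  (Df.comp h (f := fun _ v => g v - f v) fun _ => hg.sub hf).congr fun _ => sub_nonneg.symm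

theorem OrdDf.lt {K : Subfield ℝ} {e : ℕ → K} (h : OrdDf e) {f g : (ℕ → K) → K} (hf : Pl e f)
    (hg : Pl e g) : Df e (fun v => f v < g v) :=
  (h.le hg hf).not.congr fun _ => not_le.symm

end Pool.Agent.MP_96eeb0_lc.H32
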