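import Pool.Agent.MP_96eeb0_lc.H32.Chain
import Pool.Agent.MP_96eeb0_lc.H32.Gal
import Pool.Agent.MP_96eeb0_lc.H32.Ext

/-! Large subfields that are not real closed have finite extensions with non-Borel definable
sets. -/

namespace Pool.Agent.MP_96eeb0_lc.H32
open Set Filter Topology MeasureTheory

structure Idl (I : Set ℝ → Prop) : Prop where
  mono : ∀ {s t}, s ⊆ t → I t → I s
  union : ∀ {s t}, I s → I t → I (s ∪ t)
  cnt : ∀ {s}, s.Countable → I s
  img : ∀ {s} (f : ℝ → ℝ), IsInducing f → Differentiable ℝ f → I s → I (f '' s)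
  tan : ∀ {s}, I s → I {t | 2 * Real.arctan t ∈ s}
  zo : ∀ {B D}, MeasurableSet B → ¬ I B → D.Countable → Dense D → I {x | ∀ d ∈ D, x - d ∉ B}

theorem idl_meagre : Idl IsMeagre where
  mono := IsMeagre.mono
  union := IsMeagre.union
  cnt := meagre_countable
  img := fun _ hf _ hs => hf.isMeagre_image hs
  tan := fun hs => hs.preimage_of_isOpenMap (f := fun t => 2 * Real.arctan t) (by fun_prop)
    ((Homeomorph.mulLeft₀ (2 : ℝ) two_ne_zero).isOpenMap.comp (isOpen_Ioo.isOpenMap_subtype_val.comp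
      Real.tanOrderIso.symm.toHomeomorph.isOpenMap))
  zo := by
    intro B D hB hI hD hD'
    obtain ⟨U, hU, hBU⟩ := hB.residualEq_isOpen
    have hM : IsMeagre {x | ¬ (x ∈ B ↔ x ∈ U)} := by
      have := eventuallyEq_set.1 hBU
      simpa [IsMeagre, compl_ofPred, Filter.Eventually] using this
    have hne : U.Nonempty := by
      by_contra h
      rw [not_nonempty_iff_eq_empty] at h
      exact hI (hM.mono fun x hx => by simpa [h] using hx)
    refine (isMeagre_biUnion hD fun d _ =>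
      (Homeomorph.addRight d).isInducing.isMeagre_image hM).mono fun x hx => ?_
    obtain ⟨d, hd1, hd2⟩ := hD'.inter_open_nonempty {d | x - d ∈ U}
      (hU.preimage (by fun_prop)) (hne.elim fun u hu => ⟨x - u, by simpa using hu⟩)
    exact mem_biUnion hd2 ⟨x - d, fun h => hx d hd2 (h.2 hd1), by simp⟩

theorem idl_null : Idl (fun s => volume s = 0) where
  mono := measure_mono_null
  union := measure_union_null
  cnt := fun h => h.measure_zero _
  img := fun _ _ hf hs =>
    addHaar_image_eq_zero_of_differentiableOn_of_addHaar_eq_zero _ hf.differentiableOn hs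
  tan := by
    intro s hs
    refine measure_mono_null (t := (fun θ => Real.tan (θ / 2)) '' (s ∩ Ioo (-Real.pi) Real.pi))
      (fun t ht => ⟨_, ⟨ht, ?_, ?_⟩, by simp⟩)
      (addHaar_image_eq_zero_of_differentiableOn_of_addHaar_eq_zero _ (fun θ hθ => ?_)
        (measure_mono_null inter_subset_left hs))
    · linarith [Real.neg_pi_div_two_lt_arctan t]
    · linarith [Real.arctan_lt_pi_div_two t]
    · exact ((Real.differentiableAt_tan_of_mem_Ioo (x := θ / 2) ⟨by linarith [hθ.2.1],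
        by linarith [hθ.2.2]⟩).comp θ (f := fun θ : ℝ => θ / 2) (by fun_prop)).differentiableWithinAt
  zo := by
    intro B D hB hI hD hD'
    set E := {x | ∀ d ∈ D, x - d ∉ B}
    have hE : MeasurableSet E := by
      have : E = ⋂ d ∈ D, ((fun x => x - d) ⁻¹' B)ᶜ := by ext; simp [E]
      rw [this]
      exact MeasurableSet.biInter hD fun d _ => (hB.preimage (by fun_prop)).compl
    by_contra hc
    obtain ⟨t, ht⟩ : ∃ t, volume {x | x ∈ E ∧ x - t ∈ B} ≠ 0 := by
      by_contra h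
      push Not at h
      have h1 : ∀ᵐ t : ℝ, ∀ᵐ x : ℝ, ¬ (x ∈ E ∧ x - t ∈ B) := ae_of_all _ fun t => by
        simpa [ae_iff] using h t
      rw [Measure.ae_ae_comm (((hE.preimage measurable_snd).inter
        (hB.preimage (measurable_snd.sub measurable_fst))).compl)] at h1
      obtain ⟨x, hx1, hx2⟩ := ((frequently_ae_mem_iff.2 hc).and_eventually h1).exists
      apply hI
      rw [← (Measure.measurePreserving_sub_left volume x).measure_preimage hB.nullMeasurableSet]
      simpa [ae_iff, hx1, Set.preimage] using hx2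
    have h2 := Measure.sub_mem_nhds_zero_of_addHaar_pos volume _
      (hE.inter (hB.preimage (measurable_id.sub_const t))) (pos_iff_ne_zero.2 ht)
    obtain ⟨V, hV1, hV2, hV3⟩ := mem_nhds_iff.1 h2
    obtain ⟨d, hd1, hd2⟩ := hD'.inter_open_nonempty {d | d - t ∈ V}
      (hV2.preimage (by fun_prop)) ⟨t, by simpa using hV3⟩
    obtain ⟨x, hx, y, hy, hxy⟩ := hV1 hd1
    refine hx.1 d hd2 ?_
    have : x - d = y - t := by
      have : x - y = d - t := hxy
      linarith
    rw [this]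
    exact hy.2

variable {I : Set ℝ → Prop}

theorem pettis (hI : Idl I) {G H : AddSubgroup ℝ} (hHG : H ≤ G) {p : ℕ} (hp : 0 < p)
    (h1 : ∀ g ∈ G, (p : ℝ) * g ∈ H) (hG : ¬ I G) {B : Set ℝ} (hB : MeasurableSet B)
    (h2 : ∀ g ∈ G, g ∈ B ↔ g ∈ H) : G ≤ H := by
  have hp' : (p : ℝ) ≠ 0 := by positivity
  have hH : ¬ I H := fun h => hG (hI.mono (t := (fun x : ℝ => (p : ℝ)⁻¹ * x) '' H)
    (fun g hg => ⟨p * g, h1 g hg, by simp [hp']⟩)
    (hI.img _ (Homeomorph.mulLeft₀ (p : ℝ)⁻¹ (inv_ne_zero hp')).isInducing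
      (show Differentiable ℝ fun x : ℝ => (p : ℝ)⁻¹ * x by fun_prop) h))
  have hd : Dense (H : Set ℝ) := H.dense_or_cyclic.resolve_right (by
    rintro ⟨a, rfl⟩
    refine hH (hI.cnt ((countable_range fun n : ℤ => n • a).mono fun x hx => ?_))
    exact AddSubgroup.mem_closure_singleton.1 hx)
  obtain ⟨D, hD1, hD2, hD3⟩ := hd.exists_countable_dense_subset
  have h3 := hI.zo hB (fun h => hH (hI.mono (fun g hg => (h2 g (hHG hg)).2 hg) h)) hD2 hD3
  intro g hg
  by_contra hgH
  refine hH (hI.mono (t := (fun x : ℝ => x + -g) '' {x | ∀ d ∈ D, x - d ∉ B})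
    (fun x hx => ⟨x + g, fun d hd hb => hgH ?_, by simp⟩)
    (hI.img _ (Homeomorph.addRight (-g)).isInducing
      (show Differentiable ℝ fun x : ℝ => x + -g by fun_prop) h3))
  have h4 := (h2 _ (G.sub_mem (G.add_mem (hHG hx) hg) (hHG (hD1 hd)))).1 hb
  have := H.sub_mem (H.add_mem h4 (hD1 hd)) hx
  simpa using this

theorem grp_lemma (hI : Idl I) {k : Type} [Field k] (S : Subfield k) (E : ℝ → k)
    (hE : ∀ x y, E (x + y) = E x * E y) (hE0 : E 0 = 1) {p : ℕ} (hp : 0 < p)
    (hG : ¬ I {θ | E θ ∈ S}) {B : Set ℝ} (hB : MeasurableSet B)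
    (h2 : ∀ θ, E θ ∈ S → (θ ∈ B ↔ ∃ w ∈ S, w ^ p = E θ)) :
    ∀ θ, E θ ∈ S → ∃ w ∈ S, w ^ p = E θ := by
  have hneg : ∀ x, E (-x) = (E x)⁻¹ := fun x =>
    eq_inv_of_mul_eq_one_left (by rw [← hE, neg_add_cancel, hE0])
  have hpow : ∀ (n : ℕ) x, E (n * x) = E x ^ n := fun n x => by
    induction n with
    | zero => simpa using hE0
    | succ n ih => rw [Nat.cast_succ, add_mul, one_mul, hE, ih, pow_succ]
  let G : AddSubgroup ℝ :=
    { carrier := {θ | E θ ∈ S}
      add_mem' := fun {a b} ha hb => show E (a + b) ∈ S from hE a b ▸ S.mul_mem ha hb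
      zero_mem' := show E 0 ∈ S from hE0 ▸ S.one_mem
      neg_mem' := fun {a} ha => show E (-a) ∈ S from hneg a ▸ S.inv_mem ha }
  let H : AddSubgroup ℝ :=
    { carrier := {θ | ∃ w ∈ S, w ^ p = E θ}
      add_mem' := by
        rintro a b ⟨w, hw, ha⟩ ⟨w', hw', hb⟩
        exact ⟨w * w', S.mul_mem hw hw', by rw [mul_pow, ha, hb, hE]⟩
      zero_mem' := ⟨1, S.one_mem, by simp [hE0]⟩
      neg_mem' := by
        rintro a ⟨w, hw, ha⟩
        exact ⟨w⁻¹, S.inv_mem hw, by rw [inv_pow, ha, hneg]⟩ }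
  exact fun θ hθ => pettis hI (G := G) (H := H)
    (fun θ ⟨w, hw, h⟩ => show E θ ∈ S from h ▸ S.pow_mem hw p) hp
    (fun g hg => ⟨E g, hg, (hpow p g).symm⟩) hG hB h2 hθ

theorem BorelIn.exists {K : Subfield ℝ} {D : Set K} (h : BorelIn K D) :
    ∃ B : Set ℝ, MeasurableSet B ∧ ∀ x : K, x ∈ D ↔ (x : ℝ) ∈ B := by
  have h1 := induced_orderTopology (α := K) (β := ℝ) Subtype.val (fun {x y} => Iff.rfl)
    (fun {x y} hxy => (exists_rat_btwn hxy).elim fun q hq => ⟨(q : K), by simpa using hq⟩)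
  unfold BorelIn at h
  rw [← @OrderTopology.topology_eq_generate_intervals K
    (TopologicalSpace.induced Subtype.val inferInstance) _ h1, borel_comap] at h
  obtain ⟨B, hB, rfl⟩ := h
  exact ⟨B, hB, fun x => Iff.rfl⟩

/-- complex numbers with both coordinates in `L` -/
def cx (L : Subfield ℝ) : Subfield ℂ where
  carrier := {w | w.re ∈ L ∧ w.im ∈ L}
  mul_mem' := fun ha hb => ⟨L.sub_mem (L.mul_mem ha.1 hb.1) (L.mul_mem ha.2 hb.2),
    L.add_mem (L.mul_mem ha.1 hb.2) (L.mul_mem ha.2 hb.1)⟩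
  one_mem' := ⟨L.one_mem, L.zero_mem⟩
  add_mem' := fun ha hb => ⟨L.add_mem ha.1 hb.1, L.add_mem ha.2 hb.2⟩
  zero_mem' := ⟨L.zero_mem, L.zero_mem⟩
  neg_mem' := fun ha => ⟨L.neg_mem ha.1, L.neg_mem ha.2⟩
  inv_mem' := fun a ha => by
    have h := L.add_mem (L.mul_mem ha.1 ha.1) (L.mul_mem ha.2 ha.2)
    refine ⟨?_, ?_⟩
    · rw [Complex.inv_re]; exact L.div_mem ha.1 h
    · rw [Complex.inv_im]; exact L.div_mem (L.neg_mem ha.2) h

theorem pow_poly (L : Subfield ℝ) (e : ℕ → L) (p : ℕ) : ∃ f g : (ℕ → L) → L, Pl e f ∧ Pl e g ∧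
    ∀ v, (⟨v 0, v 1⟩ : ℂ) ^ p = ⟨f v, g v⟩ := by
  induction p with
  | zero => exact ⟨_, _, Pl.one, Pl.zero, fun v => rfl⟩
  | succ p ih =>
    obtain ⟨f, g, hf, hg, h⟩ := ih
    exact ⟨_, _, (hf.mul (Pl.var 0)).sub (hg.mul (Pl.var 1)),
      (hf.mul (Pl.var 1)).add (hg.mul (Pl.var 0)), fun v => by rw [pow_succ, h]; rfl⟩

theorem non_borel (hI : Idl I) {L : Subfield ℝ} (hL : ¬ I L) {p : ℕ} (hp : 0 < p)
    (h : Alt L p) : ∃ D : Set L, Definable D ∧ ¬ BorelIn L D := by
  rcases h with ⟨a, ha, ha0, h⟩ | ⟨hodd, z, hz1, hz2, hz3, h⟩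
  · refine ⟨_, (Df.eq (e := fun _ => (0 : L)) ((Pl.var 0).pow p) (Pl.var 1)).ex.definable,
      fun hB => ?_⟩
    obtain ⟨B, hB, hBD⟩ := hB.exists
    obtain ⟨w, hw, hw'⟩ := grp_lemma hI L Real.exp Real.exp_add Real.exp_zero hp (fun h' => by
      have h1 := hI.img _ Real.isOpenEmbedding_exp.isInducing Real.differentiable_exp h'
      have h2 := hI.img _ (Homeomorph.neg ℝ).isInducing differentiable_neg h1
      refine hL (hI.mono (fun x hx => ?_) (hI.union (hI.union h1 h2) (hI.cnt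
        (countable_singleton 0))))
      rcases lt_trichotomy x 0 with h3 | h3 | h3
      · refine Or.inl (Or.inr ⟨-x, ⟨Real.log (-x), ?_, Real.exp_log (by linarith)⟩, by simp⟩)
        rw [mem_ofPred_eq, Real.exp_log (by linarith)]
        exact L.neg_mem hx
      · exact Or.inr h3
      · refine Or.inl (Or.inl ⟨Real.log x, ?_, Real.exp_log h3⟩)
        rw [mem_ofPred_eq, Real.exp_log h3]
        exact hx) (hB.preimage Real.measurable_exp) (fun θ hθ => by
      rw [mem_preimage, ← hBD ⟨_, hθ⟩]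
      exact ⟨fun ⟨y, hy⟩ => ⟨y, y.2, congrArg Subtype.val hy⟩,
        fun ⟨y, hy, h'⟩ => ⟨⟨y, hy⟩, Subtype.ext h'⟩⟩) (Real.log a) (by rwa [Real.exp_log ha0])
    exact h w hw (by rw [hw', Real.exp_log ha0])
  · obtain ⟨f, g, hf, hg, hfg⟩ := pow_poly L (fun _ => 0) p
    have h1 := Pl.one.add ((Pl.var (e := fun _ => (0 : L)) 2).pow 2)
    refine ⟨_, ((Df.eq (hf.mul h1) (Pl.one.sub ((Pl.var 2).pow 2))).and
      (Df.eq (hg.mul h1) ((Pl.var 2).add (Pl.var 2)))).ex.ex.definable, fun hB => ?_⟩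
    obtain ⟨B, hB, hBD⟩ := hB.exists
    have hre : ∀ θ : ℝ, (Complex.exp (θ * Complex.I)).re = Real.cos θ := Complex.exp_ofReal_mul_I_re
    have him : ∀ θ : ℝ, (Complex.exp (θ * Complex.I)).im = Real.sin θ := Complex.exp_ofReal_mul_I_im
    obtain ⟨w, hw, hw'⟩ := grp_lemma hI (cx L) (fun θ => Complex.exp (θ * Complex.I))
      (fun x y => by rw [← Complex.exp_add]; push_cast; ring_nf) (by simp) hp (fun h' => by
      refine hL (hI.mono (fun t ht => ?_) (hI.tan h'))
      have h2 := L.div_mem L.one_mem (L.add_mem L.one_mem (L.pow_mem ht 2))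
      have h3 := L.add_mem L.one_mem L.one_mem
      rw [one_add_one_eq_two] at h3
      refine ⟨?_, ?_⟩
      · rw [hre, Real.cos_two_mul, Real.cos_sq_arctan]
        exact L.sub_mem (L.mul_mem h3 h2) L.one_mem
      · have h4 : Real.sin (2 * Real.arctan t) = 2 * t * (1 / (1 + t ^ 2)) := by
          rw [Real.sin_two_mul, ← Real.cos_sq_arctan, ← Real.tan_mul_cos
            (Real.cos_arctan_pos t).ne', Real.tan_arctan]
          ring
        rw [him, h4]
        exact L.mul_mem (L.mul_mem h3 ht) h2)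
      (B := {θ | 1 + Real.cos θ = 0} ∪ (fun θ => Real.sin θ / (1 + Real.cos θ)) ⁻¹' B)
      ((measurableSet_eq_fun (by fun_prop) measurable_const).union (hB.preimage (by fun_prop)))
      (fun θ hθ => by
      have hc : Real.cos θ ∈ L := hre θ ▸ hθ.1
      have hs : Real.sin θ ∈ L := him θ ▸ hθ.2
      have hcs := Real.sin_sq_add_cos_sq θ
      by_cases h0 : 1 + Real.cos θ = 0
      · refine iff_of_true (Or.inl h0) ⟨-1, (cx L).neg_mem (cx L).one_mem, ?_⟩
        rw [hodd.neg_one_pow]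
        refine Complex.ext (by rw [hre]; simp; linarith) (by
          rw [him]
          have : Real.sin θ ^ 2 = 0 := by
            rw [show Real.cos θ = -1 by linarith] at hcs
            linarith
          simpa using (pow_eq_zero_iff two_ne_zero).1 this |>.symm)
      · let t : L := ⟨Real.sin θ / (1 + Real.cos θ), L.div_mem hs (L.add_mem L.one_mem hc)⟩
        have ht : (t : ℝ) = Real.sin θ / (1 + Real.cos θ) := rfl
        have e0 : (1 + (t : ℝ) ^ 2) ≠ 0 := by positivity
        have e1 : Real.cos θ * (1 + (t : ℝ) ^ 2) = 1 - t ^ 2 := by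
          rw [ht]; field_simp; linear_combination (1 + Real.cos θ) * hcs
        have e2 : Real.sin θ * (1 + (t : ℝ) ^ 2) = t + t := by
          rw [ht]; field_simp; linear_combination Real.sin θ * hcs
        simp only [mem_union, mem_ofPred_eq, h0, false_or, mem_preimage]
        rw [← ht, ← hBD t]
        constructor
        · rintro ⟨y, x, k1, k2⟩
          refine ⟨⟨x, y⟩, ⟨x.2, y.2⟩, (hfg (cons x (cons y fun _ => t))).trans
            (Complex.ext ?_ ?_)⟩
          · rw [hre]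
            exact mul_right_cancel₀ e0 ((congrArg Subtype.val k1).trans e1.symm)
          · rw [him]
            exact mul_right_cancel₀ e0 ((congrArg Subtype.val k2).trans e2.symm)
        · rintro ⟨w, hw, k⟩
          have k' := (hfg (cons ⟨w.re, hw.1⟩ (cons ⟨w.im, hw.2⟩ fun _ => t))).symm.trans k
          refine ⟨⟨w.im, hw.2⟩, ⟨w.re, hw.1⟩, Subtype.ext ?_, Subtype.ext ?_⟩
          · have := congrArg Complex.re k'
            rw [hre] at this
            exact (congrArg (· * (1 + (t : ℝ) ^ 2)) this).trans e1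
          · have := congrArg Complex.im k'
            rw [him] at this
            exact (congrArg (· * (1 + (t : ℝ) ^ 2)) this).trans e2)
      z.arg (by
        have := Complex.norm_mul_exp_arg_mul_I z
        rw [hz3, Complex.ofReal_one, one_mul] at this
        rw [this]
        exact ⟨hz1, hz2⟩)
    have := Complex.norm_mul_exp_arg_mul_I z
    rw [hz3, Complex.ofReal_one, one_mul] at this
    exact h w hw.1 hw.2 (hw'.trans this)

end Pool.Agent.MP_96eeb0_lc.H32
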