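import Pool.Agent.MP_96eeb0_lc.H32.Oct

/-! Preorderings, orderings, real values at an ordering; the abstract isolation lemma. -/

namespace Pool.Agent.MP_96eeb0_lc.H32

variable {F : Type} [Field F]

structure Pre (T : Set F) : Prop where
  add : ∀ {x y}, x ∈ T → y ∈ T → x + y ∈ T
  mul : ∀ {x y}, x ∈ T → y ∈ T → x * y ∈ T
  sq : ∀ x, x ^ 2 ∈ T
  neg : (-1 : F) ∉ T

variable {T Q : Set F}

theorem Pre.inv (h : Pre T) {x : F} (hx : x ∈ T) : x⁻¹ ∈ T := by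
  by_cases h0 : x = 0
  · simpa [h0] using hx
  · have e1 : x⁻¹ = x * x⁻¹ ^ 2 := by field_simp
    rw [e1]
    exact h.mul hx (h.sq _)

theorem Pre.anti (h : Pre T) {x : F} (hx : x ∈ T) (hx' : -x ∈ T) : x = 0 := by
  by_contra h0
  apply h.neg
  have e1 : (-1 : F) = -x * x⁻¹ := by field_simp
  rw [e1]
  exact h.mul hx' (h.inv hx)

theorem Pre.n8 (h : Pre T) {u : F} (hu : u ∈ T) (a : ℕ → F) : N8 u a ∈ T :=
  h.add (h.add (h.add (h.add (h.sq _) (h.sq _)) (h.sq _)) (h.sq _))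
    (h.mul hu (h.add (h.add (h.add (h.sq _) (h.sq _)) (h.sq _)) (h.sq _)))

theorem Pre.zero (h : Pre T) : (0 : F) ∈ T := by simpa using h.sq 0
theorem Pre.one (h : Pre T) : (1 : F) ∈ T := by simpa using h.sq 1

theorem Pre.adj (h : Pre T) {a : F} (ha : -a ∉ T) :
    Pre {x | ∃ s ∈ T, ∃ t ∈ T, x = s + a * t} where
  add := by
    rintro _ _ ⟨s, hs, t, ht, rfl⟩ ⟨s', hs', t', ht', rfl⟩
    exact ⟨s + s', h.add hs hs', t + t', h.add ht ht', by ring⟩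
  mul := by
    rintro _ _ ⟨s, hs, t, ht, rfl⟩ ⟨s', hs', t', ht', rfl⟩
    exact ⟨s * s' + a ^ 2 * (t * t'), h.add (h.mul hs hs') (h.mul (h.sq a) (h.mul ht ht')),
      s * t' + t * s', h.add (h.mul hs ht') (h.mul ht hs'), by ring⟩
  sq := fun x => ⟨x ^ 2, h.sq x, 0, h.zero, by ring⟩
  neg := by
    rintro ⟨s, hs, t, ht, he⟩
    by_cases h0 : t = 0
    · apply h.neg
      rw [he, h0]
      simpa using hs
    · apply ha
      have e1 : -a = (1 + s) * t⁻¹ := by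
        field_simp
        linear_combination he
      rw [e1]
      exact h.mul (h.add h.one hs) (h.inv ht)

def Tot (Q : Set F) : Prop := Pre Q ∧ ∀ x, x ∈ Q ∨ -x ∈ Q

theorem Pre.exists_tot (h : Pre T) : ∃ Q, T ⊆ Q ∧ Tot Q := by
  obtain ⟨Q, hTQ, hQ⟩ := zorn_subset_nonempty {S : Set F | Pre S} (fun c hc hch hne => by
    refine ⟨⋃₀ c, ⟨?_, ?_, ?_, ?_⟩, fun s hs => Set.subset_sUnion_of_mem hs⟩
    · rintro x y ⟨s, hs, hx⟩ ⟨t, ht, hy⟩
      rcases hch.total hs ht with h1 | h1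
      · exact ⟨t, ht, (hc ht).add (h1 hx) hy⟩
      · exact ⟨s, hs, (hc hs).add hx (h1 hy)⟩
    · rintro x y ⟨s, hs, hx⟩ ⟨t, ht, hy⟩
      rcases hch.total hs ht with h1 | h1
      · exact ⟨t, ht, (hc ht).mul (h1 hx) hy⟩
      · exact ⟨s, hs, (hc hs).mul hx (h1 hy)⟩
    · intro x
      obtain ⟨s, hs⟩ := hne
      exact ⟨s, hs, (hc hs).sq x⟩
    · rintro ⟨s, hs, hx⟩
      exact (hc hs).neg hx) T h
  refine ⟨Q, hTQ, hQ.prop, fun x => ?_⟩
  by_contra hc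
  push Not at hc
  have h1 : Pre Q := hQ.prop
  have h2 := hQ.le_of_ge (h1.adj hc.2) (fun s hs => ⟨s, hs, 0, h1.zero, by ring⟩)
  exact hc.1 (h2 ⟨0, h1.zero, 1, h1.one, by ring⟩)

variable [CharZero F]

theorem Pre.rat (h : Pre T) {r : ℚ} (hr : 0 ≤ r) : (r : F) ∈ T := by
  obtain ⟨a, ha⟩ := G8.add_rat (0 : F) hr
  rw [zero_add] at ha
  rw [ha]
  exact h.n8 h.zero a

theorem Pre.rat_nonneg (h : Pre T) {r : ℚ} (hr : (r : F) ∈ T) : 0 ≤ r := by
  by_contra hc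
  have h1 := h.rat (r := -r) (by linarith)
  push_cast at h1
  have := h.anti hr h1
  have h2 : r = 0 := by exact_mod_cast this
  exact hc h2.ge

/-- `x` has real value `ρ` at the ordering `Q` -/
def Val (Q : Set F) (x : F) (ρ : ℝ) : Prop :=
  ∀ p : ℚ, ((p : ℝ) < ρ → x - p ∈ Q) ∧ (ρ < p → p - x ∈ Q)

theorem Val.le (hQ : Pre Q) {x : F} {ρ : ℝ} (h : Val Q x ρ) {p : ℚ} (hp : x - p ∈ Q) :
    (p : ℝ) ≤ ρ := by
  by_contra hc
  obtain ⟨r, h1, h2⟩ := exists_rat_btwn (not_le.1 hc)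
  have h3 := hQ.add hp ((h r).2 h1)
  have e1 : x - p + (r - x) = ((r - p : ℚ) : F) := by push_cast; ring
  rw [e1] at h3
  have h4 := hQ.rat_nonneg h3
  have h5 : r < p := by exact_mod_cast h2
  linarith

theorem Val.ge (hQ : Pre Q) {x : F} {ρ : ℝ} (h : Val Q x ρ) {p : ℚ} (hp : p - x ∈ Q) :
    ρ ≤ (p : ℝ) := by
  by_contra hc
  obtain ⟨r, h1, h2⟩ := exists_rat_btwn (not_le.1 hc)
  have h3 := hQ.add hp ((h r).1 h2)
  have e1 : p - x + (x - r) = ((p - r : ℚ) : F) := by push_cast; ring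
  rw [e1] at h3
  have h4 := hQ.rat_nonneg h3
  have h5 : p < r := by exact_mod_cast h1
  linarith

theorem exists_val (hQ : Tot Q) {x : F} {p q : ℚ} (hp : x - p ∈ Q) (hq : q - x ∈ Q) :
    ∃ ρ, Val Q x ρ := by
  let S : Set ℝ := {y | ∃ r : ℚ, x - r ∈ Q ∧ y = r}
  have hb : BddAbove S := by
    refine ⟨q, ?_⟩
    rintro _ ⟨r, hr, rfl⟩
    have h3 := hQ.1.add hr hq
    have e1 : x - r + (q - x) = ((q - r : ℚ) : F) := by push_cast; ring
    rw [e1] at h3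
    have h4 := hQ.1.rat_nonneg h3
    exact_mod_cast (by linarith : r ≤ q)
  refine ⟨sSup S, fun r => ⟨fun h => ?_, fun h => ?_⟩⟩
  · obtain ⟨_, ⟨r', hr', rfl⟩, h2⟩ := exists_lt_of_lt_csSup (s := S) ⟨_, p, hp, rfl⟩ h
    have h3 : r < r' := by exact_mod_cast h2
    have e1 : x - r = x - r' + ((r' - r : ℚ) : F) := by push_cast; ring
    rw [e1]
    exact hQ.1.add hr' (hQ.1.rat (by linarith))
  · rcases hQ.2 (x - r) with h1 | h1
    · exact absurd (le_csSup hb ⟨r, h1, rfl⟩) (not_le.2 h)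
    · simpa using h1

theorem Val.shift (hQ : Tot Q) {x z : F} {ρ : ℝ} (h : Val Q x ρ) {lo hi : ℚ} (h1 : z - lo ∈ Q)
    (h2 : hi - z ∈ Q) : ∃ ρ', Val Q (x + z) ρ' ∧ ρ + lo ≤ ρ' ∧ ρ' ≤ ρ + hi := by
  have k1 : ∀ p : ℚ, (p : ℝ) < ρ → x + z - ((p + lo : ℚ) : F) ∈ Q := fun p hp => by
    have e1 : x + z - ((p + lo : ℚ) : F) = x - p + (z - lo) := by push_cast; ring
    rw [e1]
    exact hQ.1.add ((h p).1 hp) h1
  have k2 : ∀ p : ℚ, ρ < (p : ℝ) → ((p + hi : ℚ) : F) - (x + z) ∈ Q := fun p hp => by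
    have e1 : ((p + hi : ℚ) : F) - (x + z) = p - x + (hi - z) := by push_cast; ring
    rw [e1]
    exact hQ.1.add ((h p).2 hp) h2
  obtain ⟨p, hp⟩ := exists_rat_lt ρ
  obtain ⟨q, hq⟩ := exists_rat_gt ρ
  obtain ⟨ρ', hρ'⟩ := exists_val hQ (k1 p hp) (k2 q hq)
  refine ⟨ρ', hρ', ?_, ?_⟩
  · by_contra hc
    obtain ⟨r, h3, h4⟩ := exists_rat_btwn (show ρ' - lo < ρ by linarith)
    have := hρ'.le hQ.1 (k1 r h4)
    push_cast at this
    linarith
  · by_contra hc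
    obtain ⟨r, h3, h4⟩ := exists_rat_btwn (show ρ < ρ' - hi by linarith)
    have := hρ'.ge hQ.1 (k2 r h3)
    push_cast at this
    linarith

/-- `P` is a limit of other orderings -/
def Lim (P : Set F) : Prop :=
  ∀ a ∈ P, a ≠ 0 → ∃ Q, Tot Q ∧ a ∈ Q ∧ ∃ w, 2 * w - 1 ∈ P ∧ 2 - w ∈ P ∧ -w ∈ Q

theorem bump {P : Set F} (hP : Tot P) (hQ : Tot Q) {w : F} (h1 : 2 * w - 1 ∈ P) (h2 : 2 - w ∈ P)
    (h3 : -w ∈ Q) : ∃ y : F, (∀ R, Pre R → y + 1 ∈ R ∧ 1 - y ∈ R) ∧ y - 2 / 5 ∈ P ∧ -y ∈ Q := by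
  have hpos : ∀ R, Pre R → (1 + w ^ 2)⁻¹ ∈ R := fun R hR => hR.inv (hR.add hR.one (hR.sq w))
  have h0 : 1 + w ^ 2 ≠ 0 := fun h => hP.1.neg (by
    have e1 : (-1 : F) = w ^ 2 := by linear_combination -h
    rw [e1]
    exact hP.1.sq w)
  refine ⟨w * (1 + w ^ 2)⁻¹, fun R hR => ⟨?_, ?_⟩, ?_, ?_⟩
  · have e1 : w * (1 + w ^ 2)⁻¹ + 1 = ((w + 1 / 2) ^ 2 + ((3 / 4 : ℚ) : F)) * (1 + w ^ 2)⁻¹ := by
      push_cast; field_simp; ring
    rw [e1]
    exact hR.mul (hR.add (hR.sq _) (hR.rat (by norm_num))) (hpos R hR)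
  · have e1 : 1 - w * (1 + w ^ 2)⁻¹ = ((w - 1 / 2) ^ 2 + ((3 / 4 : ℚ) : F)) * (1 + w ^ 2)⁻¹ := by
      push_cast; field_simp; ring
    rw [e1]
    exact hR.mul (hR.add (hR.sq _) (hR.rat (by norm_num))) (hpos R hR)
  · have e1 : w * (1 + w ^ 2)⁻¹ - 2 / 5
        = (2 * w - 1) * (2 - w) * ((1 / 5 : ℚ) : F) * (1 + w ^ 2)⁻¹ := by
      push_cast; field_simp; ring
    rw [e1]
    exact hP.1.mul (hP.1.mul (hP.1.mul h1 h2) (hP.1.rat (by norm_num))) (hpos P hP.1)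
  · rw [← neg_mul]
    exact hQ.1.mul h3 (hpos Q hQ.1)

theorem many_vals {P : Set F} (hP : Tot P) (hL : Lim P) (k : ℕ) :
    ∃ (x : F) (Q : ℕ → Set F) (ρ : ℕ → ℝ) (δ : ℝ), 0 < δ ∧ Q 0 = P ∧
      (∀ i ≤ k, Tot (Q i) ∧ Val (Q i) x (ρ i)) ∧
      ∀ i ≤ k, ∀ j ≤ k, i ≠ j → δ ≤ |ρ i - ρ j| := by
  induction k with
  | zero =>
    refine ⟨0, fun _ => P, fun _ => 0, 1, one_pos, rfl, fun i _ => ⟨hP, fun p => ⟨fun h => ?_,
      fun h => ?_⟩⟩, fun i hi j hj h => by omega⟩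
    · have h1 : p < 0 := by exact_mod_cast (show (p : ℝ) < 0 from h)
      simpa using hP.1.rat (r := -p) (by linarith)
    · have h1 : 0 < p := by exact_mod_cast (show (0 : ℝ) < p from h)
      simpa using hP.1.rat (r := p) (by linarith)
  | succ k ih =>
    obtain ⟨x, Q, ρ, δ, hδ, hQ0, hV, hgap⟩ := ih
    have hV0 : Val P x (ρ 0) := hQ0 ▸ (hV 0 (Nat.zero_le _)).2
    obtain ⟨p, hp1, hp2⟩ := exists_rat_btwn (show ρ 0 - δ / 4 < ρ 0 by linarith)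
    obtain ⟨q, hq1, hq2⟩ := exists_rat_btwn (show ρ 0 < ρ 0 + δ / 4 by linarith)
    have hu := (hV0 p).1 hp2
    have hv := (hV0 q).2 hq1
    have hu0 : x - p ≠ 0 := fun h => by
      have := hV0.ge hP.1 (p := p) (by rw [← neg_sub, h]; simpa using hP.1.zero)
      linarith
    have hv0 : q - x ≠ 0 := fun h => by
      have := hV0.le hP.1 (p := q) (by rw [← neg_sub, h]; simpa using hP.1.zero)
      linarith
    obtain ⟨R, hR, haR, w, hw1, hw2, hw3⟩ := hL _ (hP.1.mul hu hv) (mul_ne_zero hu0 hv0)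
    have hpq : p < q := by exact_mod_cast hp2.trans hq1
    have hd : ((q - p : ℚ) : F) ≠ 0 := by exact_mod_cast (sub_pos.2 hpq).ne'
    have hdi := hR.1.inv (hR.1.rat (r := q - p) (by linarith))
    have huR : x - p ∈ R := by
      have e1 : x - p = ((x - p) ^ 2 + (x - p) * (q - x)) * ((q - p : ℚ) : F)⁻¹ := by
        field_simp; push_cast; ring
      rw [e1]
      exact hR.1.mul (hR.1.add (hR.1.sq _) haR) hdi
    have hvR : q - x ∈ R := by
      have e1 : q - x = ((q - x) ^ 2 + (x - p) * (q - x)) * ((q - p : ℚ) : F)⁻¹ := by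
        field_simp; push_cast; ring
      rw [e1]
      exact hR.1.mul (hR.1.add (hR.1.sq _) haR) hdi
    obtain ⟨τ, hτ⟩ := exists_val hR huR hvR
    have hτ1 := hτ.le hR.1 huR
    have hτ2 := hτ.ge hR.1 hvR
    obtain ⟨y, hy1, hy2, hy3⟩ := bump hP hR hw1 hw2 hw3
    obtain ⟨ε, hε1, hε2⟩ := exists_rat_btwn (show (0 : ℝ) < δ / 8 by linarith)
    have hε : 0 < ε := by exact_mod_cast hε1
    have hsc : ∀ S, Pre S → ∀ t ∈ S, (ε : F) * t ∈ S := fun S hS t ht => hS.mul (hS.rat hε.le) ht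
    -- the perturbation
    obtain ⟨z, hz, ρ0, τ0, hρ0, hτ0, hb1, hb2, hb3⟩ : ∃ z : F,
        (∀ S, Pre S → z - ((-ε : ℚ) : F) ∈ S ∧ (ε : F) - z ∈ S) ∧ ∃ ρ0 τ0 : ℝ,
        Val P (x + z) ρ0 ∧ Val R (x + z) τ0 ∧ |ρ0 - ρ 0| ≤ ε ∧ |τ0 - τ| ≤ ε ∧
        2 / 5 * ε ≤ |ρ0 - τ0| := by
      have b1 : ∀ S, Pre S → (ε : F) * y - ((-ε : ℚ) : F) ∈ S ∧ (ε : F) - ε * y ∈ S :=
        fun S hS => ⟨by simpa [mul_add] using hsc S hS _ (hy1 S hS).1,
          by simpa [mul_sub] using hsc S hS _ (hy1 S hS).2⟩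
      rcases le_total τ (ρ 0) with h | h
      · obtain ⟨ρ0, k1, k2, k3⟩ := hV0.shift hP (z := ε * y) (lo := 2 / 5 * ε) (hi := ε)
          (by
            have := hsc P hP.1 _ hy2
            have e1 : (ε : F) * y - ((2 / 5 * ε : ℚ) : F) = ε * (y - 2 / 5) := by
              push_cast; ring
            rwa [e1]) (b1 P hP.1).2
        obtain ⟨τ0, l1, l2, l3⟩ := hτ.shift hR (z := ε * y) (lo := -ε) (hi := 0)
          (b1 R hR.1).1 (by simpa using hsc R hR.1 _ hy3)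
        push_cast at k2 l2 l3
        exact ⟨ε * y, b1, ρ0, τ0, k1, l1, abs_le.2 ⟨by linarith, by linarith⟩,
          abs_le.2 ⟨by linarith, by linarith⟩, le_abs.2 (Or.inl (by linarith))⟩
      · have b2 : ∀ S, Pre S → -((ε : F) * y) - ((-ε : ℚ) : F) ∈ S ∧ (ε : F) - -(ε * y) ∈ S :=
          fun S hS => ⟨by simpa [add_comm, sub_eq_add_neg] using (b1 S hS).2,
            by simpa [add_comm] using (b1 S hS).1⟩
        obtain ⟨ρ0, k1, k2, k3⟩ := hV0.shift hP (z := -(ε * y)) (lo := -ε) (hi := -(2 / 5 * ε))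
          (b2 P hP.1).1 (by
            have := hsc P hP.1 _ hy2
            have e1 : ((-(2 / 5 * ε) : ℚ) : F) - -(ε * y) = ε * (y - 2 / 5) := by
              push_cast; ring
            rwa [e1])
        obtain ⟨τ0, l1, l2, l3⟩ := hτ.shift hR (z := -(ε * y)) (lo := 0) (hi := ε)
          (by simpa using hsc R hR.1 _ hy3) (b2 R hR.1).2
        push_cast at k2 k3 l2
        exact ⟨-(ε * y), b2, ρ0, τ0, k1, l1, abs_le.2 ⟨by linarith, by linarith⟩,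
          abs_le.2 ⟨by linarith, by linarith⟩, le_abs.2 (Or.inr (by linarith))⟩
    have hnew : ∀ i, ∃ ρ', i ≤ k → Val (Q i) (x + z) ρ' ∧ |ρ' - ρ i| ≤ ε ∧ (i = 0 → ρ' = ρ0) := by
      intro i
      by_cases hi0 : i = 0
      · subst hi0
        exact ⟨ρ0, fun _ => ⟨hQ0 ▸ hρ0, hb1, fun _ => rfl⟩⟩
      by_cases hi : i ≤ k
      · obtain ⟨ρ', k1, k2, k3⟩ := (hV i hi).2.shift (hV i hi).1 (hz _ (hV i hi).1.1).1
          (hz _ (hV i hi).1.1).2
        push_cast at k2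
        exact ⟨ρ', fun _ => ⟨k1, abs_le.2 ⟨by linarith, by linarith⟩, fun h => absurd h hi0⟩⟩
      · exact ⟨0, fun h => absurd h hi⟩
    choose ρ' hρ' using hnew
    have key : ∀ i ≤ k, 2 / 5 * ε ≤ |ρ' i - τ0| := by
      intro i hi
      by_cases hi0 : i = 0
      · rw [(hρ' i hi).2.2 hi0]; exact hb3
      · have g1 := hgap i hi 0 (Nat.zero_le _) hi0
        have g2 := abs_le.1 (hρ' i hi).2.1
        have g3 := abs_le.1 hb2
        rcases le_abs.1 g1 with g | g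
        · exact le_abs.2 (Or.inl (by linarith))
        · exact le_abs.2 (Or.inr (by linarith))
    refine ⟨x + z, fun i => if i ≤ k then Q i else R, fun i => if i ≤ k then ρ' i else τ0,
      2 / 5 * ε, by positivity, by simpa using hQ0, fun i _ => ?_, fun i hi j hj hij => ?_⟩
    · by_cases hi : i ≤ k
      · simpa [hi] using ⟨(hV i hi).1, (hρ' i hi).1⟩
      · simpa [hi] using ⟨hR, hτ0⟩
    · by_cases hi' : i ≤ k <;> by_cases hj' : j ≤ k
      · simp only [hi', hj', if_true]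
        have g1 := hgap i hi' j hj' hij
        have g2 := abs_le.1 (hρ' i hi').2.1
        have g3 := abs_le.1 (hρ' j hj').2.1
        rcases le_abs.1 g1 with g | g
        · exact le_abs.2 (Or.inl (by linarith))
        · exact le_abs.2 (Or.inr (by linarith))
      · simpa [hi', hj'] using key i hi'
      · simpa [hi', hj', abs_sub_comm] using key j hj'
      · omega

theorem few_vals {n : ℕ} (hQQ : QQ F n) (x : F) (Q : Fin n → Set F) (ρ : Fin n → ℝ)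
    (hV : ∀ i, Pre (Q i) ∧ Val (Q i) x (ρ i)) {δ : ℝ} (hδ : 0 < δ)
    (hgap : ∀ i j, i ≠ j → δ ≤ |ρ i - ρ j|) : False := by
  let σ := Tuple.sort ρ
  have hm : Monotone (ρ ∘ σ) := Tuple.monotone_sort ρ
  have h1 : ∀ i, ∃ p : ℚ, ρ (σ i) - δ / 2 < p ∧ p < ρ (σ i) := fun i =>
    exists_rat_btwn (by linarith)
  have h2 : ∀ i, ∃ p : ℚ, ρ (σ i) < p ∧ p < ρ (σ i) + δ / 2 := fun i =>
    exists_rat_btwn (by linarith)
  choose p hp using h1
  choose q hq using h2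
  obtain ⟨i, a, b, hab⟩ := hQQ x p q (fun i => by exact_mod_cast (hp i).2.trans (hq i).1)
    (fun i j hij => by
      have g1 := hgap (σ j) (σ i) (fun h => hij.ne' (σ.injective h))
      have g2 : ρ (σ i) ≤ ρ (σ j) := hm hij.le
      rw [abs_of_nonneg (by linarith)] at g1
      have : (q i : ℝ) < p j := by linarith [(hq i).2, (hp j).1]
      exact_mod_cast this)
  obtain ⟨hQ, hv⟩ := hV (σ i)
  have hu := (hv (p i)).1 (hp i).2
  have hw := (hv (q i)).2 (hq i).1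
  have h0 := hQ.anti (hQ.mul hu hw) (hab ▸ hQ.mul (hQ.n8 hu a) (hQ.n8 hw b))
  rcases mul_eq_zero.1 h0 with h | h
  · have := hv.ge hQ (p := p i) (by rw [← neg_sub, h]; simpa using hQ.zero)
    linarith [(hp i).2]
  · have := hv.le hQ (p := q i) (by rw [← neg_sub, h]; simpa using hQ.zero)
    linarith [(hq i).1]

theorem not_lim {n : ℕ} (hQQ : QQ F n) {P : Set F} (hP : Tot P) : ¬ Lim P := by
  intro hL
  obtain ⟨x, Q, ρ, δ, hδ, -, hV, hgap⟩ := many_vals hP hL n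
  exact few_vals hQQ x (fun i => Q i) (fun i => ρ i)
    (fun i => ⟨(hV i i.2.le).1.1, (hV i i.2.le).2⟩) hδ
    (fun i j h => hgap i i.2.le j j.2.le (fun h' => h (Fin.ext h')))

end Pool.Agent.MP_96eeb0_lc.H32
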