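import Pool.Agent.MP_96eeb0_lc.H32.Step
import Pool.Agent.MP_96eeb0_lc.H32.Henkin

/-! The transfinite recursion and the field of limits. -/

namespace Pool.Agent.MP_96eeb0_lc.H32
open Set Filter Function Cardinal Topology MvPolynomial

variable {K : Subfield ℝ} {ι : Type} {e : ℕ → K}

theorem fin_supp [LinearOrder ι] {A : (ℕ → K) → Prop} (hA : Df e A) (σ : ℕ → ι) :
    ∃ (τ : ℕ → ι) (m : ℕ), (∀ k, τ k ≤ σ m) ∧ ∀ w (v : ι → K),
      A (cons w fun k => v (σ k)) ↔ A (cons w fun k => v (τ k)) := by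
  obtain ⟨N, hN⟩ := hA.supp
  obtain ⟨m, -, hm⟩ := (Finset.range (N + 1)).exists_max_image σ ⟨0, by simp⟩
  refine ⟨fun k => σ (min k N), m, fun k => hm _ (by simp), fun w v => hN _ _ fun k hk => ?_⟩
  cases k with
  | zero => rfl
  | succ k => simp [show k ≤ N by omega]

theorem limit_type [LinearOrder ι] (he : OrdDf e) {I : Set ι} (hI : I.Nonempty)
    (U : ι → Ultrafilter (ι → K)) (h1 : ∀ i ∈ I, Gd e (Iic i) (U i))
    (h2 : ∀ j ∈ I, ∀ i < j, Ag e (Iic i) (U i) (U j)) :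
    ∃ V, Gd e I V ∧ ∀ i ∈ I, Ag e (Iic i) (U i) V := by
  have h3 : ∀ j ∈ I, ∀ i ≤ j, Ag e (Iic i) (U i) (U j) := fun j hj i h =>
    h.eq_or_lt.elim (fun h => h ▸ fun _ _ h => h) (h2 j hj i)
  let F : Filter (ι → K) :=
    { sets := {s | ∃ i ∈ I, ∃ C ∈ U i, Dn e (Iic i) C ∧ C ⊆ s}
      univ_sets := hI.elim fun i hi => ⟨i, hi, univ, univ_mem,
        ⟨_, fun _ => i, Df.triv, fun _ => le_rfl, fun _ => Iff.rfl⟩, Subset.rfl⟩
      sets_of_superset := fun ⟨i, hi, C, h, h', h''⟩ hs => ⟨i, hi, C, h, h', h''.trans hs⟩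
      inter_sets := fun ⟨i, hi, C, h, h', h''⟩ ⟨j, hj, D, k, k', k''⟩ => by
        have hm : max i j ∈ I := by rcases max_choice i j with h | h <;> rwa [h]
        exact ⟨max i j, hm, C ∩ D, inter_mem (h3 _ hm i (le_max_left _ _) C h' h)
          (h3 _ hm j (le_max_right _ _) D k' k), (h'.mono (Iic_subset_Iic.2 (le_max_left _ _))).inter
          (k'.mono (Iic_subset_Iic.2 (le_max_right _ _))), inter_subset_inter h'' k''⟩ }
  have : F.NeBot := ⟨fun h => by
    obtain ⟨i, -, C, h, -, h'⟩ : ∅ ∈ F := empty_mem_iff_bot.2 h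
    exact ((U i).nonempty_of_mem h).not_subset_empty h'⟩
  have h4 : ∀ i ∈ I, Ag e (Iic i) (U i) (Ultrafilter.of F) := fun i hi C hC h =>
    Ultrafilter.of_le F (show C ∈ F from ⟨i, hi, C, h, hC, Subset.rfl⟩)
  refine ⟨_, fun A σ hA hσ => ?_, h4⟩
  obtain ⟨τ, m, h5, h6⟩ := fin_supp hA σ
  obtain ⟨n, hn⟩ := h1 _ (hσ m) A τ hA h5
  refine ⟨n, mem_of_superset (h4 _ (hσ m) _ (dn_bs he hA h5 n) hn) fun v hv => ?_⟩
  simpa only [Bs, Bd, mem_ofPred_eq, cons_succ, cons_zero, h6] using hv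

theorem recursion [LinearOrder ι] [WellFoundedLT ι] [Nonempty ι] (he : OrdDf e)
    (P : ι → Ultrafilter (ι → K) → Prop) (hP : ∀ i U V, Ag e (Iic i) U V → P i U → P i V)
    (hs : ∀ i, (Iio i).Nonempty → ∀ U, Gd e (Iio i) U →
      ∃ W, Ag e (Iio i) U W ∧ Gd e (insert i (Iio i)) W ∧ P i W) :
    ∃ U, Gd e univ U ∧ ∀ i, (Iio i).Nonempty → P i U := by
  let Q : ∀ i, (∀ j < i, Ultrafilter (ι → K)) → Ultrafilter (ι → K) → Prop := fun i f W =>
    Gd e (Iic i) W ∧ ((Iio i).Nonempty → P i W) ∧ ∀ j (h : j < i), Ag e (Iic j) (f j h) W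
  let U : ι → Ultrafilter (ι → K) := wellFounded_lt.fix fun i f => Classical.epsilon (Q i f)
  have hU : ∀ i, Q i (fun j _ => U j) (U i) := fun i => by
    induction i using WellFoundedLT.induction with
    | ind i ih =>
      rw [show U i = Classical.epsilon (Q i fun j _ => U j) from wellFounded_lt.fix_eq _ i]
      refine Classical.epsilon_spec (p := Q i fun j _ => U j) ?_
      by_cases hi : (Iio i).Nonempty
      · obtain ⟨V, h1, h2⟩ := limit_type he hi U (fun j hj => (ih j hj).1)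
          fun j hj => (ih j hj).2.2
        obtain ⟨W, h3, h4, h5⟩ := hs i hi V h1
        exact ⟨W, Iio_insert (a := i) ▸ h4, fun _ => h5, fun j hj C hC h =>
          h3 C (hC.mono (Iic_subset_Iio.2 hj)) (h2 j hj C hC h)⟩
      · refine ⟨pure 0, fun A σ _ _ => ?_, fun h => absurd h hi, fun j hj => absurd ⟨j, hj⟩ hi⟩
        by_cases h : ∃ w, A (cons w fun k => (0 : ι → K) (σ k))
        · obtain ⟨w, hw⟩ := h
          obtain ⟨n, hn⟩ := exists_nat_ge ((w : ℝ) ^ 2)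
          exact ⟨n, fun _ => ⟨w, show w ^ 2 ≤ (n : K) by exact_mod_cast hn, hw⟩⟩
        · exact ⟨0, fun h' => absurd h' h⟩
  obtain ⟨V, h1, h2⟩ := limit_type he univ_nonempty U (fun i _ => (hU i).1)
    fun i _ => (hU i).2.2
  exact ⟨V, h1, fun i hi => hP i _ _ (h2 i trivial) ((hU i).2.1 hi)⟩

theorem limit_field' (U : Ultrafilter (ι → K)) (c : ι → ℝ) (i0 : ι)
    (hc : ∀ j, Tendsto (fun v : ι → K => (v j : ℝ)) U (𝓝 (c j)))
    (hH : ∀ B σ, Df e B → ∃ j, Hk B σ j ∈ U) :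
    ∃ K' : Subfield ℝ, (K' : Set ℝ) = range c ∧ ∀ (φ : Fm) (σ : ℕ → ι),
      SatR K' φ (fun k => c (σ k)) ↔ ∀ᶠ v in (U : Filter (ι → K)), Sat φ (fun k => v (σ k)) := by
  have hp : ∀ (σ : ℕ → ι) (p : MvPolynomial ℕ ℤ), Tendsto (fun v : ι → K =>
      ((aeval (fun k => v (σ k)) p : K) : ℝ)) U (𝓝 (aeval (fun k => c (σ k)) p)) := fun σ p => by
    induction p using MvPolynomial.induction_on with
    | C a => simp
    | add p q hp hq => simpa using hp.add hq
    | mul_X p i hp => simpa using hp.mul (hc _)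
  have hP : ∀ p : MvPolynomial ℕ ℤ, Pl e (fun w => aeval (fun k => w (k + 1)) p) := fun p =>
    Pl.poly p fun k => Pl.var (k + 1)
  have hval : ∀ (σ : ℕ → ι) (p : MvPolynomial ℕ ℤ), aeval (fun k => c (σ k)) p ∈ range c :=
    fun σ p => by
    obtain ⟨j, hj⟩ := hH _ σ (Df.eq (Pl.var 0) (hP p))
    refine ⟨j, tendsto_nhds_unique (hc j) ((hp σ p).congr' (mem_of_superset hj fun v hv => ?_))⟩
    exact congrArg Subtype.val (hv ⟨aeval (fun k => v (σ k)) p, rfl⟩).symm
  have hinv : ∀ (σ : ℕ → ι) (p : MvPolynomial ℕ ℤ), (∀ᶠ v in (U : Filter (ι → K)),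
      aeval (fun k => v (σ k)) p ≠ 0) → ∃ j, c j * aeval (fun k => c (σ k)) p = 1 :=
    fun σ p h => by
    obtain ⟨j, hj⟩ := hH _ σ (Df.eq ((Pl.var 0).mul (hP p)) Pl.one)
    refine ⟨j, tendsto_nhds_unique ((hc j).mul (hp σ p))
      (tendsto_const_nhds.congr' (mem_of_superset (inter_mem hj h) fun v hv => ?_))⟩
    have h2 : v j * aeval (fun k => v (σ k)) p = 1 := hv.1 ⟨_, inv_mul_cancel₀ hv.2⟩
    change (1 : ℝ) = (v j : ℝ) * ((aeval (fun k => v (σ k)) p : K) : ℝ)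
    exact_mod_cast h2.symm
  have hz : ∀ (σ : ℕ → ι) (p : MvPolynomial ℕ ℤ), aeval (fun k => c (σ k)) p = 0 ↔
      ∀ᶠ v in (U : Filter (ι → K)), aeval (fun k => v (σ k)) p = 0 := fun σ p => by
    refine ⟨fun h => ?_, fun h => tendsto_nhds_unique (hp σ p)
      (tendsto_const_nhds.congr' (h.mono fun n hn => by simp [hn]))⟩
    by_contra h'
    obtain ⟨j, hj⟩ := hinv σ p (Ultrafilter.eventually_not.2 h')
    simp [h] at hj
  let K' : Subfield ℝ :=
    { carrier := range c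
      mul_mem' := by
        rintro _ _ ⟨i, rfl⟩ ⟨j, rfl⟩
        have := hval (cons i fun _ => j) (X 0 * X 1)
        rwa [_root_.map_mul, aeval_X, aeval_X] at this
      one_mem' := by simpa using hval (fun _ => i0) 1
      add_mem' := by
        rintro _ _ ⟨i, rfl⟩ ⟨j, rfl⟩
        have := hval (cons i fun _ => j) (X 0 + X 1)
        rwa [_root_.map_add, aeval_X, aeval_X] at this
      zero_mem' := by simpa using hval (fun _ => i0) 0
      neg_mem' := by
        rintro _ ⟨i, rfl⟩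
        simpa using hval (fun _ => i) (-X 0)
      inv_mem' := by
        rintro _ ⟨i, rfl⟩
        by_cases h : c i = 0
        · exact ⟨i, by simp [h]⟩
        · obtain ⟨j, hj⟩ := hinv (fun _ => i) (X 0) (Ultrafilter.eventually_not.2 fun h' =>
            h (by simpa using (hz (fun _ => i) (X 0)).2 h'))
          exact ⟨j, eq_inv_of_mul_eq_one_left (by simpa using hj)⟩ }
  refine ⟨K', rfl, fun φ => ?_⟩
  induction φ with
  | eq p => exact fun σ => hz σ p
  | not φ ih => intro σ; simp only [SatR, Sat, ih, Ultrafilter.eventually_not]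
  | and φ ψ ih1 ih2 => intro σ; simp only [SatR, Sat, ih1, ih2, eventually_and]
  | ex φ ih =>
    intro σ
    simp only [SatR, Sat]
    constructor
    · rintro ⟨_, ⟨j, rfl⟩, h⟩
      rw [← cons_comp c, ih] at h
      exact h.mono fun v hv => ⟨v j, by rwa [cons_comp v] at hv⟩
    · intro h
      obtain ⟨j, hj⟩ := hH _ σ (Df.sat φ fun k => Pl.var k)
      refine ⟨c j, ⟨j, rfl⟩, ?_⟩
      rw [← cons_comp c, ih]
      refine mem_of_superset (inter_mem hj h) fun v hv => ?_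
      change Sat φ _
      rw [cons_comp v]
      exact hv.1 hv.2

end Pool.Agent.MP_96eeb0_lc.H32
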