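import Pool.Agent.MP_96eeb0_lc.H32.Tree

/-! The two extension steps: adding a witness, and adding a generic point of a dense set. -/

namespace Pool.Agent.MP_96eeb0_lc.H32
open Set Filter Function Cardinal

variable {K : Subfield ℝ} {ι : Type} {e : ℕ → K} {J : Set ι} {j : ι} {U : Ultrafilter (ι → K)}

def Hk (B : (ℕ → K) → Prop) (σ : ℕ → ι) (j : ι) : Set (ι → K) :=
  {v | (∃ a, B (cons a fun k => v (σ k))) → B (cons (v j) fun k => v (σ k))}

theorem dn_hk {B : (ℕ → K) → Prop} (hB : Df e B) {σ : ℕ → ι} (hσ : ∀ k, σ k ∈ J) (hj : j ∈ J) :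
    Dn e J (Hk B σ j) := by
  refine ⟨_, cons j σ, (hB.ren (cons 0 fun k => k + 1 + 1)).ex.imp hB,
    fun k => by cases k; exacts [hj, hσ _], fun v => ?_⟩
  simp only [Hk, mem_ofPred_eq, cons_ren _ _ (· + 1), cons_comp v, cons_succ]

theorem pj_inter {C C' : Set (ι → K)} (h : Pj j C ∈ U) (h' : C ⊆ C') : Pj j C' ∈ U :=
  mem_of_superset h (pj_mono j h')

theorem pj_or {C C' : Set (ι → K)} (h : Pj j (C ∪ C') ∈ U) : Pj j C ∈ U ∨ Pj j C' ∈ U :=
  Ultrafilter.union_mem_iff.1 (mem_of_superset h (pj_union j C C'))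

theorem ext_hk (hK : NIP K) (he : OrdDf e) (hU : Gd e J U) (i0 : J) (hj : j ∉ J) (hJ : #J < 𝔠)
    {B : (ℕ → K) → Prop} (hB : Df e B) {σ : ℕ → ι} (hσ : ∀ k, σ k ∈ J) :
    ∃ W, Ag e J U W ∧ Gd e (insert j J) W ∧ Hk B σ j ∈ W := by
  classical
  have hL : Lg e J j U fun C => Pj j C ∈ U :=
    ⟨fun h h' => pj_inter h' h, pj_or, id, fun hC hA hσ h => hU.key i0 hj hC hA hσ h⟩
  obtain ⟨W, h1, -, h2, h3⟩ := tree_ext hK he hL i0 hj hJ (fun _ _ => True)
    (fun _ C h h' => ⟨C, Subset.rfl, h, h', trivial⟩)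
    (dn_hk hB (fun k => mem_insert_of_mem _ (hσ k)) (mem_insert _ _)) (univ_mem' fun v => by
      have h : ∀ a, (fun k => update v j a (σ k)) = fun k => v (σ k) := fun a => funext fun k =>
        update_of_ne (fun h : σ k = j => hj (h ▸ hσ k)) _ _
      by_cases h' : ∃ a, B (cons a fun k => v (σ k))
      · obtain ⟨a, ha⟩ := h'
        exact ⟨a, fun _ => by simpa only [h, update_self] using ha⟩
      · exact ⟨0, fun h'' => absurd (by simpa only [h] using h'') h'⟩)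
  exact ⟨W, h2, h3, h1⟩

def Iv (j : ι) (p q : ℚ) : Set (ι → K) := {v | (p : ℝ) < v j ∧ (v j : ℝ) < q}

theorem dn_iv (he : OrdDf e) (hj : j ∈ J) (p q : ℚ) : Dn e J (Iv j p q) := by
  refine ⟨_, fun _ => j, (he.lt (Pl.int p.num) ((Pl.var 0).mul (Pl.nat p.den))).and
    (he.lt ((Pl.var 0).mul (Pl.nat q.den)) (Pl.int q.num)), fun _ => hj, fun v => ?_⟩
  have hp : (0 : ℝ) < p.den := by exact_mod_cast p.den_pos
  have hq : (0 : ℝ) < q.den := by exact_mod_cast q.den_pos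
  rw [Iv, mem_ofPred_eq, Rat.cast_def p, Rat.cast_def q, div_lt_iff₀ hp, lt_div_iff₀ hq]
  exact_mod_cast Iff.rfl

theorem small_iv {C : Set (ι → K)} {p q δ : ℚ} (hpq : p < q) (hδ : 0 < δ)
    (h : Pj j (C ∩ Iv j p q) ∈ U) : ∃ p' q' : ℚ, p ≤ p' ∧ p' < q' ∧ q' ≤ q ∧ q' - p' ≤ δ ∧
      Pj j (C ∩ Iv j p' q') ∈ U := by
  have key : ∀ n : ℕ, ∃ p' q' : ℚ, p ≤ p' ∧ p' < q' ∧ q' ≤ q ∧ q' - p' = (q - p) * (2 / 3) ^ n ∧
      Pj j (C ∩ Iv j p' q') ∈ U := fun n => by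
    induction n with
    | zero => exact ⟨p, q, le_rfl, hpq, le_rfl, by simp, h⟩
    | succ n ih =>
      obtain ⟨a, b, h1, h2, h3, h4, h5⟩ := ih
      have h6 : (a : ℝ) < b := by exact_mod_cast h2
      rcases pj_or (pj_inter h5 (C' := C ∩ Iv j a ((a + 2 * b) / 3) ∪ C ∩ Iv j ((2 * a + b) / 3) b)
        fun v hv => (lt_or_ge (v j : ℝ) ((a + 2 * b) / 3)).imp
          (fun h => ⟨hv.1, hv.2.1, by push_cast; exact h⟩)
          fun h => ⟨hv.1, by push_cast; linarith, hv.2.2⟩) with h7 | h7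
      · exact ⟨a, _, h1, by linarith, by linarith, by rw [pow_succ]; linarith, h7⟩
      · exact ⟨_, b, by linarith, by linarith, h3, by rw [pow_succ]; linarith, h7⟩
  obtain ⟨n, hn⟩ := exists_pow_lt_of_lt_one (div_pos hδ (sub_pos.2 hpq))
    (show (2 / 3 : ℚ) < 1 by norm_num)
  obtain ⟨a, b, h1, h2, h3, h4, h5⟩ := key n
  refine ⟨a, b, h1, h2, h3, ?_, h5⟩
  rw [lt_div_iff₀ (sub_pos.2 hpq)] at hn
  linarith

/-- somewhere dense along the coordinate `j` -/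
def Ds (U : Ultrafilter (ι → K)) (j : ι) (C : Set (ι → K)) : Prop :=
  ∃ p q : ℚ, p < q ∧ ∀ p' q' : ℚ, p ≤ p' → p' < q' → q' ≤ q → Pj j (C ∩ Iv j p' q') ∈ U

theorem ds_bd (hK : NIP K) (he : OrdDf e) (hU : Gd e J U) (i0 : J) (hj : j ∉ J)
    {C : Set (ι → K)} (hC : Dn e (insert j J) C) {A : (ℕ → K) → Prop} (hA : Df e A) {σ : ℕ → ι}
    (hσ : ∀ k, σ k ∈ insert j J) (h : Ds U j C) : ∃ n, Ds U j (C ∩ Bs A σ n) := by
  classical
  obtain ⟨p, q, hpq, h⟩ := h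
  by_contra hc
  simp only [Ds, not_exists, not_and, not_forall, exists_prop] at hc
  obtain ⟨G, τ, hG, -, hG'⟩ := nf2 i0 hj hC (hA.bd he) hσ
  obtain ⟨d, hd⟩ := ((hG.ren (cons 1 (cons 0 fun k => k + 4))).and
    ((he.lt ((Pl.var 0).sub (Pl.var 3)) (Pl.var 2)).and
      (he.lt ((Pl.var 3).sub (Pl.var 0)) (Pl.var 2)))).ex.nip hK (fun k => decide (k ≠ 2))
  have key : ∀ T : Finset (Fin d), ∃ (a b : Set (Fin d) → ℚ) (n : Fin d → ℕ) (δ : Fin d → ℚ),
      (∀ S, p ≤ a S ∧ a S < b S ∧ b S ≤ q) ∧ ∀ i ∈ T, ∀ S, ∀ᶠ v in (U : Filter (ι → K)),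
      ∀ t : ℝ, a S < t → t < b S → ((∃ x : K, update v j x ∈ C ∩ Bs A σ (n i) ∧
        x - t < δ i ∧ t - x < δ i) ↔ i ∈ S) := by
    intro T
    induction T using Finset.induction_on with
    | empty => exact ⟨fun _ => p, fun _ => q, fun _ => 0, fun _ => 0,
        fun _ => ⟨le_rfl, hpq, le_rfl⟩, by simp⟩
    | insert i T hi ih =>
      obtain ⟨a, b, n, δ, h1, h2⟩ := ih
      choose m hm using fun S => hU.key i0 hj (hC.inter (dn_iv he (mem_insert _ _) (a S) (b S)))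
        hA hσ (h _ _ (h1 S).1 (h1 S).2.1 (h1 S).2.2)
      obtain ⟨M, hM⟩ := (finite_range m).bddAbove
      choose a0 b0 k1 k2 k3 k4 using fun S => hc M _ _ (h1 S).2.1
      obtain ⟨S0, hS0⟩ := Finite.exists_min fun S => b0 S - a0 S
      have hε : 0 < (b0 S0 - a0 S0) / 3 := by linarith [k2 S0]
      choose a1 b1 l1 l2 l3 l4 l5 using fun S => small_iv (C := C ∩ Bs A σ M) (h1 S).2.1 hε
        (pj_inter (hm S) fun v hv => ⟨⟨hv.1.1, bs_mono _ _ (hM ⟨S, rfl⟩) hv.2⟩, hv.1.2⟩)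
      have h3 : ∀ S, ∃ a' b' : ℚ, (a S ≤ a' ∧ a' < b' ∧ b' ≤ b S) ∧
          ∀ᶠ v in (U : Filter (ι → K)), ∀ t : ℝ, a' < t → t < b' →
          ((∃ x : K, update v j x ∈ C ∩ Bs A σ M ∧ x - t < ((b0 S0 - a0 S0) / 3 : ℚ) ∧
            t - x < ((b0 S0 - a0 S0) / 3 : ℚ)) ↔ i ∈ S) := fun S => by
        by_cases hS : i ∈ S
        · refine ⟨a1 S, b1 S, ⟨l1 S, l2 S, l3 S⟩, mem_of_superset (l5 S) ?_⟩
          rintro v ⟨x, h4, h5, h6⟩ t h7 h8
          rw [update_self] at h5 h6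
          have h9 : (b1 S : ℝ) - a1 S ≤ ((b0 S0 - a0 S0) / 3 : ℚ) := by exact_mod_cast l4 S
          exact iff_of_true ⟨x, h4, by linarith, by linarith⟩ hS
        · have h4 := hS0 S
          refine ⟨(2 * a0 S + b0 S) / 3, (a0 S + 2 * b0 S) / 3, ⟨by linarith [k1 S, k2 S],
            by linarith [k2 S], by linarith [k2 S, k3 S]⟩,
            mem_of_superset (Ultrafilter.compl_mem_iff_notMem.2 (k4 S)) ?_⟩
          intro v hv t h7 h8
          refine iff_of_false (fun ⟨x, h5, h6, h9⟩ => hv ⟨x, h5, ?_⟩) hS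
          have h4' : (b0 S0 : ℝ) - a0 S0 ≤ b0 S - a0 S := by exact_mod_cast h4
          push_cast at h6 h7 h8 h9
          simp only [Iv, mem_ofPred_eq, update_self]
          constructor <;> linarith
      choose a' b' h4 h5 using h3
      refine ⟨a', b', update n i M, update δ i ((b0 S0 - a0 S0) / 3), fun S =>
        ⟨(h1 S).1.trans (h4 S).1, (h4 S).2.1, (h4 S).2.2.trans (h1 S).2.2⟩, fun k hk S => ?_⟩
      by_cases hki : k = i
      · subst hki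
        simpa only [update_self] using h5 S
      · rw [update_of_ne hki, update_of_ne hki]
        refine (h2 k ((Finset.mem_insert.1 hk).resolve_left hki) S).mono fun v hv t h6 h7 => hv t
          (lt_of_le_of_lt (by exact_mod_cast (h4 S).1) h6)
          (h7.trans_le (by exact_mod_cast (h4 S).2.2))
  obtain ⟨a, b, n, δ, h1, h2⟩ := key Finset.univ
  obtain ⟨v, hv⟩ := (eventually_all.2 fun i => eventually_all.2 fun S =>
    h2 i (Finset.mem_univ _) S).exists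
  refine hd ⟨fun i => cons (n i) (cons (δ i) (cons 0 fun k => v (τ k))),
    fun S _ => (((a S + b S) / 2 : ℚ) : K), fun i S => ?_⟩
  have h3 : (a S : ℝ) < b S := by exact_mod_cast (h1 S).2.1
  rw [← hv i S ((a S + b S) / 2 : ℚ) (by push_cast; linarith) (by push_cast; linarith)]
  refine exists_congr fun x => and_congr ?_ (and_congr ?_ ?_)
  · refine Iff.trans (iff_of_eq (congrArg _ (funext fun k => ?_))) (hG' (n i) v x).symm
    rcases k with _ | _ | k <;> simp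
  · simp only [cons_zero, cons_succ]
    exact_mod_cast Iff.rfl
  · simp only [cons_zero, cons_succ]
    exact_mod_cast Iff.rfl

theorem ext_gen (hK : NIP K) (he : OrdDf e) (hU : Gd e J U) (i0 : J) (hj : j ∉ J) (hJ : #J < 𝔠)
    {A : (ℕ → K) → Prop} (hA : Df e A) {p q : ℚ} (hpq : p < q)
    (hd : ∀ p' q' : ℚ, p ≤ p' → p' < q' → ∃ x : K, (p' : ℝ) < x ∧ (x : ℝ) < q' ∧ A fun _ => x)
    {M : Set ℝ} (hM : IsMeagre M) :
    ∃ W, Ag e J U W ∧ Gd e (insert j J) W ∧ {v | A fun _ => v j} ∈ W ∧ ∀ c : ℝ,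
      (∀ a b : ℚ, a < c → c < b → Iv j a b ∈ W) → c ∈ Icc (p : ℝ) q \ M := by
  classical
  have hL : Lg e J j U (Ds U j) := ⟨fun h ⟨a, b, h1, h2⟩ => ⟨a, b, h1, fun a' b' h3 h4 h5 =>
    pj_inter (h2 a' b' h3 h4 h5) (inter_subset_inter_left _ h)⟩, fun {C C'} ⟨a, b, h1, h2⟩ => by
      by_contra hc
      simp only [Ds, not_or, not_exists, not_and, not_forall, exists_prop] at hc
      obtain ⟨a', b', h3, h4, h5, h6⟩ := hc.1 a b h1
      obtain ⟨a'', b'', k3, k4, k5, k6⟩ := hc.2 a' b' h4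
      have := h2 a'' b'' (h3.trans k3) k4 (k5.trans h5)
      rw [union_inter_distrib_right] at this
      exact (pj_or this).elim (fun h => h6 (pj_inter h fun v hv => ⟨hv.1, lt_of_le_of_lt
        (by exact_mod_cast k3) hv.2.1, hv.2.2.trans_le (by exact_mod_cast k5)⟩)) k6,
    fun ⟨a, b, h1, h2⟩ => pj_inter (h2 a b le_rfl h1 le_rfl) inter_subset_left,
    fun hC hA hσ h => ds_bd hK he hU i0 hj hC hA hσ h⟩
  have hI : ∀ {C : Set (ι → K)} {a b a' b' : ℚ}, a ≤ a' → a' < b' → b' ≤ b → (∀ p' q' : ℚ,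
      a ≤ p' → p' < q' → q' ≤ b → Pj j (C ∩ Iv j p' q') ∈ U) → Ds U j (C ∩ Iv j a' b') :=
    fun h1 h2 h3 h => ⟨_, _, h2, fun p' q' h4 h5 h6 => pj_inter (h p' q' (h1.trans h4) h5
      (h6.trans h3)) fun v hv => ⟨⟨hv.1, lt_of_le_of_lt (by exact_mod_cast h4) hv.2.1,
        hv.2.2.trans_le (by exact_mod_cast h6)⟩, hv.2⟩⟩
  obtain ⟨S, hS1, hS2, hS3⟩ := isMeagre_iff_countable_union_isNowhereDense.1 hM
  obtain ⟨F, hF⟩ := (hS2.insert ∅).exists_eq_range (insert_nonempty _ _)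
  have hF' : ∀ k, IsNowhereDense (F k) := fun k =>
    (show F k ∈ insert ∅ S from hF ▸ mem_range_self k).elim (· ▸ isNowhereDense_empty) (hS1 _)
  obtain ⟨W, h1, h2, h3, h4⟩ := tree_ext hK he hL i0 hj hJ
    (fun k C => ∃ a b : ℚ, C ⊆ Iv j a b ∧ Disjoint (Icc (a : ℝ) b) (F k))
    (fun k C hC ⟨a, b, hab, h⟩ => by
      obtain ⟨x, y, hxy, h5⟩ := (isOpen_Ioo.sdiff isClosed_closure).exists_Ioo_subset
        (show (Ioo (a : ℝ) b \ closure (F k)).Nonempty from nonempty_iff_ne_empty.2 fun h' =>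
          (nonempty_Ioo.2 (show (a : ℝ) < b by exact_mod_cast hab)).ne_empty
            (eq_empty_of_subset_empty (hF' k ▸ interior_maximal (sdiff_eq_empty.1 h') isOpen_Ioo)))
      obtain ⟨a', h6, h7⟩ := exists_rat_btwn hxy
      obtain ⟨b', h8, h9⟩ := exists_rat_btwn h7
      exact ⟨_, inter_subset_left, hC.inter (dn_iv he (mem_insert _ _) a' b'),
        hI (by exact_mod_cast (h5 ⟨h6, h7⟩).1.1.le) (by exact_mod_cast h8)
          (by exact_mod_cast (h5 ⟨h6.trans h8, h9⟩).1.2.le) h, a', b', inter_subset_right,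
        Set.disjoint_left.2 fun t ht ht' =>
          (h5 ⟨h6.trans_le ht.1, ht.2.trans_lt h9⟩).2 (subset_closure ht')⟩)
    (C0 := {v | A fun _ => v j} ∩ Iv j p q)
    (Dn.inter ⟨A, fun _ => j, hA, fun _ => mem_insert _ _, fun _ => Iff.rfl⟩
      (dn_iv he (mem_insert _ _) p q))
    (hI le_rfl hpq le_rfl fun a b h1 h2 _ => univ_mem' fun v => (hd a b h1 h2).imp fun x hx => by
      simpa only [Iv, mem_inter_iff, mem_ofPred_eq, update_self] using and_rotate.1 (and_rotate.1 hx))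
  refine ⟨W, h3, h4, mem_of_superset h1 inter_subset_left, fun c hc => ?_⟩
  have h5 : ∀ a b : ℚ, Iv j a b ∈ W → c ∈ Icc (a : ℝ) b := fun a b h => by
    obtain ⟨x, hx⟩ := exists_rat_lt c
    obtain ⟨y, hy⟩ := exists_rat_gt c
    refine ⟨le_of_not_gt fun h' => ?_, le_of_not_gt fun h' => ?_⟩
    · obtain ⟨v, h6, h7⟩ := W.nonempty_of_mem (inter_mem h (hc x a hx h'))
      exact lt_asymm h6.1 h7.2
    · obtain ⟨v, h6, h7⟩ := W.nonempty_of_mem (inter_mem h (hc b y h' hy))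
      exact lt_asymm h6.2 h7.1
  refine ⟨h5 p q (mem_of_superset h1 inter_subset_right), fun h => ?_⟩
  obtain ⟨t, ht, h6⟩ := hS3 h
  obtain ⟨k, rfl⟩ : t ∈ range F := hF ▸ mem_insert_of_mem _ ht
  obtain ⟨C, h7, a, b, h8, h9⟩ := h2 k
  exact Set.disjoint_left.1 h9 (h5 a b (mem_of_superset h7 h8)) h6

end Pool.Agent.MP_96eeb0_lc.H32
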