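import Pool.Agent.MP_96eeb0_lc.H32.Typ

/-! Extending a bounded type over fewer than continuum many variables: a tree of cells. -/

namespace Pool.Agent.MP_96eeb0_lc.H32
open Set Filter Function Cardinal

variable {K : Subfield ℝ} {ι : Type} {e : ℕ → K} {J : Set ι} {j : ι} {U : Ultrafilter (ι → K)}
  {L : Set (ι → K) → Prop}

/-- a notion of largeness for sets definable from `J` and `j` -/
structure Lg (e : ℕ → K) (J : Set ι) (j : ι) (U : Ultrafilter (ι → K))
    (L : Set (ι → K) → Prop) : Prop where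
  mono : ∀ {C C'}, C ⊆ C' → L C → L C'
  union : ∀ {C C'}, L (C ∪ C') → L C ∨ L C'
  pj : ∀ {C}, L C → Pj j C ∈ U
  bd : ∀ {C A σ}, Dn e (insert j J) C → Df e A → (∀ k, σ k ∈ insert j J) → L C →
    ∃ n, L (C ∩ Bs A σ n)

theorem lst_mem (i : J) (l : List J) (k : ℕ) : cons j (lst i l) k ∈ insert j J := by
  cases k with
  | zero => exact mem_insert _ _
  | succ k => exact mem_insert_of_mem _ (Subtype.prop _)

theorem shrink (hK : NIP K) (he : OrdDf e) (hL : Lg e J j U L) (i0 : J) (hj : j ∉ J)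
    {A : (ℕ → K) → Prop} (hA : Df e A) : ∃ d, ∀ C : Set (Fin d) → Set (ι → K),
      (∀ S, Dn e (insert j J) (C S) ∧ L (C S)) → ∃ C' : Set (Fin d) → Set (ι → K),
      (∀ S, C' S ⊆ C S ∧ Dn e (insert j J) (C' S) ∧ L (C' S)) ∧
      ∀ l, ∃ S n, ¬ L (C' S \ Bs A (cons j (lst i0 l)) n) := by
  classical
  obtain ⟨d, hd⟩ := (hA.bd he).nip hK (fun k => decide (k ≠ 1))
  refine ⟨d, fun C hC => ?_⟩
  by_contra hc
  push Not at hc
  have key : ∀ T : Finset (Fin d), ∃ (C' : Set (Fin d) → Set (ι → K)) (l : Fin d → List J)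
      (n : Fin d → ℕ), (∀ S, C' S ⊆ C S ∧ Dn e (insert j J) (C' S) ∧ L (C' S)) ∧
      ∀ i ∈ T, ∀ S, ∀ v ∈ C' S, (v ∈ Bs A (cons j (lst i0 (l i))) (n i) ↔ i ∈ S) := by
    intro T
    induction T using Finset.induction_on with
    | empty => exact ⟨C, fun _ => [], fun _ => 0, fun S => ⟨Subset.rfl, hC S⟩, by simp⟩
    | insert i T hi ih =>
      obtain ⟨C', l, n, h1, h2⟩ := ih
      obtain ⟨l0, hl0⟩ := hc C' h1
      choose m hm using fun S => hL.bd (h1 S).2.1 hA (lst_mem i0 l0) (h1 S).2.2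
      obtain ⟨M, hM⟩ := (finite_range m).bddAbove
      have hD := dn_bs he hA (lst_mem (j := j) i0 l0) M
      refine ⟨fun S => C' S ∩ (if i ∈ S then Bs A (cons j (lst i0 l0)) M
        else (Bs A (cons j (lst i0 l0)) M)ᶜ), update l i l0, update n i M, fun S => ⟨
          inter_subset_left.trans (h1 S).1, ?_⟩, fun k hk S v hv => ?_⟩
      · beta_reduce
        split_ifs
        · exact ⟨(h1 S).2.1.inter hD, hL.mono (inter_subset_inter_right _
            (bs_mono _ _ (hM ⟨S, rfl⟩))) (hm S)⟩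
        · exact ⟨(h1 S).2.1.inter hD.compl, hl0 S M⟩
      · by_cases hki : k = i
        · subst hki
          have := hv.2
          by_cases hS : k ∈ S <;> simpa [hS] using this
        · rw [update_of_ne hki, update_of_ne hki]
          exact h2 k ((Finset.mem_insert.1 hk).resolve_left hki) S v hv.1
  obtain ⟨C', l, n, h1, h2⟩ := key Finset.univ
  obtain ⟨v, hv⟩ := (eventually_all.2 fun S => hL.pj (h1 S).2.2 :
    ∀ᶠ v in (U : Filter (ι → K)), ∀ S, v ∈ Pj j (C' S)).exists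
  choose a ha using hv
  refine hd ⟨fun i => cons (n i) (cons 0 fun k => v (lst i0 (l i) k)), fun S _ => a S,
    fun i S => ?_⟩
  rw [← h2 i (Finset.mem_univ _) S _ (ha S), Bs, mem_ofPred_eq,
    upd_lst hj (σ := lst i0 (l i)) (fun k => Subtype.prop _)]
  refine iff_of_eq (congrArg _ (funext fun k => ?_))
  rcases k with _ | _ | k <;> simp

theorem shrink_all (hK : NIP K) (he : OrdDf e) (hL : Lg e J j U L) (i0 : J) (hj : j ∉ J)
    {A : (ℕ → K) → Prop} (hA : Df e A) : ∃ d, ∀ (N : Type) [Finite N] (C : N → Set (ι → K)),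
      (∀ t, Dn e (insert j J) (C t) ∧ L (C t)) → ∃ C' : N → Set (ι → K),
      (∀ t, C' t ⊆ C t ∧ Dn e (insert j J) (C' t) ∧ L (C' t)) ∧
      ∀ ρ : Set (Fin d) → N, Injective ρ →
        ∀ l, ∃ S n, ¬ L (C' (ρ S) \ Bs A (cons j (lst i0 l)) n) := by
  classical
  obtain ⟨d, hd⟩ := shrink hK he hL i0 hj hA
  refine ⟨d, fun N _ C hC => ?_⟩
  have key : ∀ T : Set (Set (Fin d) → N), T.Finite → ∃ C' : N → Set (ι → K),
      (∀ t, C' t ⊆ C t ∧ Dn e (insert j J) (C' t) ∧ L (C' t)) ∧ ∀ ρ ∈ T, Injective ρ →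
        ∀ l, ∃ S n, ¬ L (C' (ρ S) \ Bs A (cons j (lst i0 l)) n) := by
    intro T hT
    induction T, hT using Set.Finite.induction_on with
    | empty => exact ⟨C, fun t => ⟨Subset.rfl, hC t⟩, by simp⟩
    | @insert ρ T _ _ ih =>
      obtain ⟨C', h1, h2⟩ := ih
      by_cases hρ : Injective ρ
      swap
      · exact ⟨C', h1, forall_mem_insert.2 ⟨fun h => absurd h hρ, h2⟩⟩
      obtain ⟨C'', h3, h4⟩ := hd (fun S => C' (ρ S)) fun S => (h1 _).2
      have h5 : ∀ t, extend ρ C'' C' t ⊆ C' t ∧ Dn e (insert j J) (extend ρ C'' C' t) ∧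
          L (extend ρ C'' C' t) := fun t => by
        by_cases ht : ∃ S, ρ S = t
        · obtain ⟨S, rfl⟩ := ht
          rw [hρ.extend_apply]
          exact h3 S
        · rw [extend_apply' _ _ _ ht]
          exact ⟨Subset.rfl, (h1 t).2⟩
      refine ⟨extend ρ C'' C', fun t => ⟨(h5 t).1.trans (h1 t).1, (h5 t).2⟩,
        forall_mem_insert.2 ⟨fun _ l => by simpa only [hρ.extend_apply] using h4 l,
          fun ρ' h6 h7 l => ?_⟩⟩
      obtain ⟨S, n, h8⟩ := h2 ρ' h6 h7 l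
      exact ⟨S, n, fun h => h8 (hL.mono (sdiff_subset_sdiff_left (h5 _).1) h)⟩
  obtain ⟨C', h1, h2⟩ := key univ finite_univ
  exact ⟨C', h1, fun ρ => h2 ρ trivial⟩

theorem tree_ext (hK : NIP K) (he : OrdDf e) (hL : Lg e J j U L) (i0 : J) (hj : j ∉ J)
    (hJ : #J < 𝔠) (R : ℕ → Set (ι → K) → Prop)
    (hR : ∀ k C, Dn e (insert j J) C → L C → ∃ C' ⊆ C, Dn e (insert j J) C' ∧ L C' ∧ R k C')
    {C0 : Set (ι → K)} (h0 : Dn e (insert j J) C0) (h0' : L C0) :
    ∃ W : Ultrafilter (ι → K), C0 ∈ W ∧ (∀ k, ∃ C ∈ W, R k C) ∧ Ag e J U W ∧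
      Gd e (insert j J) W := by
  classical
  obtain ⟨A, hA⟩ := (countable_df e).exists_eq_range ⟨_, Df.triv⟩
  have hA' : ∀ m, Df e (A m) := fun m => show A m ∈ {A | Df e A} from hA ▸ mem_range_self m
  choose d hd using fun m => shrink_all hK he hL i0 hj (hA' m)
  let T := fun k => {C : (Fin k → Bool) → Set (ι → K) // ∀ t, Dn e (insert j J) (C t) ∧ L (C t)}
  have step : ∀ k (C : T k), ∃ C' : T (k + 1), (∀ t, ∃ C1, C'.1 t ⊆ C1 ∧
      C1 ⊆ C.1 (fun i => t i.castSucc) ∧ R k C1) ∧ ∀ ρ : Set (Fin (d k.unpair.1)) → _,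
      Injective ρ → ∀ l, ∃ S n, ¬ L (C'.1 (ρ S) \ Bs (A k.unpair.1) (cons j (lst i0 l)) n) := by
    intro k C
    choose C1 h1 h2 h3 h4 using fun t : Fin (k + 1) → Bool =>
      hR k _ (C.2 fun i => t i.castSucc).1 (C.2 _).2
    obtain ⟨C', h5, h6⟩ := hd k.unpair.1 _ C1 fun t => ⟨h2 t, h3 t⟩
    exact ⟨⟨C', fun t => (h5 t).2⟩, fun t => ⟨C1 t, (h5 t).1, h1 t, h4 t⟩, h6⟩
  choose f hf1 hf2 using step
  let C : ∀ k, T k := fun k => Nat.rec ⟨fun _ => C0, fun _ => ⟨h0, h0'⟩⟩ f k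
  let c : (ℕ → Bool) → ℕ → Set (ι → K) := fun x k => (C k).1 fun i => x i
  have hfin : ∀ p : ℕ × List J, Set.Countable
      {x | ∀ k n, L (c x k \ Bs (A p.1) (cons j (lst i0 p.2)) n)} := by
    rintro ⟨m, l⟩
    refine Finite.countable (by_contra fun hinf => ?_)
    let g := (Fintype.equivFin (Set (Fin (d m)))).toEmbedding.trans
      (Fin.valEmbedding.trans (Set.Infinite.natEmbedding _ hinf))
    have h1 : ∀ p : Set (Fin (d m)) × Set (Fin (d m)), ∃ i,
        (g p.1).1 i = (g p.2).1 i → p.1 = p.2 := fun p => by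
      by_contra h
      push Not at h
      exact (h 0).2 (g.injective (Subtype.ext (funext fun i => (h i).1)))
    choose q hq using h1
    obtain ⟨N, hN⟩ := (finite_range q).bddAbove
    have h2 := hf2 (Nat.pair m N) (C _)
    rw [Nat.unpair_pair] at h2
    obtain ⟨S, n, h3⟩ := h2 (fun S i => (g S).1 i) (fun S S' h => hq (S, S') (congrFun h
      ⟨q (S, S'), Nat.lt_succ_of_le ((hN ⟨_, rfl⟩).trans (Nat.right_le_pair _ _))⟩)) l
    exact h3 ((g S).2 (Nat.pair m N + 1) n)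
  obtain ⟨x, hx⟩ : ∃ x, ∀ m l, ∃ k n, ¬ L (c x k \ Bs (A m) (cons j (lst i0 l)) n) := by
    by_contra h
    push Not at h
    choose g hg using fun p => Set.countable_iff_exists_subset_range.1 (hfin p)
    have h1 : Surjective fun p : (ℕ × List J) × ℕ => g p.1 p.2 := fun x => by
      obtain ⟨m, l, h⟩ := h x
      obtain ⟨n, hn⟩ := hg (m, l) h
      exact ⟨((m, l), n), hn⟩
    have h2 := mk_le_of_surjective h1
    have h3 : #(List J) < 𝔠 := (mk_list_le_max _).trans_lt (max_lt aleph0_lt_continuum hJ)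
    simp only [mk_pi, mk_fintype, Fintype.card_bool, prod_const, mk_nat, mk_prod, lift_id,
      Nat.cast_ofNat, two_power_aleph0] at h2
    exact (mul_lt_of_lt aleph0_le_continuum (mul_lt_of_lt aleph0_le_continuum aleph0_lt_continuum
      h3) aleph0_lt_continuum).not_ge h2
  have hs : ∀ k, ∃ C1, c x (k + 1) ⊆ C1 ∧ C1 ⊆ c x k ∧ R k C1 := fun k => hf1 k (C k) fun i => x i
  have ha : Antitone (c x) := antitone_nat_of_succ_le fun k =>
    (hs k).elim fun _ h => h.1.trans h.2.1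
  have hE : ¬ L ∅ := fun h => by
    obtain ⟨_, _, h⟩ := U.nonempty_of_mem (hL.pj h)
    exact h
  let F : Filter (ι → K) :=
    { sets := {s | ∃ k, ¬ L (c x k \ s)}
      univ_sets := ⟨0, by simpa using hE⟩
      sets_of_superset := fun ⟨k, hk⟩ h => ⟨k, fun h' => hk (hL.mono (sdiff_subset_sdiff_right h) h')⟩
      inter_sets := fun {s t} ⟨k, hk⟩ ⟨k', hk'⟩ => ⟨max k k', fun h => by
        rw [sdiff_inter] at h
        exact (hL.union h).elim
          (fun h => hk (hL.mono (sdiff_subset_sdiff_left (ha (le_max_left _ _))) h))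
          fun h => hk' (hL.mono (sdiff_subset_sdiff_left (ha (le_max_right _ _))) h)⟩ }
  have : F.NeBot := ⟨fun h => by
    obtain ⟨k, hk⟩ : ∅ ∈ F := empty_mem_iff_bot.2 h
    exact hk (by simpa using ((C k).2 _).2)⟩
  have hF : ∀ s k, ¬ L (c x k \ s) → s ∈ Ultrafilter.of F := fun s k h =>
    Ultrafilter.of_le F (show s ∈ F from ⟨k, h⟩)
  have hc : ∀ k, c x k ∈ Ultrafilter.of F := fun k => hF _ k (by simpa using hE)
  refine ⟨Ultrafilter.of F, hc 0, fun k => (hs k).imp fun C1 h =>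
    ⟨mem_of_superset (hc (k + 1)) h.1, h.2.2⟩, fun D ⟨B, σ, _, h2, h3⟩ hD => hF _ 0 fun h => ?_,
    fun B σ hB hσ => ?_⟩
  · obtain ⟨v, h4, a, h5⟩ := U.nonempty_of_mem (inter_mem hD (hL.pj h))
    refine h5.2 ((h3 _).2 ?_)
    rw [show (fun k => update v j a (σ k)) = fun k => v (σ k) from funext fun k =>
      update_of_ne (fun h : σ k = j => hj (h ▸ h2 k)) _ _]
    exact (h3 _).1 h4
  · obtain ⟨B', l, hB', h⟩ := nf i0 hB hσ
    obtain ⟨m, rfl⟩ : B' ∈ range A := hA ▸ hB'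
    obtain ⟨k, n, h1⟩ := hx m l
    refine ⟨n, mem_of_superset (hF _ k h1) fun v hv => ?_⟩
    simpa only [Bs, Bd, mem_ofPred_eq, cons_succ, cons_zero, h] using hv

end Pool.Agent.MP_96eeb0_lc.H32
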