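import Pool.Agent.MP_96eeb0_lc.H32.Ord

/-! Types over a subfield of the reals, as ultrafilters on assignments; bounded types. -/

namespace Pool.Agent.MP_96eeb0_lc.H32
open Set Filter Function

variable {K : Subfield ℝ} {ι : Type} {e : ℕ → K} {J : Set ι}

/-- definable from the coordinates in `J` -/
def Dn (e : ℕ → K) (J : Set ι) (C : Set (ι → K)) : Prop :=
  ∃ (A : (ℕ → K) → Prop) (σ : ℕ → ι), Df e A ∧ (∀ k, σ k ∈ J) ∧ ∀ v, v ∈ C ↔ A fun k => v (σ k)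

theorem Dn.mono {C : Set (ι → K)} {J' : Set ι} (h : Dn e J C) (hJ : J ⊆ J') : Dn e J' C := by
  obtain ⟨A, σ, h1, h2, h3⟩ := h
  exact ⟨A, σ, h1, fun k => hJ (h2 k), h3⟩

theorem Dn.compl {C : Set (ι → K)} (h : Dn e J C) : Dn e J Cᶜ := by
  obtain ⟨A, σ, h1, h2, h3⟩ := h
  exact ⟨_, σ, h1.not, h2, fun v => not_congr (h3 v)⟩

theorem mix_mem {σ τ : ℕ → ι} (h : ∀ k, σ k ∈ J) (h' : ∀ k, τ k ∈ J) (k : ℕ) : mix σ τ k ∈ J := by
  unfold mix; split_ifs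
  exacts [h' _, h _]

theorem Dn.inter {C C' : Set (ι → K)} (h : Dn e J C) (h' : Dn e J C') : Dn e J (C ∩ C') := by
  obtain ⟨A, σ, h1, h2, h3⟩ := h
  obtain ⟨B, τ, k1, k2, k3⟩ := h'
  refine ⟨_, mix σ τ, (h1.ren fun k => 2 * k + 1).and (k1.ren fun k => 2 * k), mix_mem h2 k2,
    fun v => ?_⟩
  simp [h3, k3]

/-- `A (·, u 1, u 2, ...)` has a witness of square at most `u 0`, if it has a witness -/
def Bd (A : (ℕ → K) → Prop) (u : ℕ → K) : Prop :=
  (∃ w, A (cons w fun k => u (k + 1))) → ∃ w, w ^ 2 ≤ u 0 ∧ A (cons w fun k => u (k + 1))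

theorem cons_ren {α : Type} (w : α) (u : ℕ → α) (f : ℕ → ℕ) :
    (fun i => cons w u (cons 0 (fun k => f k + 1) i)) = cons w fun k => u (f k) := by
  funext i; cases i <;> rfl

theorem Df.bd (he : OrdDf e) {A : (ℕ → K) → Prop} (hA : Df e A) : Df e (Bd A) := by
  have h := hA.ren (cons 0 fun k => k + 1 + 1)
  refine (h.ex.imp ((he.le ((Pl.var 0).pow 2) (Pl.var 1)).and h).ex).congr fun u => ?_
  simp only [Bd, cons_ren _ u (· + 1), cons_zero, cons_succ]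

def Bs (A : (ℕ → K) → Prop) (σ : ℕ → ι) (n : ℕ) : Set (ι → K) :=
  {v | Bd A (cons n fun k => v (σ k))}

theorem bs_mono (A : (ℕ → K) → Prop) (σ : ℕ → ι) : Monotone (Bs A σ) :=
  fun m n h _ hv h' => (hv h').imp fun w hw => ⟨hw.1.trans (by
    change (m : K) ≤ n
    exact_mod_cast h), hw.2⟩

theorem dn_bs (he : OrdDf e) {A : (ℕ → K) → Prop} (hA : Df e A) {σ : ℕ → ι} (hσ : ∀ k, σ k ∈ J)
    (n : ℕ) : Dn e J (Bs A σ n) := by
  refine ⟨fun u => Bd A (cons n u), σ, ((hA.bd he).comp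
    (f := fun i u => cons (n : K) u i) fun i => ?_), hσ, fun v => Iff.rfl⟩
  cases i with
  | zero => exact Pl.nat n
  | succ i => exact Pl.var i

/-- every formula with a witness has a bounded witness -/
def Gd (e : ℕ → K) (J : Set ι) (U : Ultrafilter (ι → K)) : Prop :=
  ∀ A σ, Df e A → (∀ k, σ k ∈ J) → ∃ n, Bs A σ n ∈ U

/-- `W` extends the type of `U` on the variables `J` -/
def Ag (e : ℕ → K) (J : Set ι) (U W : Ultrafilter (ι → K)) : Prop :=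
  ∀ C, Dn e J C → C ∈ U → C ∈ W

theorem Ag.iff {U W : Ultrafilter (ι → K)} (h : Ag e J U W) {C : Set (ι → K)} (hC : Dn e J C) :
    C ∈ U ↔ C ∈ W :=
  ⟨h C hC, fun h' => by_contra fun h'' => Ultrafilter.compl_mem_iff_notMem.1
    (h _ hC.compl (Ultrafilter.compl_mem_iff_notMem.2 h'')) h'⟩

def lst (i : J) (l : List J) : ℕ → ι := fun k => (l.getD k i : J)

theorem nf {j : ι} (i : J) {A : (ℕ → K) → Prop} (hA : Df e A) {σ : ℕ → ι}
    (hσ : ∀ k, σ k ∈ insert j J) : ∃ A' l, Df e A' ∧ ∀ w (v : ι → K),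
      A (cons w fun k => v (σ k)) ↔ A' (cons w fun k => v (cons j (lst i l) k)) := by
  classical
  obtain ⟨N, hN⟩ := hA.supp
  refine ⟨_, (List.range N).map fun k => if h : σ k = j then i else ⟨σ k, (hσ k).resolve_left h⟩,
    hA.ren (cons 0 fun k => (if σ k = j then 0 else k + 1) + 1), fun w v => ?_⟩
  rw [cons_ren]
  refine hN _ _ fun k hk => ?_
  cases k with
  | zero => rfl
  | succ k =>
    have : k < N := by omega
    by_cases h : σ k = j <;> simp [h, lst, this]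

open Classical in
/-- projection along the coordinate `j` -/
def Pj (j : ι) (C : Set (ι → K)) : Set (ι → K) := {v | ∃ a, update v j a ∈ C}

theorem pj_mono (j : ι) {C C' : Set (ι → K)} (h : C ⊆ C') : Pj j C ⊆ Pj j C' :=
  fun _ ⟨a, ha⟩ => ⟨a, h ha⟩

theorem pj_union (j : ι) (C C' : Set (ι → K)) : Pj j (C ∪ C') ⊆ Pj j C ∪ Pj j C' :=
  fun _ ⟨a, ha⟩ => ha.imp (fun h => ⟨a, h⟩) fun h => ⟨a, h⟩

open Classical in
theorem upd_lst {j : ι} (hj : j ∉ J) {σ : ℕ → ι} (hσ : ∀ k, σ k ∈ J) (v : ι → K) (a : K) :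
    (fun k => update v j a (cons j σ k)) = cons a fun k => v (σ k) := by
  funext k
  cases k with
  | zero => simp
  | succ k => exact update_of_ne (fun h : σ k = j => hj (h ▸ hσ k)) _ _

open Classical in
theorem nf2 {j : ι} (i : J) (hj : j ∉ J) {C : Set (ι → K)} (hC : Dn e (insert j J) C)
    {A : (ℕ → K) → Prop} (hA : Df e A) {σ : ℕ → ι} (hσ : ∀ k, σ k ∈ insert j J) :
    ∃ G, ∃ τ : ℕ → ι, Df e G ∧ (∀ k, τ k ∈ J) ∧ ∀ w (v : ι → K) a,
      (update v j a ∈ C ∧ A (cons w fun k => update v j a (σ k))) ↔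
        G (cons w (cons a fun k => v (τ k))) := by
  obtain ⟨B, ρ, h1, h2, h3⟩ := hC
  obtain ⟨G, l, hG, h⟩ := nf i ((h1.ren fun k => 2 * k + 1 + 1).and
    (hA.ren (cons 0 fun k => 2 * k + 1))) (mix_mem h2 hσ)
  refine ⟨G, lst i l, hG, fun k => Subtype.prop _, fun w v a => ?_⟩
  rw [← upd_lst hj (σ := lst i l) (fun k => Subtype.prop _), ← h, h3,
    cons_ren _ _ fun k => 2 * k]
  simp

theorem Gd.key {U : Ultrafilter (ι → K)} (hU : Gd e J U) {j : ι} (i : J) (hj : j ∉ J)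
    {C : Set (ι → K)} (hC : Dn e (insert j J) C) {A : (ℕ → K) → Prop} (hA : Df e A) {σ : ℕ → ι}
    (hσ : ∀ k, σ k ∈ insert j J) (h : Pj j C ∈ U) : ∃ n, Pj j (C ∩ Bs A σ n) ∈ U := by
  obtain ⟨G, τ, hG, hτ, h1⟩ := nf2 i hj hC hA hσ
  obtain ⟨n, hn⟩ := hU _ τ (hG.ren (cons 1 (cons 0 fun k => k + 2))).ex hτ
  have key : ∀ (a w : K) (u : ℕ → K), (fun i => cons a (cons w u) (cons 1 (cons 0 fun k => k + 2) i))
      = cons w (cons a u) := fun a w u => by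
    funext i; rcases i with _ | _ | i <;> rfl
  refine ⟨n, mem_of_superset (inter_mem h hn) ?_⟩
  rintro v ⟨⟨a, ha⟩, hv⟩
  simp only [Bs, Bd, key, mem_ofPred_eq, cons_succ, cons_zero, ← h1] at hv
  by_cases h2 : update v j a ∈ Bs A σ n
  · exact ⟨a, ha, h2⟩
  · obtain ⟨w, hw⟩ := (Classical.not_imp.1 h2).1
    obtain ⟨w', h3, a', h4, h5⟩ := hv ⟨w, a, ha, hw⟩
    exact ⟨a', h4, fun _ => ⟨w', h3, h5⟩⟩

end Pool.Agent.MP_96eeb0_lc.H32
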