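import Pool.Agent.MP_96eeb0_lc.H32.Rec
import Pool.Agent.MP_96eeb0_lc.H32.Main

/-! Non-meagre models in ZFC, and the reduction. -/

namespace Pool.Agent.MP_96eeb0_lc.H32
open Set Filter Function Cardinal Topology

variable {K : Subfield ℝ}

theorem exists_type (hK : NIP K) {e : ℕ → K} (he : OrdDf e) :
    ∃ (ι : Type) (_ : ι) (U : Ultrafilter (ι → K)), Gd e univ U ∧
      (∀ B σ, Df e B → ∃ j, Hk B σ j ∈ U) ∧ ∀ M, IsMeagre M → ∃ j, ∀ c : ℝ,
        (∀ a b : ℚ, a < c → c < b → Iv j a b ∈ U) → c ∉ M := by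
  let ι := (𝔠 : Cardinal.{0}).ord.ToType
  have hι : #ι = 𝔠 := mk_ord_toType _
  have hI : ∀ i : ι, #(Iio i) < 𝔠 := fun i => (mk_Iio_lt i (by rw [hι]; simp [ι])).trans_eq hι
  have : Nonempty ι := mk_ne_zero_iff.1 (hι ▸ continuum_ne_zero)
  let α := {B : Set ℝ // MeasurableSet B ∧ IsMeagre B}
  have h1 : #α ≤ 𝔠 := by
    refine le_trans (mk_le_mk_of_subset (t := {B : Set ℝ | MeasurableSet B}) fun B hB => hB.1) ?_
    rw [BorelSpace.measurable_eq (α := ℝ), Real.borel_eq_generateFrom_Ioo_rat]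
    refine MeasurableSpace.cardinal_measurableSet_le_continuum
      (le_trans (le_aleph0_iff_set_countable.2 ?_) aleph0_le_continuum)
    exact countable_iUnion fun a => countable_iUnion fun b => countable_iUnion fun _ =>
      countable_singleton _
  have : Countable {B // Df e B} := (countable_df e).to_subtype
  let T := ({B // Df e B} × (ℕ → ι)) ⊕ α
  have h2 : #(T × ι) ≤ #ι := by
    have h3 : #{B // Df e B} ≤ 𝔠 := mk_le_aleph0.trans aleph0_le_continuum
    simp only [T, mk_prod, mk_sum, lift_id, mk_pi, prod_const, mk_nat, hι, continuum_power_aleph0]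
    refine (mul_le_mul' (add_le_add (mul_le_mul' h3 le_rfl) h1) le_rfl).trans (le_of_eq ?_)
    simp
  obtain ⟨f⟩ := (le_def _ _).1 h2
  have : Nonempty T := ⟨.inr ⟨∅, MeasurableSet.empty, IsMeagre.empty⟩⟩
  have hg := invFun_surjective f.injective
  set g := invFun f
  have hcof : ∀ t b, ∃ i, b < i ∧ (g i).1 = t := fun t b => by
    by_contra h
    push Not at h
    have h4 : Surjective fun i : (insert b (Iio b) : Set ι) => (g i).2 := fun x => by
      obtain ⟨i, hi⟩ := hg (t, x)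
      exact ⟨⟨i, (not_lt.1 fun h' => h i h' (by rw [hi])).eq_or_lt⟩, by simp [hi]⟩
    exact (add_lt_of_lt aleph0_le_continuum (hI b) (one_lt_aleph0.trans aleph0_lt_continuum)).not_ge
      (hι.ge.trans ((mk_le_of_surjective h4).trans Cardinal.mk_insert_le))
  let P : T → ι → Ultrafilter (ι → K) → Prop := Sum.elim
    (fun t i U => (∀ k, t.2 k < i) → Hk t.1.1 t.2 i ∈ U)
    (fun M i U => ∀ c : ℝ, (∀ a b : ℚ, a < c → c < b → Iv i a b ∈ U) → c ∉ M.1)
  obtain ⟨U, hU, hP⟩ := recursion he (fun i => P (g i).1 i) (fun i U V h => by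
      rcases (g i).1 with ⟨B, σ⟩ | M
      · exact fun h' hσ => h _ (dn_hk B.2 (fun k => (hσ k).le) (mem_Iic.2 le_rfl)) (h' hσ)
      · exact fun h' c hc => h' c fun a b h1 h2 =>
          (h.iff (dn_iv he (mem_Iic.2 le_rfl) a b)).2 (hc a b h1 h2))
    (fun i ⟨i0, hi0⟩ U hU => by
      rcases (g i).1 with ⟨B, σ⟩ | M
      · by_cases hσ : ∀ k, σ k < i
        · obtain ⟨W, h1, h2, h3⟩ := ext_hk hK he hU ⟨i0, hi0⟩ (lt_irrefl i) (hI i) B.2 hσ
          exact ⟨W, h1, h2, fun _ => h3⟩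
        · obtain ⟨W, h1, h2, -⟩ := ext_hk hK he hU ⟨i0, hi0⟩ (lt_irrefl i) (hI i) B.2
            (σ := fun _ => i0) fun _ => hi0
          exact ⟨W, h1, h2, fun h => absurd h hσ⟩
      · obtain ⟨W, h1, h2, -, h3⟩ := ext_gen hK he hU ⟨i0, hi0⟩ (lt_irrefl i) (hI i) Df.triv
          zero_lt_one (fun p q _ h => (exists_rat_btwn (show (p : ℝ) < q by
            exact_mod_cast h)).elim fun r hr => ⟨r, by simpa using hr.1, by simpa using hr.2,
              trivial⟩) M.2.2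
        exact ⟨W, h1, h2, fun c hc => (h3 c hc).2⟩)
  refine ⟨ι, Classical.arbitrary ι, U, hU, fun B σ hB => ?_, fun M hM => ?_⟩
  · obtain ⟨τ, m, h3, h4⟩ := fin_supp hB σ
    obtain ⟨i, h5, h6⟩ := hcof (.inl (⟨B, hB⟩, τ)) (σ m)
    have h7 := hP i ⟨_, h5⟩
    rw [h6] at h7
    refine ⟨i, mem_of_superset (h7 fun k => (h3 k).trans_lt h5) fun v hv => ?_⟩
    simpa only [Hk, mem_ofPred_eq, h4] using hv
  · obtain ⟨t, h3, h4, h5⟩ := mem_residual.1 hM
    obtain ⟨i, h6, h7⟩ := hcof (.inr ⟨tᶜ, h4.measurableSet.compl, by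
      simpa [IsMeagre] using residual_of_dense_Gδ h4 h5⟩) (Classical.arbitrary ι)
    have h8 := hP i ⟨_, h6⟩
    rw [h7] at h8
    exact ⟨i, fun c hc h => h8 c hc fun h' => h3 h' h⟩

theorem nonmeagre_model (hK : NIP K) (e : ℕ → K) : ∃ L : Subfield ℝ, ¬ IsMeagre (L : Set ℝ) ∧
    (∀ i, (e i : ℝ) ∈ L) ∧ (∀ φ : Fm, SatR K φ (fun k => e k) ↔ SatR L φ (fun k => e k)) ∧
    ∀ φ X n, PatR L φ X n → PatR K φ X n := by
  obtain ⟨a0, ha0⟩ := ordDf_of K hK
  have he : OrdDf (cons a0 e) := ha0 _ rfl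
  obtain ⟨ι, i0, U, hU, hH, hM⟩ := exists_type hK he
  have hc : ∀ j, ∃ c, Tendsto (fun v : ι → K => (v j : ℝ)) U (𝓝 c) := fun j => by
    obtain ⟨C, hC⟩ := hU _ (fun _ => j) (Df.eq (Pl.var 0) (Pl.var 1)) fun _ => trivial
    obtain ⟨c, -, hc⟩ := (isCompact_Icc (a := -((C : ℝ) + 1)) (b := C + 1)).ultrafilter_le_nhds
      (U.map fun v => (v j : ℝ)) (le_principal_iff.2 (by
        refine mem_map.2 (mem_of_superset hC fun v hv => ?_)
        obtain ⟨w, h1, h2⟩ := hv ⟨v j, rfl⟩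
        have h3 : w = v j := h2
        have h4 : (v j : ℝ) ^ 2 ≤ C := by exact_mod_cast (show v j ^ 2 ≤ C from h3 ▸ h1)
        constructor <;> nlinarith [sq_nonneg ((v j : ℝ) - 1), sq_nonneg ((v j : ℝ) + 1)]))
    exact ⟨c, hc⟩
  choose c hc using hc
  obtain ⟨L, hL, hT⟩ := limit_field' U c i0 hc hH
  have hpar : ∀ i, ∃ j, c j = e i ∧ ∀ᶠ v in (U : Filter (ι → K)), v j = e i := fun i => by
    obtain ⟨j, hj⟩ := hH _ (fun _ => i0) (Df.eq (Pl.var 0) (Pl.par (i + 1)))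
    have h1 : ∀ᶠ v in (U : Filter (ι → K)), v j = e i :=
      mem_of_superset hj fun v hv => hv ⟨_, rfl⟩
    exact ⟨j, tendsto_nhds_unique (hc j) (tendsto_const_nhds.congr' (h1.mono fun n hn => by
      simp [hn])), h1⟩
  choose s hs1 hs2 using hpar
  have hmem : ∀ x, x ∈ L ↔ x ∈ range c := fun x => by rw [← hL]; rfl
  refine ⟨L, fun h => ?_, fun i => (hmem _).2 ⟨s i, hs1 i⟩, fun φ => ?_, fun φ X n => ?_⟩
  · obtain ⟨j, hj⟩ := hM _ h
    exact hj (c j) (fun a b h1 h2 => hc j (Ioo_mem_nhds h1 h2)) ((hmem _).2 ⟨j, rfl⟩)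
  · obtain ⟨N, hN⟩ := sat_supp φ
    have h1 : ∀ᶠ v in (U : Filter (ι → K)), ∀ k ∈ Finset.range N, v (s k) = e k :=
      (eventually_all_finset _).2 fun k _ => hs2 _
    rw [← sat_iff K φ e]
    simp only [← hs1]
    rw [hT φ s]
    refine ⟨fun h => h1.mono fun n hn => (hN _ _ fun k hk => hn k (Finset.mem_range.2 hk)).2 h,
      fun h => ?_⟩
    obtain ⟨n, hn1, hn2⟩ := (h.and h1).exists
    exact (hN _ _ fun k hk => hn2 k (Finset.mem_range.2 hk)).1 hn1
  · rintro ⟨a, b, ha, hb, h⟩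
    choose α hα using fun i k => (hmem _).1 (ha i k)
    choose β hβ using fun T k => (hmem _).1 (hb T k)
    have h1 : ∀ᶠ v in (U : Filter (ι → K)), ∀ i T,
        (Sat φ (fun k => v (bif X k then α i k else β T k)) ↔ i ∈ T) := by
      refine eventually_all.2 fun i => eventually_all.2 fun T => ?_
      have h2 := hT φ (fun k => bif X k then α i k else β T k)
      have h3 : (fun k => c (bif X k then α i k else β T k))
          = fun k => bif X k then a i k else b T k := by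
        funext k; cases X k <;> simp [hα, hβ]
      rw [h3, h] at h2
      by_cases hi : i ∈ T
      · exact (h2.1 hi).mono fun m hm => by simp [hi, hm]
      · exact (Ultrafilter.eventually_not.2 fun h' => hi (h2.2 h')).mono fun m hm => by
          simp [hi, hm]
    obtain ⟨v, hv⟩ := h1.exists
    refine (pat_iff K φ X n).1 ⟨fun i k => v (α i k), fun T k => v (β T k), fun i T => ?_⟩
    rw [← hv i T]
    refine iff_of_eq (congrArg _ (funext fun k => ?_))
    cases X k <;> rfl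

open Polynomial in
theorem zfc_case (hK : NIP K) (h : ¬ IsRealClosed K) :
    ∃ L : Subfield ℝ, NIP L ∧ ∃ D : Set L, Definable D ∧ ¬ BorelIn L D := by
  obtain ⟨α, hα, halg⟩ := exists_alg h
  set f := minpoly K α
  have hf := halg.isIntegral
  have hev : ∀ x : ℝ, aeval x f = ∑ i ∈ Finset.range (f.natDegree + 1), (f.coeff i : ℝ) * x ^ i :=
    fun x => by rw [aeval_eq_sum_range]; rfl
  obtain ⟨K', h1, h2, h7, h8⟩ := nonmeagre_model hK f.coeff
  have hG : ¬ ∃ x ∈ K', ∑ i ∈ Finset.range (f.natDegree + 1), (f.coeff i : ℝ) * x ^ i = 0 := by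
    intro h'
    obtain ⟨x, hx, h0⟩ := (root_iff _ _ _).1 ((h7 _).2 ((root_iff _ _ _).2 h'))
    rw [← hev] at h0
    have h1 : f.IsRoot ⟨x, hx⟩ := (algebraMap K ℝ).injective (by
      rw [map_zero, ← h0]
      exact (aeval_algebraMap_apply_eq_algebraMap_eval (⟨x, hx⟩ : K) f).symm)
    obtain ⟨y, hy⟩ := minpoly.degree_eq_one_iff.1
      (degree_eq_one_of_irreducible_of_root (minpoly.irreducible hf) h1)
    exact hα (hy ▸ y.2)
  have h3 : ∑ i ∈ Finset.range (f.natDegree + 1), (f.coeff i : ℝ) * α ^ i = 0 :=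
    hev α ▸ minpoly.aeval K α
  have h4 : IsAlgebraic K' α := by
    let c : ℕ → K' := fun i => ⟨f.coeff i, h2 i⟩
    refine ⟨∑ i ∈ Finset.range (f.natDegree + 1), monomial i (c i), fun h0 => ?_, ?_⟩
    · have h5 := congrArg (coeff · f.natDegree) h0
      simp only [finsetSum_coeff, coeff_monomial, Finset.sum_ite_eq', Finset.mem_range,
        Nat.lt_succ_self, if_true, coeff_zero] at h5
      have h6 : (f.coeff f.natDegree : ℝ) = 0 := congrArg Subtype.val h5
      rw [(minpoly.monic hf).coeff_natDegree] at h6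
      exact one_ne_zero h6
    · rw [← h3, map_sum]
      exact Finset.sum_congr rfl fun i _ => by rw [aeval_monomial]; rfl
  obtain ⟨L, -, h5, h6⟩ := large_case (Or.inl h1) (fun h' => hG ⟨α, h', h3⟩) h4
  exact ⟨_, h5 ((nip_iff K').2 fun φ X => ((nip_iff K).1 hK φ X).imp fun n hn h' =>
    hn (h8 φ X n h')), h6⟩

end Pool.Agent.MP_96eeb0_lc.H32
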